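import Pool.Agent.Y119.HY.Fin

/-!
# Hypergeometric families: the theorem on tuples, with the logarithms of the points as additional coordinates
-/

set_option autoImplicit false

open PowerSeries Pool.Agent.Y113 Pool.Agent.Y120.GF Pool.Agent.Y120.GH

namespace Pool.Agent.Y119.HZ

open Pool.Agent.Y119.HY (QD Am Jm cm E Hf Hc Yf E_mul_neg E_isom)

variable {k : ℕ} {n : Fin k → ℕ}

/-- the coordinates: a number and a matrix for every `i` -/
abbrev Jx {k : ℕ} (n : Fin k → ℕ) : Type := Σ i : Fin k, Option (Fin (n i) × Fin (n i))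

/-- the point given by a tuple of numbers and matrices -/
def pw (l : Fin k → ℂ) (X : ∀ i, Matrix (Fin (n i)) (Fin (n i)) ℂ) : Jx n → ℂ
  | ⟨i, none⟩ => l i
  | ⟨i, some p⟩ => X i p.1 p.2

/-- the substitution -/
noncomputable def sub' (Ω : ∀ i, Matrix (Fin (n i)) (Fin (n i)) ℂ) : Jx n → MvPolynomial (Vx n) ℂ
  | ⟨i, none⟩ => MvPolynomial.X ⟨i, none⟩
  | ⟨i, some p⟩ => sub Ω ⟨i, p⟩

lemma aeval_sub' (Ω : ∀ i, Matrix (Fin (n i)) (Fin (n i)) ℂ) (Z : ∀ i, Matrix (Fin (n i)) (Fin (n i)) ℂ) (l : Fin k → ℂ)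
    (v : Jx n) : MvPolynomial.aeval (pt (fun i j => Z i (ix (n i) j).1 (ix (n i) j).2) l) (sub' Ω v) =
      pw l (fun i => Z i * E (cm (Am (n i))) (-l i) * Ω i) v := by
  obtain ⟨i, _ | p⟩ := v
  · show MvPolynomial.aeval _ (MvPolynomial.X _) = _
    rw [MvPolynomial.aeval_X]
    rfl
  · exact aeval_sub Ω Z l ⟨i, p⟩

lemma deg_sub' (Ω : ∀ i, Matrix (Fin (n i)) (Fin (n i)) ℂ) (v : Jx n) : (sub' Ω v).totalDegree ≤ dg n := by
  obtain ⟨i, _ | p⟩ := v
  · show (MvPolynomial.X _ : MvPolynomial (Vx n) ℂ).totalDegree ≤ _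
    rw [MvPolynomial.totalDegree_X]
    unfold dg
    omega
  · exact deg_sub Ω ⟨i, p⟩

lemma MV.mul_sub' {V : Submodule ℚ ℂ} (Ω : ∀ i, Matrix (Fin (n i)) (Fin (n i)) ℂ) {p : MvPolynomial (Vx n) ℂ} (hp : MV V p)
    (v : Jx n) : MV (Ext V (fo Ω)) (p * sub' Ω v) := by
  obtain ⟨i, _ | q⟩ := v
  · have h1 := MV.ext Ω (hp.mul_rat (MvPolynomial.X ⟨i, none⟩))
    rwa [MvPolynomial.map_X] at h1
  · exact MV.mul_sub Ω hp ⟨i, q⟩

lemma MV_ms' (Ω : ∀ i, Matrix (Fin (n i)) (Fin (n i)) ℂ) {V : Submodule ℚ ℂ} {c : ℂ} (hc : c ∈ V) (ms : Multiset (Jx n)) :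
    MV (Vn Ω V (Multiset.card ms)) (MvPolynomial.C c * (ms.map (sub' Ω)).prod) ∧
      (MvPolynomial.C c * (ms.map (sub' Ω)).prod).totalDegree ≤ Multiset.card ms * dg n := by
  classical
  induction ms using Multiset.induction_on with
  | empty =>
    rw [Multiset.map_zero, Multiset.prod_zero, mul_one, Multiset.card_zero, zero_mul, MvPolynomial.totalDegree_C]
    refine ⟨fun m => ?_, le_rfl⟩
    rw [MvPolynomial.coeff_C]
    split_ifs
    · exact hc
    · exact V.zero_mem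
  | cons v ms ih =>
    have h1 : MvPolynomial.C c * ((v ::ₘ ms).map (sub' Ω)).prod = (MvPolynomial.C c * (ms.map (sub' Ω)).prod) * sub' Ω v := by
      rw [Multiset.map_cons, Multiset.prod_cons]
      ring
    rw [h1, Multiset.card_cons]
    refine ⟨MV.mul_sub' Ω ih.1 v, (MvPolynomial.totalDegree_mul _ _).trans ?_⟩
    rw [add_mul, one_mul]
    exact add_le_add ih.2 (deg_sub' Ω v)

/-- the substituted polynomial -/
theorem aeval_MV' (Ω : ∀ i, Matrix (Fin (n i)) (Fin (n i)) ℂ) {V : Submodule ℚ ℂ} {δ : ℕ} {P : MvPolynomial (Jx n) ℂ}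
    (hP : P.totalDegree ≤ δ) (hV : ∀ s, P.coeff s ∈ V) :
    MV (Vn Ω V δ) (MvPolynomial.aeval (sub' Ω) P) ∧ (MvPolynomial.aeval (sub' Ω) P).totalDegree ≤ δ * dg n := by
  classical
  have h1 : MvPolynomial.aeval (sub' Ω) P = ∑ s ∈ P.support, MvPolynomial.C (P.coeff s) *
      ((Finsupp.toMultiset s).map (sub' Ω)).prod := by
    rw [MvPolynomial.aeval_def, MvPolynomial.eval₂_eq]
    refine Finset.sum_congr rfl fun s _ => ?_
    congr 1
    rw [Finsupp.toMultiset_map, Finsupp.prod_toMultiset, Finsupp.prod_mapDomain_index (by simp) (by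
      intro a b c
      rw [pow_add])]
    rfl
  have h2 : ∀ s ∈ P.support, Multiset.card (Finsupp.toMultiset s) ≤ δ := by
    intro s hs
    rw [Finsupp.card_toMultiset]
    exact (MvPolynomial.le_totalDegree hs).trans hP
  rw [h1]
  refine ⟨MV.sum _ fun s hs => MV_mono Ω (h2 s hs) (MV_ms' Ω (hV s) _).1, ?_⟩
  refine (MvPolynomial.totalDegree_finsetSum _ _).trans (Finset.sup_le fun s hs => ?_)
  exact (MV_ms' Ω (hV s) _).2.trans (Nat.mul_le_mul_right _ (h2 s hs))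

/-! ### the period matrix preserves the form -/

lemma Yt_eq {n : ℕ} {Q : Polynomial ℚ} {t : ℕ} (ht : 1 ≤ t) :
    Yt n Q t = Yf (cm (Am n)) (Hc n Q) (((1 / (t : ℝ) : ℝ)) : ℂ) := by
  have ht0 : (0 : ℝ) < t := by exact_mod_cast ht
  unfold Yt Yf
  have h1 : Complex.log ((((1 / (t : ℝ) : ℝ)) : ℂ)) = -((Real.log t : ℝ) : ℂ) := by
    rw [← Complex.ofReal_log (by positivity), one_div, Real.log_inv]
    push_cast
    rfl
  rw [h1]

/-- the period matrix preserves the form -/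
theorem Yt_form {n : ℕ} {Q : Polynomial ℚ} (hQ : QD n Q) {t : ℕ} (ht : 2 ≤ t) :
    (Yt n Q t).transpose * cm (Jm n Q) * Yt n Q t = cm (Jm n Q) := by
  have ht0 : (2 : ℝ) ≤ t := by exact_mod_cast ht
  rw [Yt_eq (by omega)]
  refine Pool.Agent.Y119.HY.self_pair Pool.Agent.Y119.HY.Ac_nil Pool.Agent.Y119.HY.Jc_rel ?_ (Pool.Agent.Y119.HY.sol_c hQ)
    (Pool.Agent.Y119.HY.real_mem_Lens (by positivity) (by rw [div_lt_one (by linarith)]; linarith))
  rw [← Pool.Agent.Y119.HY.cm_transpose, ← Pool.Agent.Y119.HY.cm_mul, ← Pool.Agent.Y119.HY.cm_mul,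
    ← Pool.Agent.Y119.HY.cm_add, Bm_rel hQ, Pool.Agent.Y119.HY.cm_zero]

/-- isometries are invertible -/
lemma isom_inv {n : ℕ} {J X : Matrix (Fin n) (Fin n) ℂ} (hdet : J.det ≠ 0) (hX : X.transpose * J * X = J) :
    ∃ W : Matrix (Fin n) (Fin n) ℂ, X * W = 1 ∧ W * X = 1 ∧ W.transpose * J * W = J := by
  have h1 : (J⁻¹ * X.transpose * J) * X = 1 := by
    rw [Matrix.mul_assoc, Matrix.mul_assoc, ← Matrix.mul_assoc X.transpose, hX]
    exact Matrix.nonsing_inv_mul _ (Ne.isUnit hdet)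
  have h2 : X * (J⁻¹ * X.transpose * J) = 1 := mul_eq_one_comm.1 h1
  refine ⟨_, h2, h1, ?_⟩
  set W := J⁻¹ * X.transpose * J
  have h3 : W.transpose * X.transpose = 1 := by rw [← Matrix.transpose_mul, h2, Matrix.transpose_one]
  calc W.transpose * J * W = W.transpose * (X.transpose * J * X) * W := by rw [hX]
    _ = (W.transpose * X.transpose) * J * (X * W) := by simp only [Matrix.mul_assoc]
    _ = J := by rw [h2, h3, one_mul, mul_one]

lemma isom_mul {n : ℕ} {J X Z : Matrix (Fin n) (Fin n) ℂ} (hX : X.transpose * J * X = J) (hZ : Z.transpose * J * Z = J) :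
    (X * Z).transpose * J * (X * Z) = J := by
  calc (X * Z).transpose * J * (X * Z) = Z.transpose * (X.transpose * J * X) * Z := by
        rw [Matrix.transpose_mul]
        simp only [Matrix.mul_assoc]
    _ = J := by rw [hX, hZ]

variable {Q : Fin k → Polynomial ℚ}

/-- **Few exceptional tuples.** -/
theorem hyp_tuples_log (k δ D : ℕ) (n : Fin k → ℕ) (Q : Fin k → Polynomial ℚ) (hQ : ∀ i, QD (n i) (Q i))
    (hH : ∀ i a b, SDc (Hp (n i) (Q i) a b)) :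
    ∃ c C : ℝ, 0 < c ∧ 0 ≤ C ∧ ∀ (V : Submodule ℚ ℂ) [Module.Finite ℚ V], Module.finrank ℚ V ≤ D →
      ∀ Ω : (∀ i, Matrix (Fin (n i)) (Fin (n i)) ℂ), ∀ (x : Fin k → ℕ) (N : ℕ), (∀ i, 1 ≤ x i) → 1 ≤ N →
      ∀ S : Finset (Fin k → ℕ), (∀ t ∈ S, (∀ i, x i < t i ∧ t i ≤ x i + N) ∧ ∃ P : MvPolynomial (Jx n) ℂ,
        P.totalDegree ≤ δ ∧ (∀ s, P.coeff s ∈ V) ∧
        MvPolynomial.aeval (pw (fun i => ((Real.log (t i) : ℝ) : ℂ)) fun i => Yt (n i) (Q i) (t i) * Ω i) P = 0 ∧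
        ∃ (l : Fin k → ℂ) (g : ∀ i, Matrix (Fin (n i)) (Fin (n i)) ℂ),
          (∀ i, (g i).transpose * cm (Jm (n i) (Q i)) * g i = cm (Jm (n i) (Q i))) ∧
          MvPolynomial.aeval (pw l fun i => g i * Ω i) P ≠ 0) →
      (S.card : ℝ) ≤ C * (N : ℝ) ^ (k - 1) * ∑ i, (1 + N / ((x i : ℝ) + N) ^ c) := by
  classical
  obtain ⟨c, C, hc, hC, hmain⟩ := tuples k (δ * dg n) ((Fintype.card (Option (Ix n))) ^ δ * D) (fun i => n i * n i)
    (fun i => hf (n i) (Q i)) (fun i => by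
      obtain ⟨C₁, -, hs, -⟩ := Pool.Agent.Y119.HY.SDc.unif
        (y := fun p : Fin (n i) × Fin (n i) => Hp (n i) (Q i) p.1 p.2) fun p => hH i p.1 p.2
      exact ⟨C₁, fun j m => hs (ix (n i) j) m⟩) (fun i => hfam_hf (hQ i) (hH i) _)
  refine ⟨c, C, hc, hC, ?_⟩
  intro V _ hV Ω x N hx hN S hS
  obtain ⟨hfin, hrank⟩ := Vn_fin Ω V δ
  refine hmain (Vn Ω V δ) (hrank.trans (Nat.mul_le_mul_left _ hV)) x N hN S fun t htS => ?_
  obtain ⟨hbox, P, hPd, hPV, hP0, l, g, hg, hPg⟩ := hS t htS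
  refine ⟨hbox, MvPolynomial.aeval (sub' Ω) P, (aeval_MV' Ω hPd hPV).2, (aeval_MV' Ω hPd hPV).1, ?_, ?_⟩
  · -- the value
    have h1 : valpt (fun i => hf (n i) (Q i)) t =
        pt (fun i j => Hf (Hc (n i) (Q i)) (((1 / (t i : ℝ) : ℝ)) : ℂ) (ix (n i) j).1 (ix (n i) j).2)
          (fun i => ((Real.log (t i) : ℝ) : ℂ)) := by
      unfold valpt
      congr 1
      funext i j
      exact ev_Hp _ _ _
    have h2 : MvPolynomial.aeval (valpt (fun i => hf (n i) (Q i)) t) (MvPolynomial.aeval (sub' Ω) P) =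
        MvPolynomial.aeval (fun v => MvPolynomial.aeval (valpt (fun i => hf (n i) (Q i)) t) (sub' Ω v)) P :=
      MvPolynomial.aeval_bind₁ _ _ _
    rw [h2, h1]
    have h3 := fun v => aeval_sub' Ω (fun i => Hf (Hc (n i) (Q i)) (((1 / (t i : ℝ) : ℝ)) : ℂ)) (fun i => ((Real.log (t i) : ℝ) : ℂ)) v
    simp only [h3]
    exact hP0
  · intro hmem
    apply hPg
    set N' := fun i => cm (Am (n i)) with hN'
    have ht2 : ∀ i, 2 ≤ t i := fun i => by
      have := (hbox i).1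
      have := hx i
      omega
    have hdet : ∀ i, (cm (Jm (n i) (Q i))).det ≠ 0 := fun i => Pool.Agent.Y119.HY.Jc_det (hQ i)
    have hN : ∀ i, (N' i) ^ n i = 0 := fun i => Pool.Agent.Y119.HY.Ac_nil
    have hEiso : ∀ i (s : ℂ), (E (N' i) s).transpose * cm (Jm (n i) (Q i)) * E (N' i) s = cm (Jm (n i) (Q i)) :=
      fun i s => E_isom (hN i) Pool.Agent.Y119.HY.Jc_rel s
    -- the holomorphic part is an isometry
    have hHf : ∀ i, (Hf (Hc (n i) (Q i)) (((1 / (t i : ℝ) : ℝ)) : ℂ)).transpose * cm (Jm (n i) (Q i)) *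
        Hf (Hc (n i) (Q i)) (((1 / (t i : ℝ) : ℝ)) : ℂ) = cm (Jm (n i) (Q i)) := by
      intro i
      have h1 := isom_mul (Yt_form (hQ i) (ht2 i)) (hEiso i ((Real.log (t i) : ℝ) : ℂ))
      have h2 : Yt (n i) (Q i) (t i) * E (N' i) ((Real.log (t i) : ℝ) : ℂ) =
          Hf (Hc (n i) (Q i)) (((1 / (t i : ℝ) : ℝ)) : ℂ) := by
        unfold Yt
        have h3 : E (N' i) (-((Real.log (t i) : ℝ) : ℂ)) * E (N' i) ((Real.log (t i) : ℝ) : ℂ) = 1 := by
          have := E_mul_neg (hN i) (-((Real.log (t i) : ℝ) : ℂ))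
          rwa [neg_neg] at this
        rw [Matrix.mul_assoc, h3, mul_one]
      rwa [h2] at h1
    have hinv := fun i => isom_inv (hdet i) (hHf i)
    choose W hW1 hW2 hW3 using hinv
    let κ : ∀ i, Matrix (Fin (n i)) (Fin (n i)) ℂ := fun i => W i * g i * E (N' i) (l i)
    have hκ : ∀ i, (κ i).transpose * cm (Jm (n i) (Q i)) * κ i = cm (Jm (n i) (Q i)) := fun i =>
      isom_mul (isom_mul (hW3 i) (hg i)) (hEiso i (l i))
    have h1 := relI_vanish hQ ht2 hκ l hmem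
    have h2 : MvPolynomial.aeval (pt (fun i j => (Hf (Hc (n i) (Q i)) (((1 / (t i : ℝ) : ℝ)) : ℂ) * κ i)
        (ix (n i) j).1 (ix (n i) j).2) l) (MvPolynomial.aeval (sub' Ω) P) =
        MvPolynomial.aeval (fun v => MvPolynomial.aeval (pt (fun i j => (Hf (Hc (n i) (Q i)) (((1 / (t i : ℝ) : ℝ)) : ℂ) * κ i)
          (ix (n i) j).1 (ix (n i) j).2) l) (sub' Ω v)) P := MvPolynomial.aeval_bind₁ _ _ _
    rw [h2] at h1
    have h3 := fun v => aeval_sub' Ω (fun i => Hf (Hc (n i) (Q i)) (((1 / (t i : ℝ) : ℝ)) : ℂ) * κ i) l v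
    simp only [h3] at h1
    have h4 : (fun i => Hf (Hc (n i) (Q i)) (((1 / (t i : ℝ) : ℝ)) : ℂ) * κ i * E (cm (Am (n i))) (-l i) * Ω i) =
        fun i => g i * Ω i := by
      funext i
      have e1 : E (N' i) (l i) * E (N' i) (-l i) = 1 := E_mul_neg (hN i) (l i)
      calc Hf (Hc (n i) (Q i)) (((1 / (t i : ℝ) : ℝ)) : ℂ) * κ i * E (N' i) (-l i) * Ω i =
          (Hf (Hc (n i) (Q i)) (((1 / (t i : ℝ) : ℝ)) : ℂ) * W i) * g i * (E (N' i) (l i) * E (N' i) (-l i)) * Ω i := by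
            show Hf (Hc (n i) (Q i)) (((1 / (t i : ℝ) : ℝ)) : ℂ) * (W i * g i * E (N' i) (l i)) * E (N' i) (-l i) * Ω i = _
            simp only [Matrix.mul_assoc]
        _ = g i * Ω i := by rw [hW1, e1, one_mul, mul_one]
    rw [h4] at h1
    exact h1

end Pool.Agent.Y119.HZ
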