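import Pool.Agent.Y119.HY.Data2
import Pool.Agent.Y113.P.SD

/-!
# Denominators of the coefficients of the hypergeometric system with rational exponents
-/

set_option autoImplicit false

open PowerSeries

namespace Pool.Agent.Y119.HY

/-! ### integrality of Pochhammer quotients -/

lemma prime_pow_le {q N k : ℕ} (hq : q.Prime) (h : q ^ N ∣ k.factorial) : N ≤ k := by
  have := Fact.mk hq
  have h1 : N ≤ padicValNat q k.factorial := (padicValNat_dvd_iff_le (Nat.factorial_ne_zero k)).1 h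
  have h2 := sub_one_mul_padicValNat_factorial (p := q) k
  have h3 : padicValNat q k.factorial ≤ (q - 1) * padicValNat q k.factorial :=
    Nat.le_mul_of_pos_left _ (by have := hq.two_le; omega)
  omega

lemma fac_dvd_prod (x : ℤ) (k : ℕ) : (k.factorial : ℤ) ∣ ∏ l ∈ Finset.range k, (x + l) := by
  -- reduce to a natural number
  set y : ℕ := (x + (k.factorial : ℤ) * (x.natAbs : ℤ)).toNat with hy
  have hf : (1 : ℤ) ≤ k.factorial := by exact_mod_cast Nat.succ_le_of_lt (Nat.factorial_pos k)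
  have hx0 : 0 ≤ x + (k.factorial : ℤ) * (x.natAbs : ℤ) := by
    have h1 : -(x.natAbs : ℤ) ≤ x := by rw [Int.natCast_natAbs]; exact neg_abs_le x
    have h2 : (0 : ℤ) ≤ x.natAbs := by positivity
    nlinarith
  have hyx : (y : ℤ) = x + (k.factorial : ℤ) * (x.natAbs : ℤ) := Int.toNat_of_nonneg hx0
  have h1 : (∏ l ∈ Finset.range k, (x + l)) ≡ (∏ l ∈ Finset.range k, ((y : ℤ) + l)) [ZMOD (k.factorial : ℤ)] := by
    refine Int.ModEq.prod fun l _ => ?_
    rw [hyx]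
    refine Int.ModEq.add_right _ ?_
    rw [Int.modEq_iff_dvd]
    exact ⟨x.natAbs, by ring⟩
  have h2 : (∏ l ∈ Finset.range k, ((y : ℤ) + l)) = ((y.ascFactorial k : ℕ) : ℤ) := by
    rw [Nat.ascFactorial_eq_prod_range]
    push_cast
    rfl
  rw [h2] at h1
  have h3 : (k.factorial : ℤ) ∣ ((y.ascFactorial k : ℕ) : ℤ) := by exact_mod_cast Nat.factorial_dvd_ascFactorial y k
  exact (Int.ModEq.dvd_iff h1).2 h3

lemma fac_dvd (p : ℤ) (b : ℕ) (k : ℕ) : (k.factorial : ℤ) ∣ (b : ℤ) ^ k * ∏ l ∈ Finset.range k, (p + l * b) := by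
  rw [Int.natCast_dvd, Nat.dvd_iff_prime_pow_dvd_dvd]
  intro q N hq hN
  rw [← Int.natCast_dvd]
  push_cast
  by_cases hqb : q ∣ b
  · have h1 : (q : ℤ) ^ N ∣ (b : ℤ) ^ k := by
      have h2 : q ^ N ∣ b ^ k := (pow_dvd_pow q (prime_pow_le hq hN)).trans (pow_dvd_pow_of_dvd hqb k)
      exact_mod_cast h2
    exact h1.mul_right _
  · have hcop : IsCoprime ((q : ℤ) ^ N) (b : ℤ) := by
      have h1 : Nat.Coprime (q ^ N) b := Nat.Coprime.pow_left N ((Nat.Prime.coprime_iff_not_dvd hq).2 hqb)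
      have h2 := Nat.isCoprime_iff_coprime.2 h1
      push_cast at h2
      exact h2
    obtain ⟨u, v, huv⟩ := hcop
    have h1 : (∏ l ∈ Finset.range k, (p * v + l * (v * b))) ≡ (∏ l ∈ Finset.range k, (p * v + l)) [ZMOD ((q : ℤ) ^ N)] := by
      refine Int.ModEq.prod fun l _ => ?_
      refine Int.ModEq.add_left _ ?_
      have h3 : (v * b : ℤ) ≡ 1 [ZMOD ((q : ℤ) ^ N)] := by
        rw [Int.modEq_iff_dvd]
        exact ⟨u, by linear_combination -huv⟩
      have h4 := h3.mul_left (l : ℤ)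
      rwa [mul_one] at h4
    have h2 : (q : ℤ) ^ N ∣ ∏ l ∈ Finset.range k, (p * v + l) := by
      have h3 : ((q ^ N : ℕ) : ℤ) ∣ (k.factorial : ℤ) := by exact_mod_cast hN
      push_cast at h3
      exact h3.trans (fac_dvd_prod (p * v) k)
    have h3 : (q : ℤ) ^ N ∣ v ^ k * ∏ l ∈ Finset.range k, (p + l * b) := by
      have h4 : v ^ k * ∏ l ∈ Finset.range k, (p + l * b) = ∏ l ∈ Finset.range k, (p * v + l * (v * b)) := by
        rw [← Finset.card_range k, ← Finset.prod_const, Finset.card_range, ← Finset.prod_mul_distrib]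
        exact Finset.prod_congr rfl fun l _ => by ring
      rw [h4]
      exact (Int.ModEq.dvd_iff h1).2 h2
    have hcop2 : IsCoprime ((q : ℤ) ^ N) (v ^ k) := by
      refine IsCoprime.pow_right ?_
      exact ⟨u, b, by linear_combination huv⟩
    exact (hcop2.dvd_of_dvd_mul_left h3).mul_left _

/-- the Pochhammer quotients have geometric denominators -/
lemma poch_int (γ : ℚ) (k : ℕ) : ∃ a : ℤ, ((γ.den : ℚ) ^ 2) ^ k * ∏ l ∈ Finset.range k, (((l : ℚ) + γ) / ((l : ℚ) + 1)) = a := by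
  obtain ⟨c, hc⟩ := fac_dvd γ.num γ.den k
  refine ⟨c, ?_⟩
  have hd : (γ.den : ℚ) ≠ 0 := by exact_mod_cast γ.den_nz
  have h1 : ∏ l ∈ Finset.range k, ((l : ℚ) + 1) = (k.factorial : ℚ) := by
    rw [← Finset.prod_range_add_one_eq_factorial]
    push_cast
    rfl
  have h2 : (∏ l ∈ Finset.range k, ((l : ℚ) + γ)) * (γ.den : ℚ) ^ k = ∏ l ∈ Finset.range k, ((γ.num : ℚ) + l * γ.den) := by
    have h3 : ∀ l : ℕ, (γ.num : ℚ) + l * γ.den = ((l : ℚ) + γ) * γ.den := by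
      intro l
      have := Rat.mul_den_eq_num γ
      rw [add_mul, this]
      ring
    simp only [h3]
    rw [Finset.prod_mul_distrib, Finset.prod_const, Finset.card_range]
  have h4 : ((γ.den : ℚ) ^ k) * ∏ l ∈ Finset.range k, ((γ.num : ℚ) + l * γ.den) = (k.factorial : ℚ) * c := by
    exact_mod_cast hc
  have h5 : (k.factorial : ℚ) ≠ 0 := by exact_mod_cast k.factorial_ne_zero
  rw [Finset.prod_div_distrib, h1, ← mul_div_assoc, div_eq_iff h5, mul_comm (c : ℚ), ← h4, ← h2]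
  ring

/-! ### power series with geometric denominators -/

/-- `L ^ j f_j` is an integer -/
noncomputable def SL (L : ℕ) : Subring ℚ⟦X⟧ :=
  ((PowerSeries.map (Int.castRingHom ℚ)).range).comap (PowerSeries.rescale (L : ℚ))

lemma SL_coeff {L : ℕ} {f : ℚ⟦X⟧} (h : f ∈ SL L) (j : ℕ) : ∃ a : ℤ, (L : ℚ) ^ j * coeff j f = a := by
  obtain ⟨g, hg⟩ := h
  refine ⟨coeff j g, ?_⟩
  have := congrArg (coeff j) hg
  rw [PowerSeries.coeff_rescale, PowerSeries.coeff_map] at this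
  rw [← this]
  rfl

lemma rescale_C' (r x : ℚ) : PowerSeries.rescale r (C x) = C x := by
  ext j
  rw [PowerSeries.coeff_rescale, PowerSeries.coeff_C]
  split_ifs with h
  · rw [h, pow_zero, one_mul]
  · rw [mul_zero]

lemma SL_C (L : ℕ) (c : ℤ) : C (c : ℚ) ∈ SL L := by
  refine ⟨C c, ?_⟩
  rw [PowerSeries.map_C, rescale_C']
  rfl

lemma SL_CX {L : ℕ} {x : ℚ} (h : ∃ a : ℤ, (L : ℚ) * x = a) : C x * X ∈ SL L := by
  obtain ⟨a, ha⟩ := h
  refine ⟨C a * X, ?_⟩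
  rw [map_mul, map_mul, PowerSeries.map_C, PowerSeries.map_X, rescale_C', PowerSeries.rescale_X]
  have h1 : (Int.castRingHom ℚ) a = x * L := by
    rw [mul_comm, ha]
    rfl
  rw [h1, map_mul]
  ring

lemma SL_X (L : ℕ) : (X : ℚ⟦X⟧) ∈ SL L := by
  have := SL_CX (L := L) (x := 1) ⟨L, by simp⟩
  rwa [map_one, one_mul] at this

lemma SL_lin {L : ℕ} {x : ℚ} (h : ∃ a : ℤ, (L : ℚ) * x = a) : 1 + C x * X ∈ SL L :=
  (SL L).add_mem (SL L).one_mem (SL_CX h)

lemma SL_inv {L : ℕ} {f : ℚ⟦X⟧} (h : f ∈ SL L) (h1 : constantCoeff f = 1) : f⁻¹ ∈ SL L := by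
  obtain ⟨g, hg⟩ := h
  have h2 : constantCoeff g = 1 := by
    have h3 := congrArg constantCoeff hg
    rw [← coeff_zero_eq_constantCoeff_apply, ← coeff_zero_eq_constantCoeff_apply, PowerSeries.coeff_rescale,
      PowerSeries.coeff_map, pow_zero, one_mul, coeff_zero_eq_constantCoeff_apply, coeff_zero_eq_constantCoeff_apply,
      h1] at h3
    have h4 : ((constantCoeff g : ℤ) : ℚ) = 1 := h3
    exact_mod_cast h4
  have h3 : g * PowerSeries.invOfUnit g 1 = 1 := PowerSeries.mul_invOfUnit g 1 (by rw [h2]; rfl)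
  refine ⟨PowerSeries.invOfUnit g 1, ?_⟩
  have h4 : f * f⁻¹ = 1 := PowerSeries.mul_inv_cancel f (by rw [h1]; exact one_ne_zero)
  have h5 : PowerSeries.rescale (L : ℚ) f * PowerSeries.rescale (L : ℚ) f⁻¹ = 1 := by rw [← map_mul, h4, map_one]
  have h6 := congrArg (PowerSeries.map (Int.castRingHom ℚ)) h3
  rw [map_mul, map_one, hg] at h6
  calc (PowerSeries.map (Int.castRingHom ℚ)) (g.invOfUnit 1)
      = (PowerSeries.map (Int.castRingHom ℚ)) (g.invOfUnit 1) *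
        (PowerSeries.rescale (L : ℚ) f * PowerSeries.rescale (L : ℚ) f⁻¹) := by rw [h5, mul_one]
    _ = (PowerSeries.rescale (L : ℚ) f * (PowerSeries.map (Int.castRingHom ℚ)) (g.invOfUnit 1)) *
        PowerSeries.rescale (L : ℚ) f⁻¹ := by ring
    _ = _ := by rw [h6, one_mul]

/-! ### the hypergeometric coefficients -/

/-- one exponent -/
noncomputable def uq (γ : ℚ) (k : ℕ) : ℚ⟦X⟧ := ∏ l ∈ Finset.range k, ((C ((l : ℚ) + γ) + X) * (kx (l + 1))⁻¹)

/-- the polynomial with roots `± β_i` -/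
noncomputable def QB {m : ℕ} (β : Fin m → ℚ) : Polynomial ℚ := ∏ i, (Polynomial.X ^ 2 - Polynomial.C (β i ^ 2))

lemma aq_QB {m : ℕ} (β : Fin m → ℚ) (k : ℕ) : aq (2 * m) (QB β) k = ∏ i, (uq (β i) k * uq (-β i) k) := by
  unfold aq uq QB
  simp only [← Finset.prod_mul_distrib]
  rw [Finset.prod_comm]
  refine Finset.prod_congr rfl fun l _ => ?_
  rw [map_prod]
  have h1 : ∀ i : Fin m, Polynomial.aeval (kx l) (Polynomial.X ^ 2 - Polynomial.C (β i ^ 2)) =
      (C ((l : ℚ) + β i) + X) * (C ((l : ℚ) + -β i) + X) := by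
    intro i
    rw [map_sub, map_pow, Polynomial.aeval_X, Polynomial.aeval_C]
    have h2 : algebraMap ℚ ℚ⟦X⟧ (β i ^ 2) = C (β i) ^ 2 := by rw [← map_pow]; rfl
    rw [h2, map_add, map_add, map_neg]
    unfold kx
    ring
  simp only [h1]
  have h3 : ((kx (l + 1))⁻¹) ^ (2 * m) = ∏ _i : Fin m, ((kx (l + 1))⁻¹ * (kx (l + 1))⁻¹) := by
    rw [Finset.prod_const, Finset.card_univ, Fintype.card_fin, pow_mul, sq]
  rw [h3, ← Finset.prod_mul_distrib]
  exact Finset.prod_congr rfl fun i _ => by ring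

/-- the factors have geometric denominators -/
lemma uq_eq {γ : ℚ} (hγ : ∀ l : ℕ, (l : ℚ) + γ ≠ 0) {k K L : ℕ} (hk : k ≤ K)
    (hL : ∀ i : ℕ, 1 ≤ i → i ≤ K * γ.den + γ.num.natAbs + K → i ∣ L) :
    ∃ w ∈ SL L, uq γ k = C (∏ l ∈ Finset.range k, (((l : ℚ) + γ) / ((l : ℚ) + 1))) * w := by
  refine ⟨∏ l ∈ Finset.range k, ((1 + C (1 / ((l : ℚ) + γ)) * X) * (1 + C (1 / ((l : ℚ) + 1)) * X)⁻¹), ?_, ?_⟩
  · refine (SL L).prod_mem fun l hl => ?_
    rw [Finset.mem_range] at hl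
    refine (SL L).mul_mem (SL_lin ?_) (SL_inv (SL_lin ?_) ?_)
    · have h1 : γ.num + l * γ.den ≠ 0 := by
        intro h0
        apply hγ l
        have h2 : (((γ.num + l * γ.den : ℤ)) : ℚ) = 0 := by exact_mod_cast h0
        have h3 := Rat.mul_den_eq_num γ
        have hd : (γ.den : ℚ) ≠ 0 := by exact_mod_cast γ.den_nz
        push_cast at h2
        have h4 : ((l : ℚ) + γ) * γ.den = 0 := by rw [add_mul, h3]; linear_combination h2
        exact (mul_eq_zero.1 h4).resolve_right hd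
      have h2 : (γ.num + l * γ.den).natAbs ∣ L := by
        refine hL _ (Int.natAbs_pos.2 h1) ?_
        have h3 : (γ.num + l * γ.den).natAbs ≤ γ.num.natAbs + l * γ.den := by
          refine (Int.natAbs_add_le _ _).trans ?_
          rw [Int.natAbs_mul, Int.natAbs_natCast, Int.natAbs_natCast]
        have h4 : l * γ.den ≤ K * γ.den := Nat.mul_le_mul_right _ (by omega)
        omega
      obtain ⟨c, hc⟩ := Int.natAbs_dvd.1 (Int.natCast_dvd_natCast.2 h2)
      refine ⟨c * γ.den, ?_⟩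
      have h3 := Rat.mul_den_eq_num γ
      have hd : (γ.den : ℚ) ≠ 0 := by exact_mod_cast γ.den_nz
      have h5 : (L : ℚ) = ((γ.num : ℚ) + l * γ.den) * c := by exact_mod_cast hc
      have h6 : (γ.num : ℚ) + l * γ.den = ((l : ℚ) + γ) * γ.den := by rw [add_mul, h3]; ring
      rw [h5, h6]
      have := hγ l
      push_cast
      field_simp
    · obtain ⟨c, hc⟩ := hL (l + 1) (by omega) (by omega)
      refine ⟨c, ?_⟩
      rw [hc]
      have : ((l : ℚ) + 1) ≠ 0 := by positivity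
      push_cast
      field_simp
    · simp
  · rw [map_prod, ← Finset.prod_mul_distrib]
    unfold uq
    refine Finset.prod_congr rfl fun l _ => ?_
    have h1 := hγ l
    have h2 : ((l : ℚ) + 1) ≠ 0 := by positivity
    have e1 : C ((l : ℚ) + γ) + X = C ((l : ℚ) + γ) * (1 + C (1 / ((l : ℚ) + γ)) * X) := by
      rw [mul_add, mul_one, ← mul_assoc, ← map_mul, mul_one_div_cancel h1, map_one, one_mul]
    have e2 : kx (l + 1) = C ((l : ℚ) + 1) * (1 + C (1 / ((l : ℚ) + 1)) * X) := by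
      rw [mul_add, mul_one, ← mul_assoc, ← map_mul, mul_one_div_cancel h2, map_one, one_mul]
      unfold kx
      push_cast
      rfl
    have e3 : (C (((l : ℚ) + γ) / ((l : ℚ) + 1)) : ℚ⟦X⟧) = C ((l : ℚ) + γ) * C (((l : ℚ) + 1)⁻¹) := by
      rw [← map_mul, div_eq_mul_inv]
    rw [e1, e2, PowerSeries.mul_inv_rev, PowerSeries.C_inv, e3]
    ring

/-! ### the entries are G-functions -/

open Pool.Agent.Y113 in
lemma sdc_of {f : ℚ⟦X⟧} (hs : ∃ A : ℝ, ∀ m, |((coeff m f : ℚ) : ℝ)| ≤ A ^ (m + 1))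
    (hd : ∃ A : ℝ, ∀ m, ∃ d : ℕ, 0 < d ∧ (d : ℝ) ≤ A ^ (m + 1) ∧ ∀ j ≤ m, ∃ a : ℤ, (d : ℚ) * coeff j f = a) : SDc f := by
  obtain ⟨A, hA⟩ := hs
  obtain ⟨B, hB⟩ := hd
  obtain ⟨n, hn⟩ := pow_unbounded_of_one_lt (max |A| |B|) (one_lt_two : (1 : ℝ) < 2)
  refine ⟨n, fun m => (hA m).trans ?_, fun m => ?_⟩
  · refine (le_abs_self _).trans ?_
    rw [abs_pow]
    exact pow_le_pow_left₀ (abs_nonneg _) ((le_max_left _ _).trans hn.le) _
  · obtain ⟨d, hd0, hd, hd'⟩ := hB m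
    refine ⟨d, hd0, hd.trans ?_, hd'⟩
    refine (le_abs_self _).trans ?_
    rw [abs_pow]
    exact pow_le_pow_left₀ (abs_nonneg _) ((le_max_right _ _).trans hn.le) _

/-- the entries of the holomorphic part as power series in `z` -/
noncomputable def hps (n : ℕ) (Q : Polynomial ℚ) (i j : ℕ) : ℚ⟦X⟧ := PowerSeries.mk fun k => hq n Q k i j

/-- the denominators -/
lemma hq_den {m : ℕ} {β : Fin m → ℚ} (hβ : ∀ i, ∀ l : ℕ, (l : ℚ) + β i ≠ 0 ∧ (l : ℚ) + -β i ≠ 0) :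
    ∃ A : ℝ, ∀ K, ∃ d : ℕ, 0 < d ∧ (d : ℝ) ≤ A ^ (K + 1) ∧ ∀ k ≤ K, ∀ i j : ℕ, j < 2 * m →
      ∃ a : ℤ, (d : ℚ) * hq (2 * m) (QB β) k i j = a := by
  set Bd : ℕ := 1 + ∑ i, ((β i).den + (β i).num.natAbs) with hBd
  have hBi : ∀ i, (β i).den + (β i).num.natAbs + 1 ≤ Bd := by
    intro i
    have := Finset.single_le_sum (f := fun i => (β i).den + (β i).num.natAbs) (fun _ _ => Nat.zero_le _) (Finset.mem_univ i)
    omega
  set M : ℕ := ∏ i, ((β i).den ^ 2 * (β i).den ^ 2) with hM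
  have hM1 : 1 ≤ M := by
    rw [hM]
    refine Nat.succ_le_of_lt (Finset.prod_pos fun i _ => ?_)
    have := (β i).den_pos
    positivity
  refine ⟨(M : ℝ) * ((2 ^ 8) ^ Bd) ^ (2 * m), fun K => ?_⟩
  set L : ℕ := Nat.lcmUpto (K * Bd + Bd) with hL
  have hL0 : 0 < L := Nat.lcmUpto_pos _
  have hLd : ∀ γ : ℚ, γ.den + γ.num.natAbs + 1 ≤ Bd → ∀ i : ℕ, 1 ≤ i → i ≤ K * γ.den + γ.num.natAbs + K → i ∣ L := by
    intro γ hγ i h1 h2
    refine Pool.Agent.Y113.dvd_lcmUpto h1 (h2.trans ?_)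
    have h3 : K * (γ.den + 1) ≤ K * Bd := Nat.mul_le_mul_left _ (by omega)
    rw [mul_add, mul_one] at h3
    omega
  refine ⟨M ^ K * L ^ (2 * m), by positivity, ?_, fun k hk i j hj => ?_⟩
  · push_cast
    have h1 : (L : ℝ) ≤ (2 ^ 8) ^ (K * Bd + Bd) := Pool.Agent.Y113.lcm_bound _
    have hM1' : (1 : ℝ) ≤ M := by exact_mod_cast hM1
    calc (M : ℝ) ^ K * (L : ℝ) ^ (2 * m) ≤ (M : ℝ) ^ (K + 1) * ((2 ^ 8) ^ (K * Bd + Bd)) ^ (2 * m) :=
          mul_le_mul (pow_le_pow_right₀ hM1' (Nat.le_succ K)) (pow_le_pow_left₀ (by positivity) h1 _) (by positivity)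
            (by positivity)
      _ = _ := by
          rw [mul_pow]
          congr 1
          generalize ((2 : ℝ) ^ 8) = B
          rw [← pow_mul, ← pow_mul, ← pow_mul]
          congr 1
          ring
  · -- the factors
    have hm1 : ∀ i, ∃ w ∈ SL L, uq (β i) k = C (∏ l ∈ Finset.range k, (((l : ℚ) + β i) / ((l : ℚ) + 1))) * w := fun i =>
      uq_eq (fun l => (hβ i l).1) hk (hLd _ (hBi i))
    have hm2 : ∀ i, ∃ w ∈ SL L, uq (-β i) k = C (∏ l ∈ Finset.range k, (((l : ℚ) + -β i) / ((l : ℚ) + 1))) * w := fun i =>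
      uq_eq (fun l => (hβ i l).2) hk (hLd _ (by
        rw [Rat.neg_den, Rat.neg_num, Int.natAbs_neg]
        exact hBi i))
    choose w1 hw1 hw1' using hm1
    choose w2 hw2 hw2' using hm2
    set c : ℚ := ∏ i, ((∏ l ∈ Finset.range k, (((l : ℚ) + β i) / ((l : ℚ) + 1))) *
      ∏ l ∈ Finset.range k, (((l : ℚ) + -β i) / ((l : ℚ) + 1))) with hc
    have haq : aq (2 * m) (QB β) k = C c * ∏ i, (w1 i * w2 i) := by
      rw [aq_QB, hc, map_prod, ← Finset.prod_mul_distrib]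
      refine Finset.prod_congr rfl fun i _ => ?_
      rw [hw1' i, hw2' i, map_mul]
      ring
    have hcM : ∃ a : ℤ, ((M : ℚ) ^ k) * c = a := by
      choose a ha using fun i => poch_int (β i) k
      choose b hb using fun i => poch_int (-β i) k
      refine ⟨∏ i, (a i * b i), ?_⟩
      rw [hc, hM]
      push_cast
      rw [← Finset.prod_pow, ← Finset.prod_mul_distrib]
      refine Finset.prod_congr rfl fun i _ => ?_
      rw [← ha i, ← hb i, Rat.neg_den, mul_pow]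
      ring
    obtain ⟨a, ha⟩ := hcM
    have hmem : kx k ^ i * ∏ i, (w1 i * w2 i) ∈ SL L := by
      refine (SL L).mul_mem ((SL L).pow_mem ((SL L).add_mem ?_ (SL_X L)) _)
        ((SL L).prod_mem fun i _ => (SL L).mul_mem (hw1 i) (hw2 i))
      have := SL_C L (k : ℤ)
      exact_mod_cast this
    obtain ⟨b, hb⟩ := SL_coeff hmem j
    refine ⟨(M : ℤ) ^ (K - k) * a * ((L : ℤ) ^ (2 * m - j) * b), ?_⟩
    unfold hq
    rw [haq, show kx k ^ i * (C c * ∏ i, (w1 i * w2 i)) = C c * (kx k ^ i * ∏ i, (w1 i * w2 i)) by ring,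
      PowerSeries.coeff_C_mul]
    push_cast
    rw [← ha, ← hb]
    have e1 : (M : ℚ) ^ K = (M : ℚ) ^ (K - k) * (M : ℚ) ^ k := by rw [← pow_add]; congr 1; omega
    have e2 : (L : ℚ) ^ (2 * m) = (L : ℚ) ^ (2 * m - j) * (L : ℚ) ^ j := by rw [← pow_add]; congr 1; omega
    rw [e1, e2]
    ring

/-- polynomial growth gives exponential growth -/
lemma PG.exp {c : ℕ → ℂ} (h : PG c) : ∃ A : ℝ, ∀ k, ‖c k‖ ≤ A ^ (k + 1) := by
  obtain ⟨C, p, hC⟩ := h
  have hC0 := PG.nonneg hC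
  refine ⟨(C + 1) * 2 ^ p, fun k => (hC k).trans ?_⟩
  rw [mul_pow]
  refine mul_le_mul ?_ ?_ (by positivity) (by positivity)
  · calc C ≤ C + 1 := by linarith
      _ ≤ (C + 1) ^ (k + 1) := le_self_pow₀ (by linarith) (by omega)
  · rw [← pow_mul, mul_comm, pow_mul]
    refine pow_le_pow_left₀ (by positivity) ?_ _
    have : k + 1 ≤ 2 ^ (k + 1) := (Nat.lt_two_pow_self).le
    exact_mod_cast this

open Pool.Agent.Y113 in
theorem sdc_hps {m : ℕ} {β : Fin m → ℚ} (hβ : ∀ i, ∀ l : ℕ, (l : ℚ) + β i ≠ 0 ∧ (l : ℚ) + -β i ≠ 0)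
    (hQ : QD (2 * m) (QB β)) (i j : Fin (2 * m)) : SDc (hps (2 * m) (QB β) i j) := by
  refine sdc_of ?_ ?_
  · obtain ⟨A, hA⟩ := ((sol_c hQ).growth Ac_nil i j).exp
    refine ⟨A, fun k => ?_⟩
    have h1 := hA k
    unfold Hc at h1
    rw [cm_apply] at h1
    unfold hps
    rw [PowerSeries.coeff_mk]
    refine le_trans (le_of_eq ?_) h1
    have e1 : ((Hq (2 * m) (QB β) k i j : ℚ) : ℂ) = (((Hq (2 * m) (QB β) k i j : ℚ) : ℝ) : ℂ) := by push_cast; rfl
    rw [e1, Complex.norm_real, Real.norm_eq_abs]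
    rfl
  · obtain ⟨A, hA⟩ := hq_den hβ
    refine ⟨A, fun K => ?_⟩
    obtain ⟨d, hd0, hd, hd'⟩ := hA K
    refine ⟨d, hd0, hd, fun k hk => ?_⟩
    unfold hps
    rw [PowerSeries.coeff_mk]
    exact hd' k hk i j j.2

end Pool.Agent.Y119.HY
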