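import Pool.Agent.Y119.HY.GP
import Pool.Agent.Y119.HY.Ari

/-!
# Generalised binomial coefficients of nilpotent matrices
-/

set_option autoImplicit false

open PowerSeries Finset.HasAntidiagonal

namespace Pool.Agent.Y119.HY

open Pool.Agent.Y113

lemma choose_step {R : Type*} [Ring R] [Module ℚ≥0 R] (r : R) (s : ℕ) :
    (s + 1) • Ring.choose r (s + 1) = Ring.choose r s * (r - s) := by
  have h := Ring.choose_smul_choose r (n := s + 1) (k := s) (Nat.le_succ s)
  rw [Nat.choose_succ_self_right, Nat.add_sub_cancel_left, Ring.choose_one_right] at h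
  exact h

lemma choose_zero' {R : Type*} [Ring R] [Module ℚ≥0 R] (r : R) : Ring.choose r 0 = 1 := Ring.choose_zero_right r

/-- integrality in the polynomial ring -/
noncomputable def SPo (L : ℕ) : Subring (Polynomial ℚ) := (SL L).comap (Polynomial.coeToPowerSeries.ringHom (R := ℚ))

lemma SPo_coeff {L : ℕ} {f : Polynomial ℚ} (h : f ∈ SPo L) (j : ℕ) : ∃ a : ℤ, (L : ℚ) ^ j * f.coeff j = a := by
  have h1 : (f : ℚ⟦X⟧) ∈ SL L := h
  obtain ⟨a, ha⟩ := SL_coeff h1 j
  rw [Polynomial.coeff_coe] at ha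
  exact ⟨a, ha⟩

lemma SPo_CX {L : ℕ} {x : ℚ} (h : ∃ a : ℤ, (L : ℚ) * x = a) : Polynomial.C x * Polynomial.X ∈ SPo L := by
  show ((Polynomial.C x * Polynomial.X : Polynomial ℚ) : ℚ⟦X⟧) ∈ SL L
  rw [Polynomial.coe_mul, Polynomial.coe_C, Polynomial.coe_X]
  exact SL_CX h

/-- the formula for the binomial coefficient -/
lemma choose_formula (x : Polynomial ℚ) (s : ℕ) : Ring.choose x (s + 1) = (Polynomial.C (1 / ((s : ℚ) + 1)) * x) *
    ∏ l ∈ Finset.range s, (Polynomial.C (1 / ((l : ℚ) + 1)) * x - 1) := by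
  induction s with
  | zero =>
    rw [Ring.choose_one_right]
    simp
  | succ s ih =>
    have h1 := choose_step x (s + 1)
    rw [ih] at h1
    have h2 : ((s : ℚ) + 1 + 1) ≠ 0 := by positivity
    have h3 : ((s : ℚ) + 1) ≠ 0 := by positivity
    have e1 : (Polynomial.C (1 / ((s : ℚ) + 1 + 1)) : Polynomial ℚ) * ((s + 1 + 1 : ℕ) : Polynomial ℚ) = 1 := by
      rw [← Polynomial.C_eq_natCast, ← Polynomial.C_mul]
      push_cast
      rw [one_div_mul_cancel h2, map_one]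
    have e2 : (Polynomial.C (1 / ((s : ℚ) + 1)) : Polynomial ℚ) * ((s + 1 : ℕ) : Polynomial ℚ) = 1 := by
      rw [← Polynomial.C_eq_natCast, ← Polynomial.C_mul]
      push_cast
      rw [one_div_mul_cancel h3, map_one]
    rw [nsmul_eq_mul] at h1
    rw [Finset.prod_range_succ]
    push_cast
    calc Ring.choose x (s + 1 + 1) = (Polynomial.C (1 / ((s : ℚ) + 1 + 1)) * ((s + 1 + 1 : ℕ) : Polynomial ℚ)) *
          Ring.choose x (s + 1 + 1) := by rw [e1, one_mul]
      _ = Polynomial.C (1 / ((s : ℚ) + 1 + 1)) * (((s + 1 + 1 : ℕ) : Polynomial ℚ) * Ring.choose x (s + 1 + 1)) := by ring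
      _ = Polynomial.C (1 / ((s : ℚ) + 1 + 1)) * (((Polynomial.C (1 / ((s : ℚ) + 1)) * x) *
          ∏ l ∈ Finset.range s, (Polynomial.C (1 / ((l : ℚ) + 1)) * x - 1)) * (x - ((s + 1 : ℕ) : Polynomial ℚ))) := by rw [h1]
      _ = (Polynomial.C (1 / ((s : ℚ) + 1 + 1)) * x) * ((∏ l ∈ Finset.range s, (Polynomial.C (1 / ((l : ℚ) + 1)) * x - 1)) *
          (Polynomial.C (1 / ((s : ℚ) + 1)) * x - Polynomial.C (1 / ((s : ℚ) + 1)) * ((s + 1 : ℕ) : Polynomial ℚ))) := by ring
      _ = _ := by rw [e2]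

lemma choose_mem {L K : ℕ} (hL : ∀ i : ℕ, 1 ≤ i → i ≤ K → i ∣ L) (c : ℤ) {s : ℕ} (hs : s ≤ K) :
    Ring.choose (Polynomial.C (c : ℚ) * Polynomial.X) s ∈ SPo L := by
  rcases s with _ | s
  · rw [choose_zero']
    exact (SPo L).one_mem
  · rw [choose_formula]
    have h1 : ∀ l : ℕ, l + 1 ≤ K → Polynomial.C (1 / ((l : ℚ) + 1)) * (Polynomial.C (c : ℚ) * Polynomial.X) ∈ SPo L := by
      intro l hl
      rw [← mul_assoc, ← Polynomial.C_mul]
      refine SPo_CX ?_
      obtain ⟨b, hb⟩ := hL (l + 1) (by omega) hl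
      refine ⟨b * c, ?_⟩
      rw [hb]
      have : ((l : ℚ) + 1) ≠ 0 := by positivity
      push_cast
      field_simp
    refine (SPo L).mul_mem (h1 s hs) ((SPo L).prod_mem fun l hl => (SPo L).sub_mem (h1 l ?_) (SPo L).one_mem)
    rw [Finset.mem_range] at hl
    omega

lemma choose_mem' {L K : ℕ} (hL : ∀ i : ℕ, 1 ≤ i → i ≤ K → i ∣ L) (k : ℕ) {s : ℕ} (hs : s ≤ K) :
    Ring.choose ((k : Polynomial ℚ) + Polynomial.X) s ∈ SPo L := by
  induction k generalizing s with
  | zero =>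
    have := choose_mem hL 1 hs
    rw [Int.cast_one, map_one, one_mul] at this
    rwa [Nat.cast_zero, zero_add]
  | succ k ih =>
    rcases s with _ | s
    · rw [choose_zero']
      exact (SPo L).one_mem
    · have h1 := Ring.choose_succ_succ ((k : Polynomial ℚ) + Polynomial.X) s
      have h2 : ((k + 1 : ℕ) : Polynomial ℚ) + Polynomial.X = (k : Polynomial ℚ) + Polynomial.X + 1 := by
        push_cast
        ring
      rw [h2, h1]
      exact (SPo L).add_mem (ih (by omega)) (ih hs)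

section
variable {n : ℕ} {N : Matrix (Fin n) (Fin n) ℚ}

lemma choose_aeval (x : Polynomial ℚ) (s : ℕ) : Polynomial.aeval N (Ring.choose x s) = Ring.choose (Polynomial.aeval N x) s :=
  Ring.map_choose (Polynomial.aeval N) x s

/-- common denominators -/
lemma choose_den (hN : N ^ n = 0) : ∃ D : ℕ, 0 < D ∧ ∀ f : Polynomial ℚ, ∀ L : ℕ, f ∈ SPo L → ∀ i j,
    ∃ a : ℤ, ((D * L ^ n : ℕ) : ℚ) * (Polynomial.aeval N f) i j = a := by
  classical
  refine ⟨∏ e ∈ Finset.range n, ∏ p : Fin n × Fin n, ((N ^ e) p.1 p.2).den, Finset.prod_pos fun e _ =>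
    Finset.prod_pos fun p _ => Rat.den_pos _, fun f L hf i j => ?_⟩
  set D : ℕ := ∏ e ∈ Finset.range n, ∏ p : Fin n × Fin n, ((N ^ e) p.1 p.2).den with hD
  have h1 : (Polynomial.aeval N f) i j = ∑ e ∈ Finset.range (f.natDegree + 1), f.coeff e * (N ^ e) i j := by
    rw [Polynomial.aeval_eq_sum_range, Matrix.sum_apply]
    rfl
  rw [h1, Finset.mul_sum]
  have h2 : ∀ e ∈ Finset.range (f.natDegree + 1), ∃ a : ℤ, ((D * L ^ n : ℕ) : ℚ) * (f.coeff e * (N ^ e) i j) = a := by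
    intro e _
    rcases Nat.lt_or_ge e n with he | he
    · obtain ⟨a, ha⟩ := SPo_coeff hf e
      have h3 : ((N ^ e) i j).den ∣ D := by
        have e1 : ((N ^ e) i j).den ∣ ∏ p : Fin n × Fin n, ((N ^ e) p.1 p.2).den :=
          Finset.dvd_prod_of_mem (fun p : Fin n × Fin n => ((N ^ e) p.1 p.2).den) (Finset.mem_univ (i, j))
        exact e1.trans (Finset.dvd_prod_of_mem (fun e => ∏ p : Fin n × Fin n, ((N ^ e) p.1 p.2).den) (Finset.mem_range.2 he))
      obtain ⟨c, hc⟩ := h3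
      refine ⟨(c * ((N ^ e) i j).num) * ((L : ℤ) ^ (n - e) * a), ?_⟩
      have h4 := Rat.mul_den_eq_num ((N ^ e) i j)
      have e3 : (L : ℚ) ^ n = (L : ℚ) ^ (n - e) * (L : ℚ) ^ e := by rw [← pow_add]; congr 1; omega
      rw [hc]
      push_cast
      rw [← ha, ← h4, e3]
      ring
    · rw [pow_eq_zero_of_le he hN]
      exact ⟨0, by simp⟩
  choose! a ha using h2
  refine ⟨∑ e ∈ Finset.range (f.natDegree + 1), a e, ?_⟩
  rw [Int.cast_sum]
  exact Finset.sum_congr rfl ha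

/-- the sizes -/
lemma choose_size (M : Matrix (Fin n) (Fin n) ℚ) : ∃ A : ℝ, ∀ s i j, |((Ring.choose M s i j : ℚ) : ℝ)| ≤ A ^ (s + 1) := by
  obtain ⟨ν, hν0, hν⟩ : ∃ ν : ℝ, 0 ≤ ν ∧ ∀ i j, |((M i j : ℚ) : ℝ)| ≤ ν := by
    refine ⟨∑ p : Fin n × Fin n, |((M p.1 p.2 : ℚ) : ℝ)|, Finset.sum_nonneg fun _ _ => abs_nonneg _, fun i j => ?_⟩
    exact Finset.single_le_sum (f := fun p : Fin n × Fin n => |((M p.1 p.2 : ℚ) : ℝ)|) (fun _ _ => abs_nonneg _)
      (Finset.mem_univ (i, j))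
  set A : ℝ := n * (ν + 1) + 1 with hA
  have hn0 : (0 : ℝ) ≤ n := by positivity
  have hA1 : 1 ≤ A := by
    have : 0 ≤ (n : ℝ) * (ν + 1) := by positivity
    linarith
  refine ⟨A, fun s => ?_⟩
  induction s with
  | zero =>
    intro i j
    rw [choose_zero', Matrix.one_apply]
    split_ifs <;> simp <;> linarith
  | succ s ih =>
    intro i j
    have h1 := congrFun (congrFun (choose_step M s) i) j
    rw [Matrix.smul_apply, Matrix.mul_apply, nsmul_eq_mul] at h1
    have hs : (0 : ℝ) < (s : ℝ) + 1 := by positivity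
    have h2 : ((s : ℝ) + 1) * ((Ring.choose M (s + 1) i j : ℚ) : ℝ) =
        ∑ l, ((Ring.choose M s i l : ℚ) : ℝ) * (((M - (s : Matrix (Fin n) (Fin n) ℚ)) l j : ℚ) : ℝ) := by
      exact_mod_cast h1
    have h3 : ∀ l, |(((M - (s : Matrix (Fin n) (Fin n) ℚ)) l j : ℚ) : ℝ)| ≤ (ν + 1) * ((s : ℝ) + 1) := by
      intro l
      rw [Matrix.sub_apply]
      have e1 : |(((s : Matrix (Fin n) (Fin n) ℚ) l j : ℚ) : ℝ)| ≤ s := by
        rw [← Matrix.diagonal_natCast, Matrix.diagonal_apply]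
        split_ifs
        · simp
        · simp
      push_cast
      refine (abs_sub _ _).trans ?_
      have e2 := hν l j
      have e3 : (0 : ℝ) ≤ s := by positivity
      nlinarith
    have h4 : ((s : ℝ) + 1) * |((Ring.choose M (s + 1) i j : ℚ) : ℝ)| ≤ ((s : ℝ) + 1) * A ^ (s + 1 + 1) := by
      rw [← abs_of_pos hs, ← abs_mul, abs_of_pos hs, h2]
      refine (Finset.abs_sum_le_sum_abs _ _).trans ?_
      calc ∑ l, |((Ring.choose M s i l : ℚ) : ℝ) * (((M - (s : Matrix (Fin n) (Fin n) ℚ)) l j : ℚ) : ℝ)|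
          ≤ ∑ _l : Fin n, A ^ (s + 1) * ((ν + 1) * ((s : ℝ) + 1)) := by
            refine Finset.sum_le_sum fun l _ => ?_
            rw [abs_mul]
            exact mul_le_mul (ih i l) (h3 l) (abs_nonneg _) (by positivity)
        _ = (n * (ν + 1)) * (((s : ℝ) + 1) * A ^ (s + 1)) := by
            rw [Finset.sum_const, Finset.card_univ, Fintype.card_fin, nsmul_eq_mul]
            ring
        _ ≤ A * (((s : ℝ) + 1) * A ^ (s + 1)) := mul_le_mul_of_nonneg_right (by rw [hA]; linarith) (by positivity)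
        _ = _ := by ring
    exact le_of_mul_le_mul_left h4 hs

/-- the entries of the binomial coefficients of `- N` -/
lemma choose_GP (hN : N ^ n = 0) (i j : Fin n) : GP 0 fun s => Polynomial.C (Ring.choose (-N) s i j) := by
  refine GP.const ?_ ?_
  · obtain ⟨A, hA⟩ := choose_size (-N)
    exact ⟨A, fun s => hA s i j⟩
  · obtain ⟨D, hD0, hD⟩ := choose_den hN
    refine ⟨D * (2 ^ 8) ^ n, fun k => ?_⟩
    refine ⟨D * (Nat.lcmUpto k) ^ n, ?_, ?_, fun s hs => ?_⟩
    · have := Nat.lcmUpto_pos k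
      positivity
    · push_cast
      rw [mul_pow]
      have hD1 : (1 : ℝ) ≤ D := by exact_mod_cast hD0
      refine mul_le_mul (le_self_pow₀ hD1 (by omega)) ?_ (by positivity) (by positivity)
      calc ((Nat.lcmUpto k : ℕ) : ℝ) ^ n ≤ ((2 ^ 8) ^ k) ^ n := pow_le_pow_left₀ (by positivity) (lcm_bound k) _
        _ ≤ ((2 ^ 8) ^ n) ^ (k + 1) := by
          have hB : (1 : ℝ) ≤ 2 ^ 8 := one_le_pow₀ (by norm_num)
          generalize ((2 : ℝ) ^ 8) = B at hB ⊢
          rw [← pow_mul, ← pow_mul]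
          exact pow_le_pow_right₀ hB (by nlinarith)
    · have h1 := choose_mem (L := Nat.lcmUpto k) (K := k) (fun i h1 h2 => dvd_lcmUpto h1 h2) (-1) hs
      obtain ⟨a, ha⟩ := hD _ _ h1 i j
      refine ⟨a, ?_⟩
      rw [← ha, choose_aeval]
      have e1 : Polynomial.aeval N (Polynomial.C ((((-1 : ℤ))) : ℚ) * Polynomial.X) = -N := by
        rw [map_mul, Polynomial.aeval_C, Polynomial.aeval_X]
        push_cast
        exact neg_one_mul N
      rw [e1]

end

end Pool.Agent.Y119.HY
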