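import Pool.Agent.Y119.HY.Gal

/-!
# A power series with positive coefficients and radius of convergence one does not extend to a disc around one
-/

set_option autoImplicit false

open Filter Topology

namespace Pool.Agent.Y119.HY

open scoped ComplexOrder

/-- the coefficients of the derivative -/
def dd (c : ℕ → ℂ) (k : ℕ) : ℂ := ((k + 1 : ℕ) : ℂ) * c (k + 1)

lemma PG.dd {c : ℕ → ℂ} (h : PG c) : PG (dd c) := h.nat.shift

lemma deriv_ps {c : ℕ → ℂ} (h : PG c) {z : ℂ} (hz : ‖z‖ < 1) (hz0 : z ≠ 0) : deriv (ps c) z = ps (dd c) z := by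
  have h1 := ps_deriv h hz
  rw [ps_shift h.nat hz] at h1
  simp only [Nat.cast_zero, zero_mul, zero_add] at h1
  exact mul_left_cancel₀ hz0 h1

lemma iter_ps {c : ℕ → ℂ} (h : PG c) (j : ℕ) : PG (dd^[j] c) ∧ ∀ z : ℂ, ‖z‖ < 1 → z ≠ 0 →
    iteratedDeriv j (ps c) z = ps (dd^[j] c) z := by
  induction j with
  | zero => exact ⟨h, fun z _ _ => by rw [iteratedDeriv_zero]; rfl⟩
  | succ j ih =>
    obtain ⟨h1, h2⟩ := ih
    refine ⟨?_, fun z hz hz0 => ?_⟩
    · rw [Function.iterate_succ_apply']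
      exact h1.dd
    · rw [iteratedDeriv_succ, Function.iterate_succ_apply', ← deriv_ps h1 hz hz0]
      refine Filter.EventuallyEq.deriv_eq ?_
      have ho : IsOpen {w : ℂ | ‖w‖ < 1 ∧ w ≠ 0} := (isOpen_lt continuous_norm continuous_const).inter isOpen_ne
      filter_upwards [ho.mem_nhds (show z ∈ {w : ℂ | ‖w‖ < 1 ∧ w ≠ 0} from ⟨hz, hz0⟩)] with w hw
      exact h2 w hw.1 hw.2

lemma iter_nonneg {c : ℕ → ℂ} (h : ∀ k, 0 ≤ c k) (j : ℕ) : ∀ k, 0 ≤ (dd^[j] c) k := by
  induction j with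
  | zero => exact h
  | succ j ih =>
    intro k
    rw [Function.iterate_succ_apply']
    exact mul_nonneg (Nat.cast_nonneg _) (ih (k + 1))

lemma ps_nonneg {c : ℕ → ℂ} (h : ∀ k, 0 ≤ c k) {x : ℝ} (hx : 0 ≤ x) : 0 ≤ ps c (x : ℂ) := by
  unfold ps
  refine tsum_nonneg fun k => mul_nonneg (h k) (pow_nonneg ?_ _)
  exact_mod_cast hx

/-- geometry: the disc of radius `9 / 10` around `3 / 4` -/
lemma geo {z : ℂ} (hz : z ∈ Metric.ball (((3 / 4 : ℝ)) : ℂ) (9 / 10)) (h0 : ¬ ‖z‖ < 1) : z ∈ Metric.ball (1 : ℂ) 1 := by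
  rw [Metric.mem_ball, dist_eq_norm] at hz ⊢
  rw [not_lt] at h0
  have e1 : ‖z - (((3 / 4 : ℝ)) : ℂ)‖ ^ 2 = (z.re - 3 / 4) ^ 2 + z.im ^ 2 := by
    rw [← Complex.normSq_eq_norm_sq, Complex.normSq_apply]
    simp only [Complex.sub_re, Complex.ofReal_re, Complex.sub_im, Complex.ofReal_im, sub_zero]
    ring
  have e2 : ‖z‖ ^ 2 = z.re ^ 2 + z.im ^ 2 := by
    rw [← Complex.normSq_eq_norm_sq, Complex.normSq_apply]
    ring
  have e3 : ‖z - 1‖ ^ 2 = (z.re - 1) ^ 2 + z.im ^ 2 := by
    rw [← Complex.normSq_eq_norm_sq, Complex.normSq_apply]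
    simp only [Complex.sub_re, Complex.one_re, Complex.sub_im, Complex.one_im, sub_zero]
    ring
  have h1 : ‖z - (((3 / 4 : ℝ)) : ℂ)‖ ^ 2 < (9 / 10) ^ 2 := pow_lt_pow_left₀ hz (norm_nonneg _) two_ne_zero
  have h2 : 1 ≤ ‖z‖ ^ 2 := one_le_pow₀ h0
  have h3 : ‖z - 1‖ ^ 2 < 1 ^ 2 := by
    rw [e1] at h1
    rw [e2] at h2
    rw [e3]
    nlinarith
  exact lt_of_pow_lt_pow_left₀ 2 zero_le_one h3

/-- **No extension.** -/
theorem no_ext {a : ℕ → ℝ} (hg : PG fun k => (a k : ℂ)) {K₀ : ℕ} (hpos : ∀ k ≥ K₀, 0 < a k)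
    (hrat : ∀ k ≥ K₀, (9 / 10) * a k ≤ a (k + 1)) {g : ℂ → ℂ} (hga : AnalyticOnNhd ℂ g (Metric.ball 1 1))
    (hext : ∀ z ∈ Lens, ps (fun k => (a k : ℂ)) z = g z) : False := by
  set P : ℕ → ℂ → ℂ := fun K z => ∑ k ∈ Finset.range K, (a k : ℂ) * z ^ k with hP
  -- the truncated series
  have key : ∀ K ≥ K₀, (0 : ℂ) ≤ g (((5 / 4 : ℝ)) : ℂ) - P K (((5 / 4 : ℝ)) : ℂ) := by
    intro K hK
    set c : ℕ → ℂ := fun k => if k < K then 0 else (a k : ℂ) with hc
    have hcg : PG c := by
      obtain ⟨C, p, hC⟩ := hg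
      have hC0 := PG.nonneg hC
      refine ⟨C, p, fun k => ?_⟩
      rw [hc]
      simp only
      split_ifs
      · rw [norm_zero]; positivity
      · exact hC k
    have hcn : ∀ k, 0 ≤ c k := by
      intro k
      rw [hc]
      simp only
      split_ifs with h
      · exact le_rfl
      · exact_mod_cast (hpos k (by omega)).le
    have hcps : ∀ z : ℂ, ‖z‖ < 1 → ps c z = ps (fun k => (a k : ℂ)) z - P K z := by
      intro z hz
      have h1 := (hg.summable' hz).sum_add_tsum_nat_add K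
      have h2 := (hcg.summable' hz).sum_add_tsum_nat_add K
      have h3 : ∑ i ∈ Finset.range K, c i * z ^ i = 0 := Finset.sum_eq_zero fun i hi => by
        rw [hc]
        simp only
        rw [if_pos (Finset.mem_range.1 hi), zero_mul]
      have h4 : ∑' i, c (i + K) * z ^ (i + K) = ∑' i, (a (i + K) : ℂ) * z ^ (i + K) := tsum_congr fun i => by
        rw [hc]
        simp only
        rw [if_neg (by omega)]
      unfold ps
      rw [← h2, h3, zero_add, h4, ← h1, hP]
      ring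
    classical
    set G : ℂ → ℂ := fun z => if ‖z‖ < 1 then ps c z else g z - P K z with hG
    have hPd : Differentiable ℂ (P K) := by
      rw [hP]
      exact Differentiable.fun_sum fun i _ => (differentiable_const _).mul (differentiable_id.pow i)
    have hGd : DifferentiableOn ℂ G (Metric.ball (((3 / 4 : ℝ)) : ℂ) (9 / 10)) := by
      intro z hz
      refine DifferentiableAt.differentiableWithinAt ?_
      by_cases h0 : ‖z‖ < 1
      · have h1 : DifferentiableAt ℂ (ps c) z := ((ps_an hcg) z (by rwa [Metric.mem_ball, dist_zero_right])).differentiableAt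
        refine h1.congr_of_eventuallyEq ?_
        filter_upwards [(isOpen_lt continuous_norm continuous_const).mem_nhds h0] with w hw
        rw [hG]
        simp only
        rw [if_pos hw]
      · have h1 := geo hz h0
        have h2 : DifferentiableAt ℂ (fun z => g z - P K z) z := (hga z h1).differentiableAt.sub (hPd z)
        refine h2.congr_of_eventuallyEq ?_
        filter_upwards [Metric.isOpen_ball.mem_nhds h1] with w hw
        rw [hG]
        simp only
        split_ifs with h3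
        · rw [hcps w h3, hext w ⟨by rwa [Metric.mem_ball, dist_zero_right], hw⟩]
        · rfl
    have hit : ∀ j, 0 ≤ iteratedDeriv j G (((3 / 4 : ℝ)) : ℂ) := by
      intro j
      have e0 : ‖(((3 / 4 : ℝ)) : ℂ)‖ < 1 := by
        rw [Complex.norm_real, Real.norm_of_nonneg (by norm_num)]
        norm_num
      have e1 : (((3 / 4 : ℝ)) : ℂ) ≠ 0 := by
        rw [Ne, Complex.ofReal_eq_zero]
        norm_num
      have h1 : G =ᶠ[𝓝 (((3 / 4 : ℝ)) : ℂ)] ps c := by
        filter_upwards [(isOpen_lt continuous_norm continuous_const).mem_nhds e0] with w hw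
        rw [hG]
        simp only
        rw [if_pos hw]
      rw [h1.iteratedDeriv_eq, (iter_ps hcg j).2 _ e0 e1]
      exact ps_nonneg (iter_nonneg hcn j) (by norm_num)
    have h2 := hGd.nonneg_of_iteratedDeriv_nonneg hit (z := (((5 / 4 : ℝ)) : ℂ)) (by
      rw [Complex.real_le_real]
      norm_num) (by
      rw [Metric.mem_ball, dist_eq_norm, ← Complex.ofReal_sub, Complex.norm_real]
      norm_num)
    rw [hG] at h2
    simp only at h2
    rw [if_neg (by
      rw [Complex.norm_real, Real.norm_of_nonneg (by norm_num)]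
      norm_num)] at h2
    exact h2
  -- the real part
  set p : ℕ → ℝ := fun K => ∑ k ∈ Finset.range K, a k * (5 / 4) ^ k with hp
  have hbd : ∀ K ≥ K₀, p K ≤ (g (((5 / 4 : ℝ)) : ℂ)).re := by
    intro K hK
    have h1 := (Complex.le_def.1 (key K hK)).1
    rw [Complex.zero_re, Complex.sub_re] at h1
    have h2 : P K (((5 / 4 : ℝ)) : ℂ) = ((p K : ℝ) : ℂ) := by
      rw [hP, hp]
      push_cast
      rfl
    rw [h2, Complex.ofReal_re] at h1
    linarith
  have hmono : ∀ K ≥ K₀, p K₀ ≤ p K := by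
    intro K hK
    rw [hp]
    simp only
    rw [← Finset.sum_range_add_sum_Ico _ hK]
    have : 0 ≤ ∑ k ∈ Finset.Ico K₀ K, a k * (5 / 4) ^ k := Finset.sum_nonneg fun k hk => by
      have := hpos k (Finset.mem_Ico.1 hk).1
      positivity
    linarith
  have hbig : Tendsto (fun k : ℕ => a (K₀ + k) * (5 / 4) ^ (K₀ + k)) atTop atTop := by
    refine tendsto_atTop_of_geom_le (c := 9 / 8) ?_ (by norm_num) fun k => ?_
    · have := hpos K₀ le_rfl
      simp only [add_zero]
      positivity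
    · have h1 := hrat (K₀ + k) (by omega)
      have h2 : (0 : ℝ) < (5 / 4) ^ (K₀ + k) := by positivity
      calc (9 / 8) * (a (K₀ + k) * (5 / 4) ^ (K₀ + k)) = ((9 / 10) * a (K₀ + k)) * ((5 / 4) ^ (K₀ + k) * (5 / 4)) := by ring
        _ ≤ a (K₀ + k + 1) * ((5 / 4) ^ (K₀ + k) * (5 / 4)) := mul_le_mul_of_nonneg_right h1 (by positivity)
        _ = a (K₀ + (k + 1)) * (5 / 4) ^ (K₀ + (k + 1)) := by
          rw [← pow_succ, add_assoc]
  obtain ⟨k, hk⟩ := (hbig.eventually_gt_atTop ((g (((5 / 4 : ℝ)) : ℂ)).re - p K₀)).exists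
  have h1 := hbd (K₀ + k + 1) (by omega)
  have h2 := hmono (K₀ + k) (by omega)
  have h3 : p (K₀ + k + 1) = p (K₀ + k) + a (K₀ + k) * (5 / 4) ^ (K₀ + k) := by
    rw [hp]
    simp only
    rw [Finset.sum_range_succ]
  linarith

end Pool.Agent.Y119.HY
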