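import Pool.Agent.Y119.HY.Main
import Pool.Agent.Y119.HY.Prs

/-!
# The hypergeometric system with exponents `0, …, 0` at `0` and symmetric exponents at infinity
-/

set_option autoImplicit false

open Filter Topology Matrix

namespace Pool.Agent.Y119.HY

/-- even polynomials of even degree without roots at the natural numbers -/
structure QD (n : ℕ) (Q : Polynomial ℚ) : Prop where
  two : 2 ≤ n
  even : Even n
  monic : Q.Monic
  deg : Q.natDegree = n
  sym : ∀ j, Odd j → Q.coeff j = 0
  ne : ∀ l : ℕ, Q.eval (l : ℚ) ≠ 0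

/-- the shift -/
def Am (n : ℕ) : Matrix (Fin n) (Fin n) ℚ := Matrix.of fun i j => if (j : ℕ) = i + 1 then 1 else 0

/-- the form -/
noncomputable def Jm (n : ℕ) (Q : Polynomial ℚ) : Matrix (Fin n) (Fin n) ℚ :=
  Matrix.of fun i j => if n ≤ (i : ℕ) + j + 1 then (-1) ^ (i : ℕ) * Q.coeff (i + j + 1 - n) else 0

/-- the last basis vector -/
def um (n : ℕ) : Fin n → ℚ := fun i => if (i : ℕ) + 1 = n then 1 else 0

/-- the last row -/
noncomputable def Bm (n : ℕ) (Q : Polynomial ℚ) : Matrix (Fin n) (Fin n) ℚ :=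
  Matrix.of fun i j => if (i : ℕ) + 1 = n then Q.coeff j else 0

/-- `k + ε` -/
noncomputable def kx (k : ℕ) : PowerSeries ℚ := PowerSeries.C (k : ℚ) + PowerSeries.X

/-- `a_k(ε) = ∏ Q(l + ε) / (l + 1 + ε) ^ n` -/
noncomputable def aq (n : ℕ) (Q : Polynomial ℚ) (k : ℕ) : PowerSeries ℚ :=
  ∏ l ∈ Finset.range k, (Polynomial.aeval (kx l) Q * ((kx (l + 1))⁻¹) ^ n)

/-- the coefficients of the Frobenius solution -/
noncomputable def hq (n : ℕ) (Q : Polynomial ℚ) (k i j : ℕ) : ℚ := PowerSeries.coeff j (kx k ^ i * aq n Q k)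

/-- the same as matrices -/
noncomputable def Hq (n : ℕ) (Q : Polynomial ℚ) (k : ℕ) : Matrix (Fin n) (Fin n) ℚ := Matrix.of fun i j => hq n Q k i j

variable {n : ℕ} {Q : Polynomial ℚ}

lemma kx_succ_mul_inv (l : ℕ) : kx (l + 1) * (kx (l + 1))⁻¹ = 1 := by
  refine PowerSeries.mul_inv_cancel _ ?_
  unfold kx
  simp
  exact_mod_cast Nat.succ_ne_zero l

lemma aq_succ (k : ℕ) : kx (k + 1) ^ n * aq n Q (k + 1) = Polynomial.aeval (kx k) Q * aq n Q k := by
  unfold aq
  rw [Finset.prod_range_succ]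
  have h := kx_succ_mul_inv k
  calc _ = (∏ l ∈ Finset.range k, (Polynomial.aeval (kx l) Q * ((kx (l + 1))⁻¹) ^ n)) * Polynomial.aeval (kx k) Q *
        (kx (k + 1) * (kx (k + 1))⁻¹) ^ n := by ring
    _ = _ := by rw [h, one_pow, mul_one, mul_comm]

lemma Hq_zero : Hq n Q 0 = 1 := by
  ext i j
  unfold Hq hq aq kx
  simp only [Matrix.of_apply, Finset.range_zero, Finset.prod_empty, mul_one, Nat.cast_zero, map_zero, zero_add]
  rw [PowerSeries.coeff_X_pow, Matrix.one_apply]
  by_cases h : i = j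
  · rw [if_pos h, if_pos (by rw [h])]
  · rw [if_neg h, if_neg fun h' => h (Fin.ext h'.symm)]

/-- `(H A) i j` -/
lemma mul_Am (X : Matrix (Fin n) (Fin n) ℚ) (i j : Fin n) :
    (X * Am n) i j = if h : (j : ℕ) = 0 then 0 else X i ⟨j - 1, by omega⟩ := by
  rw [Matrix.mul_apply]
  unfold Am
  simp only [Matrix.of_apply, mul_ite, mul_one, mul_zero]
  split_ifs with h
  · exact Finset.sum_eq_zero fun x _ => if_neg (by omega)
  · rw [Finset.sum_eq_single ⟨(j : ℕ) - 1, by omega⟩]
    · rw [if_pos]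
      simp only
      omega
    · intro b _ hb
      rw [if_neg]
      intro h'
      exact hb (Fin.ext (by simp only; omega))
    · intro h'
      exact absurd (Finset.mem_univ _) h'

lemma Am_mul (X : Matrix (Fin n) (Fin n) ℚ) (i j : Fin n) :
    (Am n * X) i j = if h : (i : ℕ) + 1 < n then X ⟨i + 1, h⟩ j else 0 := by
  rw [Matrix.mul_apply]
  unfold Am
  simp only [Matrix.of_apply, ite_mul, one_mul, zero_mul]
  split_ifs with h
  · rw [Finset.sum_eq_single ⟨(i : ℕ) + 1, h⟩]
    · rw [if_pos rfl]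
    · intro b _ hb
      rw [if_neg]
      intro h'
      exact hb (Fin.ext h')
    · intro h'
      exact absurd (Finset.mem_univ _) h'
  · exact Finset.sum_eq_zero fun x _ => if_neg (by have := x.2; omega)

lemma coeff_kx_mul (k j : ℕ) (f : PowerSeries ℚ) : PowerSeries.coeff j (kx k * f) =
    (k : ℚ) * PowerSeries.coeff j f + if j = 0 then 0 else PowerSeries.coeff (j - 1) f := by
  unfold kx
  rw [add_mul, map_add, PowerSeries.coeff_C_mul]
  congr 1
  rcases j with _ | j
  · simp
  · rw [PowerSeries.coeff_succ_X_mul]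
    simp

/-- `k H + H A` -/
lemma lin_eq (k : ℕ) (i j : Fin n) : (k : ℚ) * Hq n Q k i j + (Hq n Q k * Am n) i j =
    PowerSeries.coeff (j : ℕ) (kx k ^ ((i : ℕ) + 1) * aq n Q k) := by
  rw [mul_Am, pow_succ', mul_assoc, coeff_kx_mul]
  congr 1

lemma Bm_mul (k : ℕ) (hQ : QD n Q) (i j : Fin n) : (Bm n Q * Hq n Q k) i j = if (i : ℕ) + 1 = n then
    PowerSeries.coeff (j : ℕ) (Polynomial.aeval (kx k) Q * aq n Q k) -
      PowerSeries.coeff (j : ℕ) (kx k ^ n * aq n Q k) else 0 := by
  rw [Matrix.mul_apply]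
  unfold Bm
  simp only [Matrix.of_apply, ite_mul, zero_mul]
  split_ifs with h
  · have h1 : Polynomial.aeval (kx k) Q = ∑ l ∈ Finset.range n, PowerSeries.C (Q.coeff l) * kx k ^ l + kx k ^ n := by
      rw [Polynomial.aeval_eq_sum_range, hQ.deg, Finset.sum_range_succ]
      have h2 : Q.coeff n = 1 := by
        rw [← hQ.deg]
        exact hQ.monic.coeff_natDegree
      rw [h2, one_smul]
      congr 1
      refine Finset.sum_congr rfl fun l _ => ?_
      rw [PowerSeries.smul_eq_C_mul]
    rw [h1, add_mul, map_add, add_sub_cancel_right, Finset.sum_mul, map_sum, Finset.sum_range]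
    refine Finset.sum_congr rfl fun l _ => ?_
    rw [mul_assoc, PowerSeries.coeff_C_mul]
    rfl
  · exact Finset.sum_const_zero

theorem step_q (hQ : QD n Q) (k : ℕ) (i j : Fin n) :
    ((k : ℚ) + 1) * Hq n Q (k + 1) i j + ((Hq n Q (k + 1) * Am n) i j - (Am n * Hq n Q (k + 1)) i j) =
    (k : ℚ) * Hq n Q k i j + ((Hq n Q k * Am n) i j - (Am n * Hq n Q k) i j) + (Bm n Q * Hq n Q k) i j := by
  have e1 := lin_eq (n := n) (Q := Q) (k + 1) i j
  have e2 := lin_eq (n := n) (Q := Q) k i j
  push_cast at e1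
  rw [add_sub_assoc', add_sub_assoc', e1, e2, Am_mul, Am_mul, Bm_mul k hQ]
  by_cases h : (i : ℕ) + 1 < n
  · rw [dif_pos h, dif_pos h, if_neg (by omega)]
    unfold Hq hq
    simp only [Matrix.of_apply, sub_self, add_zero]
  · have h' : (i : ℕ) + 1 = n := by have := i.2; omega
    rw [dif_neg h, dif_neg h, if_pos h', h', sub_zero, sub_zero, add_sub_cancel, aq_succ]

/-! ### the form -/

lemma Jm_rel : (Am n).transpose * Jm n Q + Jm n Q * Am n = 0 := by
  ext i j
  rw [Matrix.add_apply, Matrix.zero_apply, mul_Am]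
  have h1 : ((Am n).transpose * Jm n Q) i j = if h : (i : ℕ) = 0 then 0 else Jm n Q ⟨i - 1, by omega⟩ j := by
    rw [Matrix.mul_apply]
    simp only [Matrix.transpose_apply]
    unfold Am
    simp only [Matrix.of_apply, ite_mul, one_mul, zero_mul]
    split_ifs with h
    · exact Finset.sum_eq_zero fun x _ => if_neg (by omega)
    · rw [Finset.sum_eq_single ⟨(i : ℕ) - 1, by omega⟩]
      · rw [if_pos]
        simp only
        omega
      · intro b _ hb
        rw [if_neg]
        intro h'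
        exact hb (Fin.ext (by simp only; omega))
      · intro h'
        exact absurd (Finset.mem_univ _) h'
  rw [h1]
  have hi := i.2
  have hj := j.2
  unfold Jm
  simp only [Matrix.of_apply]
  rcases Nat.eq_zero_or_pos (i : ℕ) with hi0 | hi0
  · rw [dif_pos hi0, zero_add]
    split_ifs with h2 h3
    · rfl
    · omega
    · rfl
  · rw [dif_neg (by omega)]
    split_ifs with h2 h3 h4 h5
    · omega
    · have e1 : (i : ℕ) - 1 + j + 1 - n = i + (j - 1) + 1 - n := by omega
      rw [e1]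
      obtain ⟨r, hr⟩ := Nat.exists_eq_succ_of_ne_zero (by omega : (i : ℕ) ≠ 0)
      rw [hr]
      simp only [Nat.succ_eq_add_one, Nat.add_sub_cancel, pow_succ]
      ring
    · omega
    · simp
    · omega
    · simp

lemma Jm_skew (hQ : QD n Q) : (Jm n Q).transpose = -Jm n Q := by
  ext i j
  rw [Matrix.transpose_apply, Matrix.neg_apply]
  unfold Jm
  simp only [Matrix.of_apply]
  by_cases h : n ≤ (i : ℕ) + j + 1
  · rw [if_pos h, if_pos (by omega)]
    have e1 : (j : ℕ) + i + 1 - n = i + j + 1 - n := by omega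
    rw [e1]
    rcases Nat.even_or_odd ((i : ℕ) + j + 1 - n) with h2 | h2
    · have h3 : Odd ((i : ℕ) + j) := by
        obtain ⟨a, ha⟩ := h2
        obtain ⟨b, hb⟩ := hQ.even
        have := hQ.two
        exact ⟨a + b - 1, by omega⟩
      have h4 : (-1 : ℚ) ^ (i : ℕ) * (-1) ^ (j : ℕ) = -1 := by rw [← pow_add, h3.neg_one_pow]
      have h5 : (-1 : ℚ) ^ (i : ℕ) * (-1) ^ (i : ℕ) = 1 := by rw [← pow_add, Even.neg_one_pow ⟨_, rfl⟩]
      have h6 : (-1 : ℚ) ^ (j : ℕ) = -(-1) ^ (i : ℕ) := by linear_combination (-1 : ℚ) ^ (i : ℕ) * h4 - (-1 : ℚ) ^ (j : ℕ) * h5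
      rw [h6]
      ring
    · rw [hQ.sym _ h2]
      simp
  · rw [if_neg h, if_neg (by omega)]
    simp

lemma Bm_eq (hQ : QD n Q) : Bm n Q = -vecMulVec (um n) (um n ᵥ* Jm n Q) := by
  ext i j
  rw [Matrix.neg_apply, vecMulVec_apply]
  have h1 : (um n ᵥ* Jm n Q) j = -Q.coeff j := by
    unfold Matrix.vecMul dotProduct um
    simp only [ite_mul, one_mul, zero_mul]
    have hn := hQ.two
    rw [Finset.sum_eq_single ⟨n - 1, by omega⟩]
    · rw [if_pos (by simp only; omega)]
      unfold Jm
      simp only [Matrix.of_apply]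
      rw [if_pos (by omega)]
      have h2 : Odd (n - 1) := by
        obtain ⟨b, hb⟩ := hQ.even
        exact ⟨b - 1, by omega⟩
      rw [h2.neg_one_pow]
      have e1 : n - 1 + (j : ℕ) + 1 - n = j := by omega
      rw [e1]
      ring
    · intro b _ hb
      rw [if_neg]
      intro h'
      exact hb (Fin.ext (by simp only; omega))
    · intro h'
      exact absurd (Finset.mem_univ _) h'
  rw [h1]
  unfold Bm um
  simp only [Matrix.of_apply]
  split_ifs <;> ring

lemma Jm_det (hQ : QD n Q) : (Jm n Q).det ≠ 0 := by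
  have h1 := Matrix.det_permute' (Fin.revPerm : Equiv.Perm (Fin n)) (Jm n Q)
  have h2 : ((Jm n Q).submatrix id (Fin.revPerm : Equiv.Perm (Fin n))).det = ∏ i : Fin n, ((-1) ^ (i : ℕ) * Q.coeff 0) := by
    rw [Matrix.det_of_isLowerTriangular]
    · refine Finset.prod_congr rfl fun i _ => ?_
      rw [Matrix.submatrix_apply]
      unfold Jm
      simp only [Matrix.of_apply, id, Fin.revPerm_apply, Fin.val_rev]
      have := i.2
      rw [if_pos (by omega)]
      congr 2
      omega
    · intro i j hij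
      have hij' : (i : ℕ) < j := hij
      rw [Matrix.submatrix_apply]
      unfold Jm
      simp only [Matrix.of_apply, id, Fin.revPerm_apply, Fin.val_rev]
      have := j.2
      rw [if_neg (by omega)]
  have h3 : ((Jm n Q).submatrix id (Fin.revPerm : Equiv.Perm (Fin n))).det ≠ 0 := by
    rw [h2]
    refine Finset.prod_ne_zero_iff.2 fun i _ => mul_ne_zero (pow_ne_zero _ (by norm_num)) ?_
    have := hQ.ne 0
    rwa [Nat.cast_zero, ← Polynomial.coeff_zero_eq_eval_zero] at this
  intro h0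
  rw [h0, mul_zero] at h1
  exact h3 h1

lemma Am_pow (k : ℕ) (i j : Fin n) : (Am n ^ k) i j = if (j : ℕ) = i + k then 1 else 0 := by
  induction k generalizing i with
  | zero =>
    rw [pow_zero, Matrix.one_apply]
    by_cases h : i = j
    · rw [if_pos h, if_pos (by rw [h]; omega)]
    · rw [if_neg h, if_neg fun h' => h (Fin.ext (by omega))]
  | succ k ih =>
    rw [pow_succ', Am_mul]
    split_ifs with h h2 h2
    · rw [ih, if_pos (by simp only; omega)]
    · rw [ih, if_neg (by simp only; omega)]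
    · have := j.2
      omega
    · rfl

lemma Am_nil : Am n ^ n = 0 := by
  ext i j
  rw [Am_pow, if_neg (by have := j.2; omega), Matrix.zero_apply]

end Pool.Agent.Y119.HY
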