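import Pool.Agent.Y119.HY.Data

/-!
# The hypergeometric system: the relations between the solutions are invariant under the symplectic group
-/

set_option autoImplicit false

open Filter Topology Matrix

namespace Pool.Agent.Y119.HY

variable {n : ℕ} {Q : Polynomial ℚ}

lemma mv_apply (M : Matrix (Fin n) (Fin n) ℂ) (v : Fin n → ℂ) (i : Fin n) : (M *ᵥ v) i = ∑ j, M i j * v j := rfl

/-- complexification -/
noncomputable def cm (M : Matrix (Fin n) (Fin n) ℚ) : Matrix (Fin n) (Fin n) ℂ := (algebraMap ℚ ℂ).mapMatrix M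

lemma cm_apply (M : Matrix (Fin n) (Fin n) ℚ) (i j : Fin n) : cm M i j = ((M i j : ℚ) : ℂ) := rfl

lemma cm_transpose (M : Matrix (Fin n) (Fin n) ℚ) : cm M.transpose = (cm M).transpose := rfl

lemma cm_mul (M N : Matrix (Fin n) (Fin n) ℚ) : cm (M * N) = cm M * cm N := map_mul _ _ _
lemma cm_add (M N : Matrix (Fin n) (Fin n) ℚ) : cm (M + N) = cm M + cm N := map_add _ _ _
lemma cm_neg (M : Matrix (Fin n) (Fin n) ℚ) : cm (-M) = -cm M := map_neg _ _
lemma cm_zero : cm (0 : Matrix (Fin n) (Fin n) ℚ) = 0 := map_zero _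
lemma cm_one : cm (1 : Matrix (Fin n) (Fin n) ℚ) = 1 := map_one _
lemma cm_pow (M : Matrix (Fin n) (Fin n) ℚ) (k : ℕ) : cm (M ^ k) = cm M ^ k := map_pow _ _ _

/-- the holomorphic part of the solution -/
noncomputable def Hc (n : ℕ) (Q : Polynomial ℚ) (k : ℕ) : Matrix (Fin n) (Fin n) ℂ := cm (Hq n Q k)

/-- the last vector -/
def uc (n : ℕ) : Fin n → ℂ := fun i => if (i : ℕ) + 1 = n then 1 else 0

/-- the first vector -/
def ec (n : ℕ) : Fin n → ℂ := fun i => if (i : ℕ) = 0 then 1 else 0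

lemma cm_vec (u v : Fin n → ℚ) : cm (vecMulVec u v) = vecMulVec (fun i => (u i : ℂ)) (fun i => (v i : ℂ)) := by
  ext i j
  rw [cm_apply, vecMulVec_apply, vecMulVec_apply, Rat.cast_mul]

lemma uc_eq (n : ℕ) : uc n = fun i => ((um n i : ℚ) : ℂ) := by
  funext i
  unfold uc um
  split_ifs <;> simp

lemma cm_Bm (hQ : QD n Q) : cm (Bm n Q) = -vecMulVec (uc n) (uc n ᵥ* cm (Jm n Q)) := by
  rw [Bm_eq hQ, cm_neg, cm_vec, uc_eq]
  congr 2
  funext j
  unfold Matrix.vecMul dotProduct
  push_cast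
  rfl

lemma sol_c (hQ : QD n Q) : Sol (cm (Am n)) (cm (Bm n Q)) (Hc n Q) := by
  refine ⟨?_, fun k => ?_⟩
  · unfold Hc
    rw [Hq_zero, cm_one]
  · ext i j
    have h := step_q hQ k i j
    unfold Hc
    rw [← cm_mul, ← cm_mul, ← cm_mul, ← cm_mul, ← cm_mul]
    simp only [Matrix.add_apply, Matrix.smul_apply, Matrix.sub_apply, smul_eq_mul, cm_apply]
    exact_mod_cast h

lemma Jc_skew (hQ : QD n Q) : (cm (Jm n Q)).transpose = -cm (Jm n Q) := by
  rw [← cm_transpose, Jm_skew hQ, cm_neg]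

lemma Jc_det (hQ : QD n Q) : (cm (Jm n Q)).det ≠ 0 := by
  have h : (cm (Jm n Q)).det = algebraMap ℚ ℂ (Jm n Q).det := (RingHom.map_det _ _).symm
  rw [h]
  exact (map_ne_zero _).2 (Jm_det hQ)

lemma Jc_rel : (cm (Am n)).transpose * cm (Jm n Q) + cm (Jm n Q) * cm (Am n) = 0 := by
  rw [← cm_transpose, ← cm_mul, ← cm_mul, ← cm_add, Jm_rel, cm_zero]

lemma Ac_nil : cm (Am n) ^ n = 0 := by rw [← cm_pow, Am_nil, cm_zero]

lemma Ac_ec (n : ℕ) : cm (Am n) *ᵥ ec n = 0 := by
  funext i
  rw [mv_apply]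
  unfold ec
  refine Finset.sum_eq_zero fun j _ => ?_
  split_ifs with h
  · rw [cm_apply]
    unfold Am
    simp only [Matrix.of_apply]
    rw [if_neg (by omega)]
    simp
  · simp

/-- `A ^ (n - 1) v = v_last e` -/
lemma Ac_last (hn : 2 ≤ n) (v : Fin n → ℂ) : (cm (Am n) ^ (n - 1)) *ᵥ v = (v ⟨n - 1, by omega⟩) • ec n := by
  funext i
  rw [← cm_pow, mv_apply]
  unfold ec
  rw [Finset.sum_eq_single ⟨n - 1, by omega⟩]
  · rw [cm_apply, Am_pow]
    simp only [Pi.smul_apply, smul_eq_mul]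
    by_cases h : (i : ℕ) = 0
    · rw [if_pos (by omega), if_pos h]
      simp
    · rw [if_neg (by omega), if_neg h]
      simp
  · intro b _ hb
    rw [cm_apply, Am_pow, if_neg]
    · simp
    · intro h'
      refine hb (Fin.ext ?_)
      have := b.2
      simp only
      omega
  · intro h'
    exact absurd (Finset.mem_univ _) h'

lemma om_ec (hQ : QD n Q) (v : Fin n → ℂ) : om (cm (Jm n Q)) v (ec n) = v ⟨n - 1, by have := hQ.two; omega⟩ * (-(Q.coeff 0 : ℂ)) := by
  have hn := hQ.two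
  have h1 : ∀ i, (cm (Jm n Q) *ᵥ ec n) i = if (i : ℕ) + 1 = n then -(Q.coeff 0 : ℂ) else 0 := by
    intro i
    rw [mv_apply]
    unfold ec
    rw [Finset.sum_eq_single ⟨0, by omega⟩]
    · rw [if_pos rfl, mul_one, cm_apply]
      unfold Jm
      simp only [Matrix.of_apply]
      have hi := i.2
      by_cases h : (i : ℕ) + 1 = n
      · rw [if_pos (by omega), if_pos h]
        have h2 : Odd (i : ℕ) := by
          obtain ⟨b, hb⟩ := hQ.even
          exact ⟨b - 1, by omega⟩
        rw [h2.neg_one_pow]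
        have e1 : (i : ℕ) + 0 + 1 - n = 0 := by omega
        rw [e1]
        simp
      · rw [if_neg (by omega), if_neg h]
        simp
    · intro b _ hb
      rw [if_neg, mul_zero]
      intro h'
      exact hb (Fin.ext h')
    · intro h'
      exact absurd (Finset.mem_univ _) h'
  unfold om
  rw [dotProduct, Finset.sum_eq_single ⟨n - 1, by omega⟩]
  · rw [h1, if_pos (by simp only; omega)]
  · intro b _ hb
    rw [h1, if_neg, mul_zero]
    intro h'
    exact hb (Fin.ext (by simp only; omega))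
  · intro h'
    exact absurd (Finset.mem_univ _) h'

/-! ### the singularity at one -/

/-- the leading coefficients -/
noncomputable def a0 (n : ℕ) (Q : Polynomial ℚ) (k : ℕ) : ℚ := PowerSeries.constantCoeff (aq n Q k)

lemma const_inv (l : ℕ) : PowerSeries.constantCoeff ((kx (l + 1))⁻¹) = 1 / ((l : ℚ) + 1) := by
  rw [PowerSeries.constantCoeff_inv]
  unfold kx
  simp

lemma const_aeval (l : ℕ) (P : Polynomial ℚ) : PowerSeries.constantCoeff (Polynomial.aeval (kx l) P) = P.eval (l : ℚ) := by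
  rw [Polynomial.aeval_def, Polynomial.hom_eval₂]
  have h1 : (PowerSeries.constantCoeff : PowerSeries ℚ →+* ℚ).comp (algebraMap ℚ (PowerSeries ℚ)) = RingHom.id ℚ := by
    refine RingHom.ext fun x => ?_
    show PowerSeries.constantCoeff (PowerSeries.C x) = x
    simp
  have h2 : PowerSeries.constantCoeff (kx l) = (l : ℚ) := by
    unfold kx
    simp
  rw [h1, h2]
  rfl

lemma a0_succ (k : ℕ) : a0 n Q (k + 1) = a0 n Q k * (Q.eval (k : ℚ) / ((k : ℚ) + 1) ^ n) := by
  unfold a0 aq
  rw [Finset.prod_range_succ, map_mul, map_mul, map_pow, const_inv, const_aeval]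
  congr 1
  rw [one_div, inv_pow]
  rfl

lemma a0_ne (hQ : QD n Q) (k : ℕ) : a0 n Q k ≠ 0 := by
  induction k with
  | zero =>
    unfold a0 aq
    simp
  | succ k ih =>
    rw [a0_succ]
    refine mul_ne_zero ih (div_ne_zero (hQ.ne k) (pow_ne_zero _ ?_))
    exact_mod_cast Nat.succ_ne_zero k

lemma ratio (hQ : QD n Q) : Tendsto (fun k : ℕ => (((Q.eval (k : ℚ) / ((k : ℚ) + 1) ^ n : ℚ)) : ℝ)) atTop (𝓝 1) := by
  set P : Polynomial ℝ := Q.map (algebraMap ℚ ℝ) with hP
  set R : Polynomial ℝ := (Polynomial.X + Polynomial.C 1) ^ n with hR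
  have hRm : R.Monic := (Polynomial.monic_X_add_C (1 : ℝ)).pow n
  have hPm : P.Monic := hQ.monic.map _
  have hdeg : P.degree = R.degree := by
    rw [Polynomial.degree_eq_natDegree hPm.ne_zero, Polynomial.degree_eq_natDegree hRm.ne_zero, hP,
      Polynomial.natDegree_map, hQ.deg, hR, Polynomial.natDegree_pow, Polynomial.natDegree_X_add_C, mul_one]
  have h1 := Polynomial.div_tendsto_atTop_leadingCoeff_div_of_degree_eq P R hdeg
  rw [hPm.leadingCoeff, hRm.leadingCoeff, div_one] at h1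
  have h2 := h1.comp (tendsto_natCast_atTop_atTop (R := ℝ))
  refine h2.congr fun k => ?_
  simp only [Function.comp]
  rw [hR, Polynomial.eval_pow, Polynomial.eval_add, Polynomial.eval_X, Polynomial.eval_C, hP]
  push_cast
  congr 1
  rw [Polynomial.eval_map, ← Polynomial.aeval_def]
  have := Polynomial.aeval_algebraMap_apply ℝ (k : ℚ) Q
  simp only [map_natCast] at this
  rw [this, Polynomial.aeval_def]
  rfl

/-- the first solution is singular at one -/
lemma sing (hQ : QD n Q) (g : ℂ → ℂ) (hg : AnalyticOnNhd ℂ g (Metric.ball 1 1))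
    (hext : ∀ z ∈ Lens, (Hf (Hc n Q) z *ᵥ ec n) ⟨0, by have := hQ.two; omega⟩ = g z) : False := by
  have hn := hQ.two
  have e1 : ∀ z, (Hf (Hc n Q) z *ᵥ ec n) ⟨0, by omega⟩ = ps (fun k => (((a0 n Q k : ℚ) : ℝ) : ℂ)) z := by
    intro z
    rw [mv_apply]
    unfold ec
    rw [Finset.sum_eq_single ⟨0, by omega⟩]
    · rw [if_pos rfl, mul_one]
      unfold Hf
      rw [Matrix.of_apply]
      congr 1
      funext k
      unfold Hc
      rw [cm_apply]
      unfold Hq hq a0
      rw [Matrix.of_apply]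
      simp
    · intro b _ hb
      rw [if_neg, mul_zero]
      intro h'
      exact hb (Fin.ext h')
    · intro h'
      exact absurd (Finset.mem_univ _) h'
  have hpg : PG fun k => (((a0 n Q k : ℚ) : ℝ) : ℂ) := by
    have h := (sol_c hQ).growth Ac_nil ⟨0, by omega⟩ ⟨0, by omega⟩
    refine (congrArg PG ?_).mp h
    funext k
    unfold Hc
    rw [cm_apply]
    unfold Hq hq a0
    rw [Matrix.of_apply]
    simp
  obtain ⟨K₀, hK₀⟩ := Filter.eventually_atTop.1 ((ratio hQ).eventually (lt_mem_nhds (show (9 / 10 : ℝ) < 1 by norm_num)))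
  have hstep : ∀ k, ((a0 n Q (k + 1) : ℚ) : ℝ) = ((a0 n Q k : ℚ) : ℝ) * ((Q.eval (k : ℚ) / ((k : ℚ) + 1) ^ n : ℚ) : ℝ) := by
    intro k
    rw [a0_succ]
    push_cast
    rfl
  rcases lt_or_gt_of_ne (a0_ne hQ K₀) with h0 | h0
  · -- negative
    have hpos : ∀ k ≥ K₀, ((a0 n Q k : ℚ) : ℝ) < 0 := by
      intro k hk
      induction k, hk using Nat.le_induction with
      | base => exact_mod_cast h0
      | succ k hk ih =>
        rw [hstep]
        exact mul_neg_of_neg_of_pos ih (by linarith [hK₀ k hk])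
    refine no_ext (a := fun k => -((a0 n Q k : ℚ) : ℝ)) (K₀ := K₀) ?_ (fun k hk => by linarith [hpos k hk]) (fun k hk => ?_)
      (g := fun z => -g z) hg.neg fun z hz => ?_
    · have := hpg.smul (-1)
      refine (congrArg PG ?_).mp this
      funext k
      push_cast
      ring
    · rw [hstep]
      nlinarith [hpos k hk, hK₀ k hk]
    · rw [← hext z hz, e1 z]
      have := ps_smul (c := fun k => (((a0 n Q k : ℚ) : ℝ) : ℂ)) (-1) z
      rw [neg_one_mul] at this
      rw [← this]
      congr 1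
      funext k
      push_cast
      ring
  · have hpos : ∀ k ≥ K₀, 0 < ((a0 n Q k : ℚ) : ℝ) := by
      intro k hk
      induction k, hk using Nat.le_induction with
      | base => exact_mod_cast h0
      | succ k hk ih =>
        rw [hstep]
        exact mul_pos ih (by linarith [hK₀ k hk])
    refine no_ext hpg hpos (fun k hk => ?_) hg fun z hz => ?_
    · rw [hstep]
      nlinarith [hpos k hk, hK₀ k hk]
    · rw [← hext z hz, e1 z]

/-- **The relations between the solutions of the hypergeometric system are invariant under the symplectic group.** -/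
theorem hyp_invar (hQ : QD n Q) (g : Matrix (Fin n) (Fin n) ℂ)
    (hg : g.transpose * cm (Jm n Q) * g = cm (Jm n Q)) : g ∈ Gal (Yf (cm (Am n)) (Hc n Q)) := by
  have hn := hQ.two
  have hs := sol_c hQ
  rw [cm_Bm hQ] at hs
  refine invar hn (Jc_skew hQ) (Jc_det hQ) Ac_nil Jc_rel hs (Ac_ec n) (fun v hv => ?_) ⟨0, by omega⟩ (fun g hg hext =>
    sing hQ g hg hext) g hg
  have h1 := hv
  rw [om_ec hQ] at h1
  rw [Ac_last hn, om_smul]
  exact mul_ne_zero (left_ne_zero_of_mul h1) hv

end Pool.Agent.Y119.HY
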