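import Pool.Agent.Y119.HY.GalL

/-!
# The hypergeometric system: formal differential equation, the inverse matrix, and the G-system
-/

set_option autoImplicit false

open PowerSeries

namespace Pool.Agent.Y119.HZ

open Pool.Agent.Y113 hiding Bm
open Pool.Agent.Y119.HY (QD Am Jm Bm Hq hq hps Hq_zero step_q Jm_rel Jm_det Am_nil mul_Am QB cm)

variable {n : ℕ} {Q : Polynomial ℚ}

/-- the holomorphic part as a matrix of power series -/
noncomputable def Hp (n : ℕ) (Q : Polynomial ℚ) : Matrix (Fin n) (Fin n) ℚ⟦X⟧ := Matrix.of fun i j => hps n Q i j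

/-- constant matrices -/
noncomputable def km (M : Matrix (Fin n) (Fin n) ℚ) : Matrix (Fin n) (Fin n) ℚ⟦X⟧ := (C (R := ℚ)).mapMatrix M

lemma km_apply (M : Matrix (Fin n) (Fin n) ℚ) (i j : Fin n) : km M i j = C (M i j) := rfl

lemma cf_Hp (k : ℕ) : cf (Hp n Q) k = Hq n Q k := by
  ext i j
  unfold cf Hp hps
  rw [Matrix.map_apply, Matrix.of_apply, coeff_mk]
  rfl

lemma cf_km_mul (M : Matrix (Fin n) (Fin n) ℚ) (Z : Matrix (Fin n) (Fin n) ℚ⟦X⟧) (k : ℕ) : cf (km M * Z) k = M * cf Z k := by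
  ext i j
  unfold cf
  rw [Matrix.map_apply, Matrix.mul_apply, Matrix.mul_apply, map_sum]
  refine Finset.sum_congr rfl fun l _ => ?_
  rw [km_apply, coeff_C_mul, Matrix.map_apply]

lemma cf_mul_km (M : Matrix (Fin n) (Fin n) ℚ) (Z : Matrix (Fin n) (Fin n) ℚ⟦X⟧) (k : ℕ) : cf (Z * km M) k = cf Z k * M := by
  ext i j
  unfold cf
  rw [Matrix.map_apply, Matrix.mul_apply, Matrix.mul_apply, map_sum]
  refine Finset.sum_congr rfl fun l _ => ?_
  rw [km_apply, mul_comm, coeff_C_mul, Matrix.map_apply, mul_comm]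

/-- `X d/dX` entrywise -/
noncomputable def th (M : Matrix (Fin n) (Fin n) ℚ⟦X⟧) : Matrix (Fin n) (Fin n) ℚ⟦X⟧ := Matrix.of fun i j => X * d⁄dX ℚ (M i j)

lemma th_mul (M N : Matrix (Fin n) (Fin n) ℚ⟦X⟧) : th (M * N) = th M * N + M * th N := by
  ext1 i j
  unfold th
  rw [Matrix.of_apply, Matrix.add_apply, Matrix.mul_apply, Matrix.mul_apply, Matrix.mul_apply, map_sum, Finset.mul_sum,
    ← Finset.sum_add_distrib]
  refine Finset.sum_congr rfl fun l _ => ?_
  rw [(d⁄dX ℚ).leibniz, Matrix.of_apply, Matrix.of_apply]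
  simp only [smul_eq_mul]
  ring

lemma th_transpose (M : Matrix (Fin n) (Fin n) ℚ⟦X⟧) : th M.transpose = (th M).transpose := rfl

lemma th_km (M : Matrix (Fin n) (Fin n) ℚ) : th (km M) = 0 := by
  ext1 i j
  unfold th
  rw [Matrix.of_apply, km_apply, PowerSeries.derivative_C, mul_zero]
  rfl

lemma cf_th (M : Matrix (Fin n) (Fin n) ℚ⟦X⟧) (k : ℕ) : cf (th M) k = (k : ℚ) • cf M k := by
  ext i j
  unfold cf th
  rw [Matrix.map_apply, Matrix.of_apply, coeff_X_deriv, Matrix.smul_apply, Matrix.map_apply, smul_eq_mul]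

lemma cf_ext {M N : Matrix (Fin n) (Fin n) ℚ⟦X⟧} (h : ∀ k, cf M k = cf N k) : M = N := by
  ext i j k
  exact congrFun (congrFun (h k) i) j

/-- the system at the origin -/
theorem ode_Hp (hQ : QD n Q) : (1 - X : ℚ⟦X⟧) • (th (Hp n Q) + Hp n Q * km (Am n)) =
    ((1 - X : ℚ⟦X⟧) • km (Am n) + (X : ℚ⟦X⟧) • km (Bm n Q)) * Hp n Q := by
  have hS : (1 - X : ℚ⟦X⟧) • (th (Hp n Q) + Hp n Q * km (Am n) - km (Am n) * Hp n Q) = (X : ℚ⟦X⟧) • (km (Bm n Q) * Hp n Q) := by
    have hc : ∀ k, cf (th (Hp n Q) + Hp n Q * km (Am n) - km (Am n) * Hp n Q) k =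
        (k : ℚ) • Hq n Q k + (Hq n Q k * Am n - Am n * Hq n Q k) := by
      intro k
      have h1 : cf (th (Hp n Q) + Hp n Q * km (Am n) - km (Am n) * Hp n Q) k =
          cf (th (Hp n Q)) k + cf (Hp n Q * km (Am n)) k - cf (km (Am n) * Hp n Q) k := by
        ext i j
        unfold cf
        simp only [Matrix.map_apply, Matrix.sub_apply, Matrix.add_apply, map_sub, map_add]
      rw [h1, cf_th, cf_mul_km, cf_km_mul, cf_Hp, add_sub_assoc]
    ext i j k
    rw [Matrix.smul_apply, Matrix.smul_apply, smul_eq_mul, smul_eq_mul, sub_mul, one_mul, map_sub]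
    have h2 : ∀ k, coeff k ((th (Hp n Q) + Hp n Q * km (Am n) - km (Am n) * Hp n Q) i j) =
        ((k : ℚ) • Hq n Q k + (Hq n Q k * Am n - Am n * Hq n Q k)) i j := fun k => congrFun (congrFun (hc k) i) j
    have h3 : ∀ k, coeff k ((km (Bm n Q) * Hp n Q) i j) = (Bm n Q * Hq n Q k) i j := by
      intro k
      have := congrFun (congrFun (cf_km_mul (Bm n Q) (Hp n Q) k) i) j
      rw [cf_Hp] at this
      exact this
    rcases k with _ | k
    · rw [coeff_zero_X_mul, coeff_zero_X_mul, h2, Hq_zero]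
      simp
    · rw [coeff_succ_X_mul, coeff_succ_X_mul, h2, h2, h3]
      have h4 := step_q hQ k i j
      simp only [Matrix.add_apply, Matrix.smul_apply, Matrix.sub_apply, smul_eq_mul]
      push_cast
      linear_combination h4
  rw [smul_sub] at hS
  rw [add_mul, smul_mul_assoc, smul_mul_assoc, ← hS]
  abel

lemma cm_inj {M N : Matrix (Fin n) (Fin n) ℚ} (h : cm M = cm N) : M = N := by
  ext i j
  have h1 := congrFun (congrFun h i) j
  rw [Pool.Agent.Y119.HY.cm_apply, Pool.Agent.Y119.HY.cm_apply] at h1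
  exact_mod_cast h1

lemma Bm_rel (hQ : QD n Q) : (Bm n Q).transpose * Jm n Q + Jm n Q * Bm n Q = 0 := by
  apply cm_inj
  rw [Pool.Agent.Y119.HY.cm_add, Pool.Agent.Y119.HY.cm_mul, Pool.Agent.Y119.HY.cm_mul, Pool.Agent.Y119.HY.cm_transpose,
    Pool.Agent.Y119.HY.cm_Bm hQ, Matrix.transpose_neg, Matrix.neg_mul, Matrix.mul_neg, ← neg_add,
    Pool.Agent.Y119.HY.tv_skew (Pool.Agent.Y119.HY.Jc_skew hQ), neg_zero, Pool.Agent.Y119.HY.cm_zero]

lemma nil_zero {κ : ℚ} (hκ : κ ≠ 0) {M : Matrix (Fin n) (Fin n) ℚ} (h : κ • M + ((Am n).transpose * M + M * Am n) = 0) :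
    M = 0 := by
  have hT : ∀ i j : Fin n, ((Am n).transpose * M) i j = if h : (i : ℕ) = 0 then 0 else M ⟨i - 1, by omega⟩ j := by
    intro i j
    have h1 : ((Am n).transpose * M) i j = (M.transpose * Am n) j i := by
      rw [← Matrix.transpose_apply (M.transpose * Am n), Matrix.transpose_mul, Matrix.transpose_transpose]
    rw [h1, mul_Am]
    rfl
  have key : ∀ s : ℕ, ∀ i j : Fin n, (i : ℕ) + j = s → M i j = 0 := by
    intro s
    induction s using Nat.strong_induction_on with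
    | _ s ih =>
      intro i j hij
      have h1 := congrFun (congrFun h i) j
      rw [Matrix.add_apply, Matrix.add_apply, Matrix.smul_apply, hT, mul_Am, Matrix.zero_apply, smul_eq_mul] at h1
      have h2 : (if h : (i : ℕ) = 0 then 0 else M ⟨i - 1, by omega⟩ j) = 0 := by
        split_ifs with h3
        · rfl
        · exact ih ((i : ℕ) - 1 + j) (by omega) _ _ rfl
      have h4 : (if h : (j : ℕ) = 0 then 0 else M i ⟨j - 1, by omega⟩) = 0 := by
        split_ifs with h3
        · rfl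
        · exact ih ((i : ℕ) + (j - 1)) (by omega) _ _ rfl
      rw [h2, h4, add_zero, add_zero] at h1
      exact (mul_eq_zero.1 h1).resolve_left hκ
  ext i j
  exact key _ i j rfl

/-- the bilinear relations -/
theorem form_Hp (hQ : QD n Q) : (Hp n Q).transpose * km (Jm n Q) * Hp n Q = km (Jm n Q) := by
  set Z := (Hp n Q).transpose * km (Jm n Q) * Hp n Q with hZ
  set H := Hp n Q with hH
  set J := km (Jm n Q) with hJ
  set G : Matrix (Fin n) (Fin n) ℚ⟦X⟧ := (1 - X : ℚ⟦X⟧) • km (Am n) + (X : ℚ⟦X⟧) • km (Bm n Q) with hG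
  have hkm : ∀ M : Matrix (Fin n) (Fin n) ℚ, km M.transpose = (km M).transpose := fun M => rfl
  have hGJ : G.transpose * J + J * G = 0 := by
    have e1 : (km (Am n)).transpose * J + J * km (Am n) = 0 := by
      rw [hJ, ← hkm]
      unfold km
      rw [← map_mul, ← map_mul, ← map_add, Jm_rel, map_zero]
    have e2 : (km (Bm n Q)).transpose * J + J * km (Bm n Q) = 0 := by
      rw [hJ, ← hkm]
      unfold km
      rw [← map_mul, ← map_mul, ← map_add, Bm_rel hQ, map_zero]
    have e3 : G.transpose * J + J * G = (1 - X : ℚ⟦X⟧) • ((km (Am n)).transpose * J + J * km (Am n)) +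
        (X : ℚ⟦X⟧) • ((km (Bm n Q)).transpose * J + J * km (Bm n Q)) := by
      rw [hG, Matrix.transpose_add, Matrix.transpose_smul, Matrix.transpose_smul, add_mul, mul_add, smul_mul_assoc,
        smul_mul_assoc, mul_smul_comm, mul_smul_comm, smul_add, smul_add]
      abel
    rw [e3, e1, e2, smul_zero, smul_zero, add_zero]
  have hode := ode_Hp hQ
  rw [← hH, ← hG] at hode
  have hth : (1 - X : ℚ⟦X⟧) • th H = G * H - (1 - X : ℚ⟦X⟧) • (H * km (Am n)) := by
    rw [← hode, smul_add]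
    abel
  have hthZ : th Z = (th H).transpose * J * H + H.transpose * J * th H := by
    rw [hZ, th_mul, th_mul, hJ, th_km, Matrix.mul_zero, add_zero, th_transpose]
  have h1 : (1 - X : ℚ⟦X⟧) • (th Z + ((km (Am n)).transpose * Z + Z * km (Am n))) = 0 := by
    have e1 : (1 - X : ℚ⟦X⟧) • ((th H).transpose * J * H) =
        (H.transpose * G.transpose - (1 - X : ℚ⟦X⟧) • ((km (Am n)).transpose * H.transpose)) * J * H := by
      rw [← smul_mul_assoc, ← smul_mul_assoc, ← Matrix.transpose_smul, hth, Matrix.transpose_sub, Matrix.transpose_smul,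
        Matrix.transpose_mul, Matrix.transpose_mul]
    have e2 : (1 - X : ℚ⟦X⟧) • (H.transpose * J * th H) = H.transpose * J * (G * H - (1 - X : ℚ⟦X⟧) • (H * km (Am n))) := by
      rw [← mul_smul_comm, hth]
    rw [smul_add, hthZ, smul_add, e1, e2, smul_add, hZ]
    have e3 : (H.transpose * G.transpose - (1 - X : ℚ⟦X⟧) • ((km (Am n)).transpose * H.transpose)) * J * H =
        H.transpose * (G.transpose * J) * H - (1 - X : ℚ⟦X⟧) • ((km (Am n)).transpose * (H.transpose * J * H)) := by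
      rw [sub_mul, sub_mul, smul_mul_assoc, smul_mul_assoc]
      simp only [Matrix.mul_assoc]
    have e4 : H.transpose * J * (G * H - (1 - X : ℚ⟦X⟧) • (H * km (Am n))) =
        H.transpose * (J * G) * H - (1 - X : ℚ⟦X⟧) • ((H.transpose * J * H) * km (Am n)) := by
      rw [mul_sub, mul_smul_comm]
      simp only [Matrix.mul_assoc]
    rw [e3, e4]
    have e5 : H.transpose * (G.transpose * J) * H + H.transpose * (J * G) * H = 0 := by
      rw [← add_mul, ← mul_add, hGJ, Matrix.mul_zero, Matrix.zero_mul]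
    calc _ = H.transpose * (G.transpose * J) * H + H.transpose * (J * G) * H := by abel
      _ = 0 := e5
  have h1X : (1 - X : ℚ⟦X⟧) ≠ 0 := by
    intro h0
    have := congrArg (coeff 0) h0
    simp at this
  have h2 : th Z + ((km (Am n)).transpose * Z + Z * km (Am n)) = 0 := by
    ext1 i j
    have h3 := congrFun (congrFun h1 i) j
    rw [Matrix.smul_apply, smul_eq_mul, Matrix.zero_apply] at h3
    exact (mul_eq_zero.1 h3).resolve_left h1X
  refine cf_ext fun k => ?_
  have h3 : (k : ℚ) • cf Z k + ((Am n).transpose * cf Z k + cf Z k * Am n) = 0 := by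
    have e1 : cf (th Z + ((km (Am n)).transpose * Z + Z * km (Am n))) k =
        cf (th Z) k + (cf ((km (Am n)).transpose * Z) k + cf (Z * km (Am n)) k) := by
      ext i j
      unfold cf
      simp only [Matrix.map_apply, Matrix.add_apply, map_add]
    rw [h2, cf_th, ← hkm, cf_km_mul, cf_mul_km] at e1
    rw [← e1]
    ext i j
    unfold cf
    simp
  rcases k with _ | k
  · have h4 : ∀ M N : Matrix (Fin n) (Fin n) ℚ⟦X⟧, cf (M * N) 0 = cf M 0 * cf N 0 := by
      intro M N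
      ext i j
      unfold cf
      rw [Matrix.map_apply, Matrix.mul_apply, Matrix.mul_apply, map_sum]
      refine Finset.sum_congr rfl fun l _ => ?_
      rw [Matrix.map_apply, Matrix.map_apply, coeff_zero_eq_constantCoeff_apply, coeff_zero_eq_constantCoeff_apply,
        coeff_zero_eq_constantCoeff_apply, map_mul]
    have h5 : cf H.transpose 0 = (cf H 0).transpose := rfl
    rw [hZ, h4, h4, h5, hH, cf_Hp, Hq_zero, Matrix.transpose_one, one_mul, mul_one]
  · rw [nil_zero (by exact_mod_cast Nat.succ_ne_zero k) h3]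
    ext i j
    unfold cf
    rw [Matrix.map_apply, hJ, km_apply, coeff_C, if_neg (Nat.succ_ne_zero k), Matrix.zero_apply]

/-! ### the inverse -/

/-- the inverse of the holomorphic part -/
noncomputable def Wp (n : ℕ) (Q : Polynomial ℚ) : Matrix (Fin n) (Fin n) ℚ⟦X⟧ :=
  km (Jm n Q)⁻¹ * ((Hp n Q).transpose * km (Jm n Q))

lemma Wp_mul (hQ : QD n Q) : Wp n Q * Hp n Q = 1 := by
  unfold Wp
  rw [Matrix.mul_assoc, form_Hp hQ]
  unfold km
  rw [← map_mul, Matrix.nonsing_inv_mul _ (Ne.isUnit (Jm_det hQ)), map_one]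

lemma mul_Wp (hQ : QD n Q) : Hp n Q * Wp n Q = 1 := mul_eq_one_comm.1 (Wp_mul hQ)

lemma SDc_C (c : ℚ) : SDc (C c : ℚ⟦X⟧) := by
  refine Pool.Agent.Y119.HY.sdc_of ⟨|(c : ℝ)| + 1, fun m => ?_⟩ ⟨c.den, fun m => ⟨c.den, c.den_pos, ?_, fun j _ => ?_⟩⟩
  · rw [coeff_C]
    have h0 : (0 : ℝ) ≤ |(c : ℝ)| := abs_nonneg _
    split_ifs
    · exact le_trans (by linarith) (le_self_pow₀ (by linarith) (by omega))
    · simp
      positivity
  · have h1 : (1 : ℝ) ≤ c.den := by exact_mod_cast c.den_pos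
    exact le_self_pow₀ h1 (by omega)
  · rw [coeff_C]
    split_ifs
    · exact ⟨c.num, by rw [mul_comm]; exact Rat.mul_den_eq_num c⟩
    · exact ⟨0, by simp⟩

lemma SDc.sum' {σ : Type*} (S : Finset σ) {f : σ → ℚ⟦X⟧} (h : ∀ i ∈ S, SDc (f i)) : SDc (∑ i ∈ S, f i) := by
  classical
  induction S using Finset.induction_on with
  | empty =>
    rw [Finset.sum_empty]
    have := SDc_C 0
    rwa [map_zero] at this
  | insert a S ha ih =>
    rw [Finset.sum_insert ha]
    exact (h a (Finset.mem_insert_self _ _)).add (ih fun i hi => h i (Finset.mem_insert_of_mem hi))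

lemma SDc_matmul {M N : Matrix (Fin n) (Fin n) ℚ⟦X⟧} (hM : ∀ i j, SDc (M i j)) (hN : ∀ i j, SDc (N i j)) (i j : Fin n) :
    SDc ((M * N) i j) := by
  rw [Matrix.mul_apply]
  exact SDc.sum' _ fun l _ => (hM i l).mul (hN l j)

lemma SDc_km (M : Matrix (Fin n) (Fin n) ℚ) (i j : Fin n) : SDc (km M i j) := SDc_C _

lemma SDc_Wp (h : ∀ i j, SDc (Hp n Q i j)) (i j : Fin n) : SDc (Wp n Q i j) :=
  SDc_matmul (SDc_km _) (SDc_matmul (fun i j => h j i) (SDc_km _)) i j

/-! ### integral equations -/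

/-- the integral denominator -/
noncomputable def T1 (D : ℕ) : Polynomial ℤ := Polynomial.C (D : ℤ) * (1 - Polynomial.X)

/-- the integral matrix -/
noncomputable def A1 (n D : ℕ) (b : Fin n → Fin n → ℤ) (i j : Fin n) : Polynomial ℤ :=
  Polynomial.C (if (j : ℕ) = i + 1 then (D : ℤ) else 0) * (1 - Polynomial.X) + Polynomial.C (b i j) * Polynomial.X

lemma ps_T1 (D : ℕ) : ps (T1 D) = C (D : ℚ) * (1 - X) := by
  unfold ps T1
  rw [Polynomial.map_mul, Polynomial.map_sub, Polynomial.map_one, Polynomial.map_X, Polynomial.map_C, Polynomial.coe_mul,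
    Polynomial.coe_C, Polynomial.coe_sub, Polynomial.coe_one, Polynomial.coe_X]
  simp

lemma ps_A1 {D : ℕ} {b : Fin n → Fin n → ℤ} (hb : ∀ i j, (b i j : ℚ) = D * Bm n Q i j) (i j : Fin n) :
    ps (A1 n D b i j) = C (D : ℚ) * ((1 - X) * C (Am n i j) + X * C (Bm n Q i j)) := by
  unfold ps A1
  rw [Polynomial.map_add, Polynomial.map_mul, Polynomial.map_mul, Polynomial.map_sub, Polynomial.map_one, Polynomial.map_X,
    Polynomial.map_C, Polynomial.map_C, Polynomial.coe_add, Polynomial.coe_mul, Polynomial.coe_mul,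
    Polynomial.coe_C, Polynomial.coe_C, Polynomial.coe_sub, Polynomial.coe_one, Polynomial.coe_X]
  have e1 : (Int.castRingHom ℚ) (b i j) = D * Bm n Q i j := hb i j
  have e2 : (Int.castRingHom ℚ) (if (j : ℕ) = i + 1 then (D : ℤ) else 0) = D * Am n i j := by
    unfold Am
    rw [Matrix.of_apply]
    split_ifs <;> simp
  rw [e1, e2, map_mul, map_mul]
  ring

lemma ode_int (hQ : QD n Q) {D : ℕ} {b : Fin n → Fin n → ℤ} (hb : ∀ i j, (b i j : ℚ) = D * Bm n Q i j) (i j : Fin n) :
    ps (T1 D) * (X * d⁄dX ℚ (Hp n Q i j) + ∑ k, Hp n Q i k * C (Am n k j)) = ∑ k, ps (A1 n D b i k) * Hp n Q k j := by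
  have h1 := congrFun (congrFun (ode_Hp hQ) i) j
  rw [Matrix.smul_apply, Matrix.add_apply, Matrix.mul_apply, Matrix.mul_apply, smul_eq_mul] at h1
  rw [ps_T1, mul_assoc]
  have h2 : X * d⁄dX ℚ (Hp n Q i j) = th (Hp n Q) i j := rfl
  have h3 : ∑ k, Hp n Q i k * C (Am n k j) = ∑ k, Hp n Q i k * km (Am n) k j := rfl
  rw [h2, h3, h1, Finset.mul_sum]
  refine Finset.sum_congr rfl fun k _ => ?_
  rw [ps_A1 hb, Matrix.add_apply, Matrix.smul_apply, Matrix.smul_apply, smul_eq_mul, smul_eq_mul, km_apply, km_apply]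
  ring

lemma exists_b (n : ℕ) (Q : Polynomial ℚ) : ∃ (D : ℕ) (b : Fin n → Fin n → ℤ), D ≠ 0 ∧ ∀ i j, (b i j : ℚ) = D * Bm n Q i j := by
  classical
  set D : ℕ := ∏ p : Fin n × Fin n, (Bm n Q p.1 p.2).den with hD
  have hD0 : D ≠ 0 := Finset.prod_ne_zero_iff.2 fun p _ => (Bm n Q p.1 p.2).den_nz
  have h1 : ∀ i j, ∃ b : ℤ, (b : ℚ) = D * Bm n Q i j := by
    intro i j
    obtain ⟨c, hc⟩ : (Bm n Q i j).den ∣ D :=
      Finset.dvd_prod_of_mem (fun p : Fin n × Fin n => (Bm n Q p.1 p.2).den) (Finset.mem_univ (i, j))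
    refine ⟨c * (Bm n Q i j).num, ?_⟩
    have h2 := Rat.mul_den_eq_num (Bm n Q i j)
    rw [hc]
    push_cast
    rw [← h2]
    ring
  choose b hb using h1
  exact ⟨D, b, hD0, hb⟩

/-- **the entries of the holomorphic part form a G-system** -/
theorem gsys_Hp (hQ : QD n Q) (hH : ∀ i j, SDc (Hp n Q i j)) {D : ℕ} {b : Fin n → Fin n → ℤ}
    (hb : ∀ i j, (b i j : ℚ) = D * Bm n Q i j) :
    ∃ (q : ℕ) (C : ℝ), GSys q C (Polynomial.X * T1 D) (fun p : Fin n × Fin n => Hp n Q p.1 p.2) :=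
  gsysL (N := Am n) Am_nil (mul_Wp hQ) (ode_int hQ hb) hH (SDc_Wp hH)

/-! ### the polynomial with rational roots -/

lemma QD_QB {m : ℕ} (hm : 1 ≤ m) {β : Fin m → ℚ} (hβ : ∀ i, ∀ l : ℕ, (l : ℚ) + β i ≠ 0 ∧ (l : ℚ) + -β i ≠ 0) :
    QD (2 * m) (QB β) where
  two := by omega
  even := ⟨m, by ring⟩
  monic := by
    unfold QB
    refine Polynomial.monic_prod_of_monic _ _ fun i _ => ?_
    exact Polynomial.monic_X_pow_sub_C _ two_ne_zero
  deg := by
    unfold QB
    rw [Polynomial.natDegree_prod_of_monic _ _ fun i _ => Polynomial.monic_X_pow_sub_C _ two_ne_zero]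
    simp only [Polynomial.natDegree_X_pow_sub_C]
    rw [Finset.sum_const, Finset.card_univ, Fintype.card_fin, smul_eq_mul, mul_comm]
  sym := by
    intro j hj
    have h1 : QB β = Polynomial.expand ℚ 2 (∏ i, (Polynomial.X - Polynomial.C (β i ^ 2))) := by
      unfold QB
      rw [map_prod]
      refine Finset.prod_congr rfl fun i _ => ?_
      rw [map_sub, Polynomial.expand_X, Polynomial.expand_C]
    rw [h1, Polynomial.coeff_expand (by norm_num), if_neg]
    intro h2
    obtain ⟨a, ha⟩ := h2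
    obtain ⟨c, hc⟩ := hj
    omega
  ne := by
    intro l
    unfold QB
    rw [Polynomial.eval_prod]
    refine Finset.prod_ne_zero_iff.2 fun i _ => ?_
    rw [Polynomial.eval_sub, Polynomial.eval_pow, Polynomial.eval_X, Polynomial.eval_C]
    have h1 := hβ i l
    have h2 : (l : ℚ) ^ 2 - β i ^ 2 = ((l : ℚ) + β i) * ((l : ℚ) + -β i) := by ring
    rw [h2]
    exact mul_ne_zero h1.1 h1.2

end Pool.Agent.Y119.HZ
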