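import Pool.Agent.Y120.H.Res
import Pool.Agent.Y119.HY.Inv

/-!
# The hypergeometric family satisfies the hypotheses of the theorem on tuples of G-function families
-/

set_option autoImplicit false

open PowerSeries Pool.Agent.Y113 Pool.Agent.Y120.GF Pool.Agent.Y120.GH

namespace Pool.Agent.Y119.HZ

/-- the main theorem of helper120 for one family, with a G-system as hypothesis -/
theorem family_gsys {r : ℕ} {h : Fin r → ℚ⟦X⟧} {T : Polynomial ℤ} {A : Fin r → Fin r → Polynomial ℤ} (hT : T ≠ 0)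
    (hode : ∀ i, ps T * d⁄dX ℚ (h i) = ∑ j, ps (A i j) * h j)
    {q : ℕ} {C : ℝ} (hG : GSys q C T h)
    (hqu : QU0 T A) (δ : ℕ) :
    ∃ (B : Finset (Fin δ → Option (Fin r))) (a : Polynomial ℤ) (M : (Fin δ → Option (Fin r)) → B → Polynomial ℤ),
      a ≠ 0 ∧ (∀ b, ps a * yw h b = ∑ β, ps (M b β) * yw h β.1) ∧ One (XF δ fun β : B => yw h β.1) := by
  classical
  obtain ⟨C', hG'⟩ := gsys_tens (gsys_opt hG) δ
  have hyw : (fun b : Fin δ → Option (Fin r) => ∏ j, (fun o : Option (Fin r) => o.elim 1 h) (b j)) = fun b => yw h b := rfl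
  rw [hyw] at hG'
  have hone : yw h (fun _ : Fin δ => none) = 1 := by
    unfold yw
    exact Finset.prod_eq_one fun j _ => rfl
  obtain ⟨B, hb₀, hLI, a, M, ha, hM⟩ := max_li (fun b : Fin δ → Option (Fin r) => yw h b) (fun _ => none) (by
    rw [hone]
    exact one_ne_zero)
  refine ⟨B, a, M, ha, hM, ?_⟩
  obtain ⟨q', C'', hG''⟩ := gsys_sub hG' (fun β : B => yw h β.1) (fun β => β.1) (fun β => rfl) a M hM
  obtain ⟨e, he, M₀, K, Φ, hΦc, hΦe, hΦd⟩ := hqu
  -- the radii
  set τ : ℝ := |K| + C' + 1 with hτd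
  have hC'1 := hG'.one_le
  have hτ1 : 1 ≤ τ := by
    have := abs_nonneg K
    linarith
  have hτ0 : 0 < τ := by linarith
  have hτe : τ ≤ τ ^ e := le_self_pow₀ hτ1 he
  set τ' : ℝ := τ + 1 with hτ'd
  have hmem : ∀ b, cx (yw h b : ℚ⟦X⟧) ∈ Cw (τ ^ e) := fun b =>
    Cw_mono (by
      have := abs_nonneg K
      linarith) (cx_mem (by linarith) (hG'.size b))
  set Tc : Polynomial ℂ := T.map (Int.castRingHom ℂ) with hTc
  set Ac : Fin r → Fin r → Polynomial ℂ := fun i j => (A i j).map (Int.castRingHom ℂ) with hAc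
  have hTc0 : Tc ≠ 0 := (Polynomial.map_ne_zero_iff (Int.castRingHom ℂ).injective_int).2 hT
  have hQU : QU he τ Tc (AT (δ := δ) (Pool.Agent.Y120.GH.A1 Ac)) := by
    refine qu_tens he δ (qu_one he ⟨M₀, Φ, fun i j k => mem_Cw_of_bound ?_ (hΦc i j k), hΦe, hΦd⟩)
    linarith
  -- the differential equation of the products
  have hodeC : ∀ i, (Tc : PowerSeries ℂ) * PowerSeries.derivative ℂ (cx (h i)) = ∑ j, (Ac i j : PowerSeries ℂ) * cx (h j) := by
    intro i
    have h1 := congrArg cx (hode i)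
    rw [map_mul, map_sum, cx_der, cx_ps] at h1
    rw [h1]
    refine Finset.sum_congr rfl fun j _ => ?_
    rw [map_mul, cx_ps]
  have hodeT : ∀ b : Fin δ → Option (Fin r), (Tc : PowerSeries ℂ) * PowerSeries.derivative ℂ (cx (yw h b)) =
      ∑ b', ((AT (δ := δ) (Pool.Agent.Y120.GH.A1 Ac) b b' : Polynomial ℂ) : PowerSeries ℂ) * cx (yw h b') := by
    intro b
    have h1 := tens_der (δ := δ) (fun f : PowerSeries ℂ => PowerSeries.derivative ℂ f) (Derivation.map_one_eq_zero _)
      (fun f g => by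
        rw [Derivation.leibniz]
        rfl) (Tc : PowerSeries ℂ) 0
      (fun i l : Option (Fin r) => ((Pool.Agent.Y120.GH.A1 Ac i l : Polynomial ℂ) : PowerSeries ℂ))
      (fun _ o => cx (o.elim 1 h)) (fun j o => by
        rw [zero_mul, zero_add, Fintype.sum_option]
        rcases o with _ | i
        · show _ * PowerSeries.derivative ℂ (cx 1) = ((0 : Polynomial ℂ) : PowerSeries ℂ) * _ +
            ∑ j, ((0 : Polynomial ℂ) : PowerSeries ℂ) * _
          rw [map_one, Derivation.map_one_eq_zero]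
          simp
        · show _ = ((0 : Polynomial ℂ) : PowerSeries ℂ) * _ + ∑ j, (Ac i j : PowerSeries ℂ) * cx (h j)
          rw [← hodeC i]
          simp) b
    have h2 : ∀ b : Fin δ → Option (Fin r), cx (yw h b) = ∏ j, cx ((b j).elim 1 h) := fun b => map_prod _ _ _
    rw [h2 b]
    refine h1.trans ?_
    rw [mul_zero, zero_mul, zero_add]
    refine Finset.sum_congr rfl fun b' _ => ?_
    rw [h2 b']
    congr 1
    let f : Polynomial ℂ →+ PowerSeries ℂ := (Polynomial.coeToPowerSeries.ringHom (R := ℂ)).toAddMonoidHom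
    exact (AT_map f (Pool.Agent.Y120.GH.A1 Ac) b b').symm
  have hdisc : Disc (τ ^ e) (τ' ^ e) fun b : (B : Set (Fin δ → Option (Fin r))) => cx (yw h b.1) :=
    disc_of_qu he hτ0 (by linarith) (fun b => cx (yw h b)) hmem Tc hTc0 _ hodeT hQU
      (B : Set (Fin δ → Option (Fin r))) (by
      intro G hG
      refine li_cx (κ := (B : Set (Fin δ → Option (Fin r)))) ?_ G hG
      exact hLI)
  have hρρ : τ ^ e < τ' ^ e := pow_lt_pow_left₀ (by linarith) hτ0.le he
  obtain ⟨R, hR⟩ := exists_nat_gt (τ ^ e + τ' ^ e)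
  refine one_family hG'' (mul_ne_zero ha hT) ⟨fun _ => none, hb₀⟩ hone δ R fun k g hg => ?_
  obtain ⟨E, hE⟩ := gsys_shift hG''
  refine li_shift (ρ := τ ^ e) (ρ' := τ' ^ e) (C := C'') (y := fun β : B => yw h β.1) (by positivity) hρρ
    (by have := hG''.one_le; linarith) (fun β => hmem _) hdisc hG''.size (fun g => ⟨((g : ℝ) + 2) ^ E, by positivity,
      (hE g).size⟩) hR (δ + 1) k g (fun l => by exact_mod_cast hg.1 l) fun l l' hl => ?_
  rcases hg.2 l l' hl with h1 | h1
  · have h2 : (g l : ℝ) + R ≤ g l' := by exact_mod_cast h1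
    rw [abs_sub_comm]
    exact le_trans (by linarith) (le_abs_self _)
  · have h2 : (g l' : ℝ) + R ≤ g l := by exact_mod_cast h1
    exact le_trans (by linarith) (le_abs_self _)

/-! ### the system of the holomorphic part -/

section
open Pool.Agent.Y119.HY (QD Am Jm cm Ep E Ep_eval E_HD E_neg)

variable {n : ℕ} {Q : Polynomial ℚ}

lemma E_comm (N : Matrix (Fin n) (Fin n) ℂ) (s : ℂ) : N * E N s = E N s * N := by
  unfold E
  rw [Finset.mul_sum, Finset.sum_mul]
  refine Finset.sum_congr rfl fun i _ => ?_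
  rw [mul_smul_comm, smul_mul_assoc, ← pow_succ', ← pow_succ]

lemma Ep_deriv {N : Matrix (Fin n) (Fin n) ℂ} (hN : N ^ n = 0) (i j : Fin n) :
    Polynomial.derivative (Ep N i j) = ∑ d, Polynomial.C (N i d) * Ep N d j := by
  refine Polynomial.funext fun s => ?_
  have h1 := (E_HD hN s) i j
  have h2 : (fun w => E N w i j) = fun w => (Ep N i j).eval w := by
    funext w
    rw [← Ep_eval]
    rfl
  rw [h2] at h1
  have h3 := (Ep N i j).hasDerivAt s
  rw [h3.unique h1, Matrix.mul_apply, Polynomial.eval_finsetSum]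
  refine Finset.sum_congr rfl fun d _ => ?_
  rw [Polynomial.eval_mul, Polynomial.eval_C, ← Ep_eval]
  rfl

lemma Ep_deriv' {N : Matrix (Fin n) (Fin n) ℂ} (hN : N ^ n = 0) (i j : Fin n) :
    Polynomial.derivative (Ep N i j) = ∑ d, Ep N i d * Polynomial.C (N d j) := by
  refine Polynomial.funext fun s => ?_
  rw [Ep_deriv hN, Polynomial.eval_finsetSum, Polynomial.eval_finsetSum]
  have h1 := congrFun (congrFun (E_comm N s) i) j
  rw [Matrix.mul_apply, Matrix.mul_apply] at h1
  have h2 : ∀ a b, (Ep N a b).eval s = E N s a b := by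
    intro a b
    rw [← Ep_eval]
    rfl
  simp only [Polynomial.eval_mul, Polynomial.eval_C, h2]
  exact h1

lemma Ep_eval_zero {N : Matrix (Fin n) (Fin n) ℂ} (hN : N ^ n = 0) (i j : Fin n) :
    (Ep N i j).eval 0 = if i = j then 1 else 0 := by
  have h1 : (Ep N i j).eval 0 = E N 0 i j := by
    rw [← Ep_eval]
    rfl
  rw [h1, Pool.Agent.Y119.HY.E_zero hN, Matrix.one_apply]

/-- the logarithmic part -/
noncomputable def pE (N : Matrix (Fin n) (Fin n) ℂ) (c a b j : Fin n) : Polynomial ℂ := Ep N c a * Ep (-N) b j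

lemma pE_deriv {N : Matrix (Fin n) (Fin n) ℂ} (hN : N ^ n = 0) (c a b j : Fin n) (k : ℕ) :
    ((k : ℂ) + 1) * (pE N c a b j).coeff (k + 1) = ∑ d, N c d * (pE N d a b j).coeff k - ∑ d, N d j * (pE N c a b d).coeff k := by
  have hN' : (-N) ^ n = 0 := by rw [neg_pow, hN, mul_zero]
  have h1 : Polynomial.derivative (pE N c a b j) = ∑ d, Polynomial.C (N c d) * pE N d a b j -
      ∑ d, Polynomial.C (N d j) * pE N c a b d := by
    unfold pE
    rw [Polynomial.derivative_mul, Ep_deriv hN, Ep_deriv' hN', Finset.sum_mul, Finset.mul_sum, sub_eq_add_neg,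
      ← Finset.sum_neg_distrib]
    congr 1
    · exact Finset.sum_congr rfl fun d _ => by ring
    · refine Finset.sum_congr rfl fun d _ => ?_
      rw [Matrix.neg_apply, map_neg]
      ring
  have h2 := congrArg (fun p => p.coeff k) h1
  simp only [Polynomial.coeff_derivative, Polynomial.coeff_sub, Polynomial.finsetSum_coeff, Polynomial.coeff_C_mul] at h2
  rw [mul_comm]
  exact h2

/-- the shift over the integers -/
def Ni (l j : ℕ) : ℤ := if j = l + 1 then 1 else 0

/-- the system for the entries of the holomorphic part -/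
noncomputable def A2 (n D : ℕ) (b : Fin n → Fin n → ℤ) (p q : Fin n × Fin n) : Polynomial ℤ :=
  (if q.2 = p.2 then A1 n D b p.1 q.1 else 0) - (if q.1 = p.1 then T1 D * Polynomial.C (Ni q.2 p.2) else 0)

/-- summation -/
lemma sum_A2 {R : Type*} [CommRing R] (f : Polynomial ℤ →+* R) (D : ℕ) (b : Fin n → Fin n → ℤ) (p : Fin n × Fin n)
    (x : Fin n × Fin n → R) : ∑ q, f (A2 n D b p q) * x q =
      ∑ k, f (A1 n D b p.1 k) * x (k, p.2) - f (T1 D) * ∑ l : Fin n, f (Polynomial.C (Ni l p.2)) * x (p.1, l) := by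
  unfold A2
  simp only [map_sub, sub_mul, Finset.sum_sub_distrib]
  congr 1
  · rw [Fintype.sum_prod_type]
    refine Finset.sum_congr rfl fun k _ => ?_
    rw [Finset.sum_eq_single p.2]
    · simp
    · intro l _ hl
      rw [if_neg hl, map_zero, zero_mul]
    · intro h
      exact absurd (Finset.mem_univ _) h
  · rw [Fintype.sum_prod_type, Finset.sum_eq_single p.1]
    · rw [Finset.mul_sum]
      refine Finset.sum_congr rfl fun l _ => ?_
      rw [if_pos rfl, map_mul]
      ring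
    · intro k _ hk
      refine Finset.sum_eq_zero fun l _ => ?_
      rw [if_neg hk, map_zero, zero_mul]
    · intro h
      exact absurd (Finset.mem_univ _) h

/-- integer polynomials as rational power series -/
noncomputable def psR : Polynomial ℤ →+* ℚ⟦X⟧ :=
  (Polynomial.coeToPowerSeries.ringHom (R := ℚ)).comp (Polynomial.mapRingHom (Int.castRingHom ℚ))

lemma psR_apply (P : Polynomial ℤ) : psR P = ps P := rfl

lemma psR_Ni (l j : Fin n) : psR (Polynomial.C (Ni l j)) = C (Am n l j) := by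
  rw [psR_apply]
  unfold ps Ni Am
  rw [Polynomial.map_C, Polynomial.coe_C, Matrix.of_apply]
  split_ifs <;> simp

lemma ode_A2 (hQ : QD n Q) {D : ℕ} {b : Fin n → Fin n → ℤ} (hb : ∀ i j, (b i j : ℚ) = D * Pool.Agent.Y119.HY.Bm n Q i j)
    (p : Fin n × Fin n) : ps (Polynomial.X * T1 D) * d⁄dX ℚ (Hp n Q p.1 p.2) =
      ∑ q, ps (A2 n D b p q) * Hp n Q q.1 q.2 := by
  have h1 := sum_A2 psR D b p (fun q => Hp n Q q.1 q.2)
  simp only [psR_Ni] at h1
  simp only [psR_apply] at h1
  rw [h1, ← ode_int hQ hb, ps_X_mul]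
  have h2 : ∑ l, C (Am n l p.2) * Hp n Q p.1 l = ∑ k, Hp n Q p.1 k * C (Am n k p.2) :=
    Finset.sum_congr rfl fun l _ => mul_comm _ _
  rw [h2]
  ring

/-! ### the fundamental matrix -/

/-- complex power series as constants in the polynomials in the logarithm -/
noncomputable def Phi (n : ℕ) (Q : Polynomial ℚ) (p q : Fin n × Fin n) : Polynomial (PowerSeries ℂ) :=
  ∑ c, Polynomial.C (cx (Hp n Q p.1 c)) * (pE (cm (Am n)) c q.1 q.2 p.2).map (C (R := ℂ))

lemma Phi_coeff (p q : Fin n × Fin n) (k : ℕ) : (Phi n Q p q).coeff k =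
    ∑ c, cx (Hp n Q p.1 c) * C ((pE (cm (Am n)) c q.1 q.2 p.2).coeff k) := by
  unfold Phi
  rw [Polynomial.finsetSum_coeff]
  refine Finset.sum_congr rfl fun c _ => ?_
  rw [Polynomial.coeff_C_mul, Polynomial.coeff_map]

/-- integer polynomials as complex power series -/
noncomputable def cxR : Polynomial ℤ →+* PowerSeries ℂ := cx.comp psR

lemma cxR_apply (P : Polynomial ℤ) : cxR P = ((P.map (Int.castRingHom ℂ) : Polynomial ℂ) : PowerSeries ℂ) := by
  show cx (ps P) = _
  exact cx_ps P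

lemma cxR_Ni (l j : Fin n) : cxR (Polynomial.C (Ni l j)) = C (cm (Am n) l j) := by
  show cx (psR (Polynomial.C (Ni l j))) = _
  rw [psR_Ni, cx_C]
  rfl

theorem Phi_ode (hQ : QD n Q) {D : ℕ} {b : Fin n → Fin n → ℤ} (hb : ∀ i j, (b i j : ℚ) = D * Pool.Agent.Y119.HY.Bm n Q i j)
    (p q : Fin n × Fin n) (k : ℕ) : cxR (T1 D) * ((X : PowerSeries ℂ) * PowerSeries.derivative ℂ ((Phi n Q p q).coeff k) +
      ((k : PowerSeries ℂ) + 1) * (Phi n Q p q).coeff (k + 1)) = ∑ l, cxR (A2 n D b p l) * (Phi n Q l q).coeff k := by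
  have hN : cm (Am n) ^ n = 0 := Pool.Agent.Y119.HY.Ac_nil
  set N := cm (Am n) with hNd
  obtain ⟨i, j⟩ := p
  obtain ⟨a, c'⟩ := q
  -- the equation over the complex numbers
  have hode : ∀ i j, cxR (T1 D) * (X * PowerSeries.derivative ℂ (cx (Hp n Q i j)) + ∑ k, cx (Hp n Q i k) * C (N k j)) =
      ∑ k, cxR (A1 n D b i k) * cx (Hp n Q k j) := by
    intro i j
    have h1 := congrArg cx (ode_int hQ hb i j)
    rw [map_mul, map_add, map_mul, map_sum, map_sum, cx_der] at h1
    have h2 : cx (X : ℚ⟦X⟧) = X := by rw [cx, map_X]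
    rw [h2] at h1
    simp only [map_mul, cx_C] at h1
    exact h1
  rw [sum_A2]
  simp only [cxR_Ni]
  simp only [Phi_coeff]
  -- the derivative of the coefficients
  have hd : PowerSeries.derivative ℂ (∑ c, cx (Hp n Q i c) * C ((pE N c a c' j).coeff k)) =
      ∑ c, PowerSeries.derivative ℂ (cx (Hp n Q i c)) * C ((pE N c a c' j).coeff k) := by
    rw [map_sum]
    refine Finset.sum_congr rfl fun c _ => ?_
    rw [Derivation.leibniz, PowerSeries.derivative_C]
    simp only [smul_eq_mul]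
    ring
  have hk : ((k : PowerSeries ℂ) + 1) * ∑ c, cx (Hp n Q i c) * C ((pE N c a c' j).coeff (k + 1)) =
      ∑ c, (∑ d, cx (Hp n Q i d) * C (N d c)) * C ((pE N c a c' j).coeff k) -
      ∑ l, C (N l j) * ∑ c, cx (Hp n Q i c) * C ((pE N c a c' l).coeff k) := by
    have e1 : ((k : PowerSeries ℂ) + 1) = C ((k : ℂ) + 1) := by rw [map_add, map_one, map_natCast]
    have e2 : ∀ c, C ((k : ℂ) + 1) * (cx (Hp n Q i c) * C ((pE N c a c' j).coeff (k + 1))) =
        cx (Hp n Q i c) * (∑ d, C (N c d) * C ((pE N d a c' j).coeff k)) -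
        cx (Hp n Q i c) * ∑ d, C (N d j) * C ((pE N c a c' d).coeff k) := by
      intro c
      have e3 : C ((k : ℂ) + 1) * C ((pE N c a c' j).coeff (k + 1)) =
          (∑ d, C (N c d) * C ((pE N d a c' j).coeff k)) - ∑ d, C (N d j) * C ((pE N c a c' d).coeff k) := by
        rw [← map_mul, pE_deriv hN, map_sub, map_sum, map_sum]
        simp only [map_mul]
      rw [← mul_sub, ← e3]
      ring
    rw [e1, Finset.mul_sum, Finset.sum_congr rfl fun c _ => e2 c, Finset.sum_sub_distrib]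
    congr 1
    · simp only [Finset.mul_sum, Finset.sum_mul]
      rw [Finset.sum_comm]
      exact Finset.sum_congr rfl fun c _ => Finset.sum_congr rfl fun d _ => by ring
    · simp only [Finset.mul_sum]
      rw [Finset.sum_comm]
      exact Finset.sum_congr rfl fun c _ => Finset.sum_congr rfl fun d _ => by ring
  rw [hd, hk]
  have hmain : cxR (T1 D) * ((X : PowerSeries ℂ) * ∑ c, PowerSeries.derivative ℂ (cx (Hp n Q i c)) * C ((pE N c a c' j).coeff k) +
      ∑ c, (∑ d, cx (Hp n Q i d) * C (N d c)) * C ((pE N c a c' j).coeff k)) =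
      ∑ k', cxR (A1 n D b i k') * ∑ c, cx (Hp n Q k' c) * C ((pE N c a c' j).coeff k) := by
    have e1 : (X : PowerSeries ℂ) * ∑ c, PowerSeries.derivative ℂ (cx (Hp n Q i c)) * C ((pE N c a c' j).coeff k) +
        ∑ c, (∑ d, cx (Hp n Q i d) * C (N d c)) * C ((pE N c a c' j).coeff k) =
        ∑ c, (X * PowerSeries.derivative ℂ (cx (Hp n Q i c)) + ∑ d, cx (Hp n Q i d) * C (N d c)) *
          C ((pE N c a c' j).coeff k) := by
      rw [Finset.mul_sum, ← Finset.sum_add_distrib]
      exact Finset.sum_congr rfl fun c _ => by ring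
    rw [e1, Finset.mul_sum]
    have e2 : ∀ c, cxR (T1 D) * ((X * PowerSeries.derivative ℂ (cx (Hp n Q i c)) + ∑ d, cx (Hp n Q i d) * C (N d c)) *
          C ((pE N c a c' j).coeff k)) = ∑ k', cxR (A1 n D b i k') * (cx (Hp n Q k' c) * C ((pE N c a c' j).coeff k)) := by
      intro c
      rw [← mul_assoc, hode i c, Finset.sum_mul]
      exact Finset.sum_congr rfl fun k' _ => by ring
    rw [Finset.sum_congr rfl fun c _ => e2 c, Finset.sum_comm]
    exact Finset.sum_congr rfl fun k' _ => by rw [Finset.mul_sum]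
  rw [← hmain]
  ring

/-! ### the hypotheses over `Fin r` -/

/-- the indices -/
def ix (n : ℕ) : Fin (n * n) ≃ Fin n × Fin n := finProdFinEquiv.symm

/-- the entries as a family -/
noncomputable def hf (n : ℕ) (Q : Polynomial ℚ) (a : Fin (n * n)) : ℚ⟦X⟧ := Hp n Q (ix n a).1 (ix n a).2

/-- evaluation at the origin -/
noncomputable def rho : Polynomial (PowerSeries ℂ) →+* ℂ := (constantCoeff (R := ℂ)).comp (Polynomial.evalRingHom 0)

lemma rho_Phi (p q : Fin n × Fin n) : rho (Phi n Q p q) = if p = q then 1 else 0 := by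
  have hN : cm (Am n) ^ n = 0 := Pool.Agent.Y119.HY.Ac_nil
  have hN' : (-cm (Am n)) ^ n = 0 := by rw [neg_pow, hN, mul_zero]
  unfold Phi
  rw [map_sum]
  have h1 : ∀ c, rho (Polynomial.C (cx (Hp n Q p.1 c)) * (pE (cm (Am n)) c q.1 q.2 p.2).map (C (R := ℂ))) =
      (if p.1 = c then 1 else 0) * ((if c = q.1 then 1 else 0) * (if q.2 = p.2 then 1 else 0)) := by
    intro c
    unfold rho
    rw [map_mul, RingHom.comp_apply, RingHom.comp_apply, Polynomial.coe_evalRingHom, Polynomial.eval_C]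
    congr 1
    · rw [← coeff_zero_eq_constantCoeff_apply, coeff_cx]
      have h2 : coeff 0 (Hp n Q p.1 c) = Pool.Agent.Y119.HY.Hq n Q 0 p.1 c := congrFun (congrFun (cf_Hp (Q := Q) 0) p.1) c
      rw [h2, Pool.Agent.Y119.HY.Hq_zero, Matrix.one_apply]
      split_ifs <;> simp
    · have h3 : Polynomial.eval 0 ((pE (cm (Am n)) c q.1 q.2 p.2).map (C (R := ℂ))) =
          C ((pE (cm (Am n)) c q.1 q.2 p.2).eval 0) := by
        have := Polynomial.eval_map_apply (p := pE (cm (Am n)) c q.1 q.2 p.2) (C (R := ℂ)) 0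
        rw [map_zero] at this
        exact this
      rw [h3]
      unfold pE
      rw [Polynomial.eval_mul, Ep_eval_zero hN, Ep_eval_zero hN']
      simp
  simp only [h1]
  rw [Finset.sum_eq_single p.1]
  · rw [if_pos rfl, one_mul]
    by_cases h2 : p = q
    · rw [if_pos h2, h2, if_pos rfl, if_pos rfl, one_mul]
    · rw [if_neg h2]
      by_cases h3 : p.1 = q.1
      · rw [if_neg (fun h4 : q.2 = p.2 => h2 (Prod.ext h3 h4.symm)), mul_zero]
      · rw [if_neg h3, zero_mul]
  · intro c _ hc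
    rw [if_neg (Ne.symm hc), zero_mul]
  · intro h
    exact absurd (Finset.mem_univ _) h

lemma coeff_bound (p : Polynomial ℂ) : ∃ B : ℝ, ∀ k, ‖p.coeff k‖ ≤ B := by
  refine ⟨∑ k ∈ p.support, ‖p.coeff k‖, fun k => ?_⟩
  by_cases hk : k ∈ p.support
  · exact Finset.single_le_sum (f := fun k => ‖p.coeff k‖) (fun _ _ => norm_nonneg _) hk
  · rw [Polynomial.notMem_support_iff.1 hk, norm_zero]
    exact Finset.sum_nonneg fun _ _ => norm_nonneg _

lemma pE_bound (N : Matrix (Fin n) (Fin n) ℂ) : ∃ B : ℝ, 0 ≤ B ∧ ∀ c a b j k, ‖(pE N c a b j).coeff k‖ ≤ B := by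
  choose B hB using fun v : (Fin n × Fin n) × (Fin n × Fin n) => coeff_bound (pE N v.1.1 v.1.2 v.2.1 v.2.2)
  refine ⟨∑ v, |B v|, Finset.sum_nonneg fun _ _ => abs_nonneg _, fun c a b j k => ?_⟩
  refine (hB ((c, a), (b, j)) k).trans ((le_abs_self _).trans ?_)
  exact Finset.single_le_sum (f := fun v => |B v|) (fun _ _ => abs_nonneg _) (Finset.mem_univ ((c, a), (b, j)))

theorem qu_hf (hQ : QD n Q) (hH : ∀ i j, SDc (Hp n Q i j)) {D : ℕ} {b : Fin n → Fin n → ℤ}
    (hb : ∀ i j, (b i j : ℚ) = D * Pool.Agent.Y119.HY.Bm n Q i j) :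
    QU0 (Polynomial.X * T1 D) (fun a c : Fin (n * n) => A2 n D b (ix n a) (ix n c)) := by
  classical
  obtain ⟨B, hB0, hB⟩ := pE_bound (cm (Am n))
  obtain ⟨C₁, hC₁, hs, -⟩ := Pool.Agent.Y119.HY.SDc.unif (y := fun p : Fin n × Fin n => Hp n Q p.1 p.2) fun p => hH p.1 p.2
  refine ⟨1, one_ne_zero, 0, (n * B + 1) * C₁, Matrix.of fun a c => Phi n Q (ix n a) (ix n c), fun a c k m => ?_,
    fun a c k => ?_, ?_⟩
  · rw [Matrix.of_apply, Phi_coeff, map_sum]
    have h1 : ∀ d, ‖coeff m (cx (Hp n Q (ix n a).1 d) * C ((pE (cm (Am n)) d (ix n c).1 (ix n c).2 (ix n a).2).coeff k))‖ ≤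
        C₁ ^ (m + 1) * B := by
      intro d
      rw [coeff_mul_C, norm_mul, norm_coeff_cx]
      exact mul_le_mul (hs (_, d) m) (hB _ _ _ _ _) (norm_nonneg _) (by positivity)
    refine (norm_sum_le _ _).trans ((Finset.sum_le_sum fun d _ => h1 d).trans ?_)
    rw [Finset.sum_const, Finset.card_univ, Fintype.card_fin, nsmul_eq_mul, mul_pow]
    have h2 : (n : ℝ) * B ≤ (n * B + 1) ^ (m + 1) := by
      have h3 : 0 ≤ (n : ℝ) * B := by positivity
      exact le_trans (by linarith) (le_self_pow₀ (by linarith) (by omega))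
    calc (n : ℝ) * (C₁ ^ (m + 1) * B) = (n * B) * C₁ ^ (m + 1) := by ring
      _ ≤ _ := mul_le_mul_of_nonneg_right h2 (by positivity)
  · have h1 := Phi_ode hQ hb (ix n a) (ix n c) k
    simp only [expand_poly one_ne_zero, Polynomial.expand_one]
    simp only [← cxR_apply]
    rw [Nat.cast_zero, zero_mul, sub_zero, Nat.cast_one, one_mul, pow_one]
    have h2 : ∑ l : Fin (n * n), cxR (A2 n D b (ix n a) (ix n l)) * ((Matrix.of fun a c => Phi n Q (ix n a) (ix n c)) l c).coeff k =
        ∑ l, cxR (A2 n D b (ix n a) l) * (Phi n Q l (ix n c)).coeff k :=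
      Equiv.sum_comp (ix n) fun l => cxR (A2 n D b (ix n a) l) * (Phi n Q l (ix n c)).coeff k
    rw [h2, ← h1, map_mul]
    have h3 : cxR Polynomial.X = (X : PowerSeries ℂ) := by
      rw [cxR_apply, Polynomial.map_X, Polynomial.coe_X]
    rw [h3, mul_assoc]
    rfl
  · intro h0
    have h1 := congrArg rho h0
    rw [RingHom.map_det, map_zero] at h1
    have h2 : rho.mapMatrix (Matrix.of fun a c : Fin (n * n) => Phi n Q (ix n a) (ix n c)) = 1 := by
      ext a c
      rw [RingHom.mapMatrix_apply, Matrix.map_apply, Matrix.of_apply, rho_Phi, Matrix.one_apply]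
      by_cases h3 : a = c
      · rw [if_pos h3, if_pos (by rw [h3])]
      · rw [if_neg h3, if_neg fun h4 => h3 ((ix n).injective h4)]
    rw [h2, Matrix.det_one] at h1
    exact one_ne_zero h1

/-- **the hypothesis of the theorem on tuples** -/
theorem hfam_hf (hQ : QD n Q) (hH : ∀ i j, SDc (Hp n Q i j)) (δ : ℕ) :
    ∃ (B : Finset (Fin δ → Option (Fin (n * n)))) (a : Polynomial ℤ)
      (M : (Fin δ → Option (Fin (n * n))) → B → Polynomial ℤ), a ≠ 0 ∧
      (∀ b, ps a * yw (hf n Q) b = ∑ β, ps (M b β) * yw (hf n Q) β.1) ∧ One (XF δ fun β : B => yw (hf n Q) β.1) := by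
  obtain ⟨D, b, hD, hb⟩ := exists_b n Q
  obtain ⟨q, C, hG⟩ := gsys_Hp hQ hH hb
  have hG' := hG.reindex (ix n)
  have hT : Polynomial.X * T1 D ≠ 0 := by
    refine mul_ne_zero Polynomial.X_ne_zero (mul_ne_zero (Polynomial.C_ne_zero.2 (by exact_mod_cast hD)) ?_)
    intro h0
    have := congrArg (Polynomial.eval 0) h0
    simp at this
  refine family_gsys (h := hf n Q) (A := fun a c => A2 n D b (ix n a) (ix n c)) hT (fun i => ?_) hG' (qu_hf hQ hH hb) δ
  have h1 := ode_A2 hQ hb (ix n i)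
  have h2 : ∑ j : Fin (n * n), ps (A2 n D b (ix n i) (ix n j)) * hf n Q j =
      ∑ q, ps (A2 n D b (ix n i) q) * Hp n Q q.1 q.2 :=
    Equiv.sum_comp (ix n) fun q => ps (A2 n D b (ix n i) q) * Hp n Q q.1 q.2
  exact h1.trans h2.symm

end

end Pool.Agent.Y119.HZ
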