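import Pool.Agent.Y119.HY.Rl

/-!
# Hypergeometric families: for almost all tuples of fibres all relations of bounded degree are invariant under the
symplectic groups
-/

set_option autoImplicit false

open PowerSeries Pool.Agent.Y113 Pool.Agent.Y120.GF Pool.Agent.Y120.GH

namespace Pool.Agent.Y119.HZ

open Pool.Agent.Y119.HY (QD Am Jm cm E Hf Hc Yf E_mul_neg E_isom)

variable {k : ℕ} {n : Fin k → ℕ}

/-- the coordinates of tuples of matrices -/
abbrev Ix {k : ℕ} (n : Fin k → ℕ) : Type := Σ i : Fin k, Fin (n i) × Fin (n i)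

/-- the point given by a tuple of matrices -/
def pv (X : ∀ i, Matrix (Fin (n i)) (Fin (n i)) ℂ) (v : Ix n) : ℂ := X v.1 v.2.1 v.2.2

/-- the rational coefficients of `exp (- N L)` -/
noncomputable def qe (n l : ℕ) (c d : Fin n) : ℚ := (-1) ^ l / (l.factorial : ℚ) * (Am n ^ l) c d

lemma E_qe {n : ℕ} (L : ℂ) (c d : Fin n) : E (cm (Am n)) (-L) c d = ∑ l ∈ Finset.range n, ((qe n l c d : ℚ) : ℂ) * L ^ l := by
  unfold E
  rw [Matrix.sum_apply]
  refine Finset.sum_congr rfl fun l _ => ?_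
  rw [Matrix.smul_apply, ← Pool.Agent.Y119.HY.cm_pow, Pool.Agent.Y119.HY.cm_apply, smul_eq_mul, neg_pow]
  unfold qe
  push_cast
  ring

/-- the variables -/
abbrev Vx {k : ℕ} (n : Fin k → ℕ) : Type := Σ i : Fin k, Option (Fin (n i * n i))

/-- the part with rational coefficients -/
noncomputable def rp (i : Fin k) (a c d : Fin (n i)) : MvPolynomial (Vx n) ℚ :=
  MvPolynomial.X ⟨i, some ((ix (n i)).symm (a, c))⟩ *
    ∑ l ∈ Finset.range (n i), MvPolynomial.C (qe (n i) l c d) * MvPolynomial.X ⟨i, none⟩ ^ l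

/-- the substitution -/
noncomputable def sub (Ω : ∀ i, Matrix (Fin (n i)) (Fin (n i)) ℂ) (v : Ix n) : MvPolynomial (Vx n) ℂ :=
  ∑ c, ∑ d, MvPolynomial.map (algebraMap ℚ ℂ) (rp v.1 v.2.1 c d) * MvPolynomial.C (Ω v.1 d v.2.2)

lemma aeval_rp (Z : ∀ i, Matrix (Fin (n i)) (Fin (n i)) ℂ) (l : Fin k → ℂ) (i : Fin k) (a c d : Fin (n i)) :
    MvPolynomial.aeval (pt (fun i j => Z i (ix (n i) j).1 (ix (n i) j).2) l)
      (MvPolynomial.map (algebraMap ℚ ℂ) (rp i a c d)) = Z i a c * E (cm (Am (n i))) (-l i) c d := by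
  unfold rp
  rw [map_mul, map_mul, MvPolynomial.map_X, MvPolynomial.aeval_X, map_sum, map_sum, E_qe]
  congr 1
  · unfold pt
    simp
  · refine Finset.sum_congr rfl fun e _ => ?_
    rw [map_mul, map_mul, map_pow, map_pow, MvPolynomial.map_X, MvPolynomial.aeval_X, MvPolynomial.map_C, MvPolynomial.aeval_C]
    rfl

lemma aeval_sub (Ω : ∀ i, Matrix (Fin (n i)) (Fin (n i)) ℂ) (Z : ∀ i, Matrix (Fin (n i)) (Fin (n i)) ℂ) (l : Fin k → ℂ)
    (v : Ix n) : MvPolynomial.aeval (pt (fun i j => Z i (ix (n i) j).1 (ix (n i) j).2) l) (sub Ω v) =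
      pv (fun i => Z i * E (cm (Am (n i))) (-l i) * Ω i) v := by
  show _ = (Z v.1 * E (cm (Am (n v.1))) (-l v.1) * Ω v.1) v.2.1 v.2.2
  unfold sub
  rw [map_sum, Matrix.mul_apply]
  simp only [map_sum, map_mul, aeval_rp, Matrix.mul_apply, Finset.sum_mul]
  rw [Finset.sum_comm]
  refine Finset.sum_congr rfl fun d _ => Finset.sum_congr rfl fun c _ => ?_
  rw [MvPolynomial.aeval_C]
  rfl

/-! ### degrees -/

/-- the degree of the substitution -/
def dg (n : Fin k → ℕ) : ℕ := 1 + ∑ i, n i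

lemma deg_sub (Ω : ∀ i, Matrix (Fin (n i)) (Fin (n i)) ℂ) (v : Ix n) : (sub Ω v).totalDegree ≤ dg n := by
  unfold sub
  refine (MvPolynomial.totalDegree_finsetSum _ _).trans (Finset.sup_le fun c _ => ?_)
  refine (MvPolynomial.totalDegree_finsetSum _ _).trans (Finset.sup_le fun d _ => ?_)
  refine (MvPolynomial.totalDegree_mul _ _).trans ?_
  rw [MvPolynomial.totalDegree_C, add_zero]
  have h0 : (MvPolynomial.map (algebraMap ℚ ℂ) (rp v.1 v.2.1 c d)).totalDegree ≤ (rp v.1 v.2.1 c d).totalDegree :=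
    Finset.sup_mono (MvPolynomial.support_map_subset _ _)
  refine h0.trans ?_
  unfold rp
  refine (MvPolynomial.totalDegree_mul _ _).trans ?_
  rw [MvPolynomial.totalDegree_X]
  have h1 : n v.1 ≤ ∑ i, n i := Finset.single_le_sum (f := n) (fun _ _ => Nat.zero_le _) (Finset.mem_univ _)
  have h2 : (∑ l ∈ Finset.range (n v.1), MvPolynomial.C (qe (n v.1) l c d) *
      (MvPolynomial.X ⟨v.1, none⟩ : MvPolynomial (Vx n) ℚ) ^ l).totalDegree ≤ n v.1 := by
    refine (MvPolynomial.totalDegree_finsetSum _ _).trans (Finset.sup_le fun l hl => ?_)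
    refine (MvPolynomial.totalDegree_mul _ _).trans ?_
    rw [MvPolynomial.totalDegree_C, zero_add, MvPolynomial.totalDegree_X_pow]
    exact (Finset.mem_range.1 hl).le
  unfold dg
  omega

/-! ### coefficients -/

/-- polynomials with coefficients in `V` -/
def MV (V : Submodule ℚ ℂ) (p : MvPolynomial (Vx n) ℂ) : Prop := ∀ m, p.coeff m ∈ V

lemma MV.add {V : Submodule ℚ ℂ} {p q : MvPolynomial (Vx n) ℂ} (hp : MV V p) (hq : MV V q) : MV V (p + q) := fun m => by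
  rw [MvPolynomial.coeff_add]
  exact V.add_mem (hp m) (hq m)

lemma MV.sum {V : Submodule ℚ ℂ} {σ : Type*} (S : Finset σ) {p : σ → MvPolynomial (Vx n) ℂ} (h : ∀ i ∈ S, MV V (p i)) :
    MV V (∑ i ∈ S, p i) := fun m => by
  rw [MvPolynomial.coeff_sum]
  exact Submodule.sum_mem _ fun i hi => h i hi m

lemma MV.mul_rat {V : Submodule ℚ ℂ} {p : MvPolynomial (Vx n) ℂ} (hp : MV V p) (q : MvPolynomial (Vx n) ℚ) :
    MV V (p * MvPolynomial.map (algebraMap ℚ ℂ) q) := fun m => by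
  classical
  rw [MvPolynomial.coeff_mul]
  refine Submodule.sum_mem _ fun x _ => ?_
  rw [MvPolynomial.coeff_map]
  have h1 : p.coeff x.1 * algebraMap ℚ ℂ (q.coeff x.2) = q.coeff x.2 • p.coeff x.1 := by
    rw [Algebra.smul_def, mul_comm]
  rw [h1]
  exact V.smul_mem _ (hp _)

/-- the constants -/
noncomputable def fo (Ω : ∀ i, Matrix (Fin (n i)) (Fin (n i)) ℂ) (o : Option (Ix n)) : ℂ := o.elim 1 fun v => Ω v.1 v.2.1 v.2.2

lemma mem_Ext_one {V : Submodule ℚ ℂ} (Ω : ∀ i, Matrix (Fin (n i)) (Fin (n i)) ℂ) (o : Option (Ix n)) {c : ℂ} (hc : c ∈ V) :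
    c * fo Ω o ∈ Ext V (fo Ω) := by
  classical
  have h1 := mem_Ext V (fo Ω) (v := fun b => if b = o then c else 0) (fun b => by
    split_ifs
    · exact hc
    · exact V.zero_mem)
  simpa using h1

lemma MV.ext {V : Submodule ℚ ℂ} (Ω : ∀ i, Matrix (Fin (n i)) (Fin (n i)) ℂ) {p : MvPolynomial (Vx n) ℂ} (hp : MV V p) :
    MV (Ext V (fo Ω)) p := fun m => by
  have := mem_Ext_one Ω none (hp m)
  rwa [show fo Ω none = 1 from rfl, mul_one] at this

lemma MV.mul_sub {V : Submodule ℚ ℂ} (Ω : ∀ i, Matrix (Fin (n i)) (Fin (n i)) ℂ) {p : MvPolynomial (Vx n) ℂ} (hp : MV V p)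
    (v : Ix n) : MV (Ext V (fo Ω)) (p * sub Ω v) := by
  unfold sub
  rw [Finset.mul_sum]
  refine MV.sum _ fun c _ => ?_
  rw [Finset.mul_sum]
  refine MV.sum _ fun d _ => ?_
  rw [← mul_assoc]
  intro m
  rw [mul_comm, MvPolynomial.coeff_C_mul, mul_comm]
  exact mem_Ext_one Ω (some ⟨v.1, d, v.2.2⟩) (hp.mul_rat _ m)

/-- the iterated extensions -/
noncomputable def Vn (Ω : ∀ i, Matrix (Fin (n i)) (Fin (n i)) ℂ) (V : Submodule ℚ ℂ) : ℕ → Submodule ℚ ℂ
  | 0 => V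
  | d + 1 => Ext (Vn Ω V d) (fo Ω)

lemma Vn_fin (Ω : ∀ i, Matrix (Fin (n i)) (Fin (n i)) ℂ) (V : Submodule ℚ ℂ) [Module.Finite ℚ V] (d : ℕ) :
    Module.Finite ℚ (Vn Ω V d) ∧ Module.finrank ℚ (Vn Ω V d) ≤ (Fintype.card (Option (Ix n))) ^ d * Module.finrank ℚ V := by
  induction d with
  | zero =>
    refine ⟨?_, ?_⟩
    · show Module.Finite ℚ V
      infer_instance
    · rw [pow_zero, one_mul]
      exact le_rfl
  | succ d ih =>
    have := ih.1
    refine ⟨?_, ?_⟩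
    · show Module.Finite ℚ (Ext (Vn Ω V d) (fo Ω))
      infer_instance
    · have h1 := finrank_Ext (Vn Ω V d) (fo Ω)
      refine h1.trans ?_
      rw [pow_succ', mul_assoc]
      exact Nat.mul_le_mul_left _ ih.2

lemma MV_mono (Ω : ∀ i, Matrix (Fin (n i)) (Fin (n i)) ℂ) {V : Submodule ℚ ℂ} {d e : ℕ} (h : d ≤ e)
    {p : MvPolynomial (Vx n) ℂ} (hp : MV (Vn Ω V d) p) : MV (Vn Ω V e) p := by
  induction e, h using Nat.le_induction with
  | base => exact hp
  | succ e _ ih => exact MV.ext Ω ih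

lemma MV_ms (Ω : ∀ i, Matrix (Fin (n i)) (Fin (n i)) ℂ) {V : Submodule ℚ ℂ} {c : ℂ} (hc : c ∈ V) (ms : Multiset (Ix n)) :
    MV (Vn Ω V (Multiset.card ms)) (MvPolynomial.C c * (ms.map (sub Ω)).prod) ∧
      (MvPolynomial.C c * (ms.map (sub Ω)).prod).totalDegree ≤ Multiset.card ms * dg n := by
  classical
  induction ms using Multiset.induction_on with
  | empty =>
    rw [Multiset.map_zero, Multiset.prod_zero, mul_one, Multiset.card_zero, zero_mul, MvPolynomial.totalDegree_C]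
    refine ⟨fun m => ?_, le_rfl⟩
    rw [MvPolynomial.coeff_C]
    split_ifs
    · exact hc
    · exact V.zero_mem
  | cons v ms ih =>
    have h1 : MvPolynomial.C c * ((v ::ₘ ms).map (sub Ω)).prod = (MvPolynomial.C c * (ms.map (sub Ω)).prod) * sub Ω v := by
      rw [Multiset.map_cons, Multiset.prod_cons]
      ring
    rw [h1, Multiset.card_cons]
    refine ⟨MV.mul_sub Ω ih.1 v, (MvPolynomial.totalDegree_mul _ _).trans ?_⟩
    rw [add_mul, one_mul]
    exact add_le_add ih.2 (deg_sub Ω v)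

/-- the substituted polynomial -/
theorem aeval_MV (Ω : ∀ i, Matrix (Fin (n i)) (Fin (n i)) ℂ) {V : Submodule ℚ ℂ} {δ : ℕ} {P : MvPolynomial (Ix n) ℂ}
    (hP : P.totalDegree ≤ δ) (hV : ∀ s, P.coeff s ∈ V) :
    MV (Vn Ω V δ) (MvPolynomial.aeval (sub Ω) P) ∧ (MvPolynomial.aeval (sub Ω) P).totalDegree ≤ δ * dg n := by
  classical
  have h1 : MvPolynomial.aeval (sub Ω) P = ∑ s ∈ P.support, MvPolynomial.C (P.coeff s) *
      ((Finsupp.toMultiset s).map (sub Ω)).prod := by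
    rw [MvPolynomial.aeval_def, MvPolynomial.eval₂_eq]
    refine Finset.sum_congr rfl fun s _ => ?_
    congr 1
    rw [Finsupp.toMultiset_map, Finsupp.prod_toMultiset, Finsupp.prod_mapDomain_index (by simp) (by
      intro a b c
      rw [pow_add])]
    rfl
  have h2 : ∀ s ∈ P.support, Multiset.card (Finsupp.toMultiset s) ≤ δ := by
    intro s hs
    rw [Finsupp.card_toMultiset]
    exact (MvPolynomial.le_totalDegree hs).trans hP
  rw [h1]
  refine ⟨MV.sum _ fun s hs => MV_mono Ω (h2 s hs) (MV_ms Ω (hV s) _).1, ?_⟩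
  refine (MvPolynomial.totalDegree_finsetSum _ _).trans (Finset.sup_le fun s hs => ?_)
  exact (MV_ms Ω (hV s) _).2.trans (Nat.mul_le_mul_right _ (h2 s hs))

/-! ### specialised relations vanish at the orbit -/

lemma spec_eq (t : ℕ) : spec t = evq (((1 / (t : ℝ) : ℝ)) : ℂ) := by
  refine Polynomial.ringHom_ext (fun a => ?_) ?_
  · unfold spec evq
    simp
  · unfold spec evq
    show algebraMap ℚ ℂ (Polynomial.eval _ Polynomial.X) = Polynomial.aeval _ Polynomial.X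
    rw [Polynomial.eval_X, Polynomial.aeval_X]
    push_cast
    simp

variable {Q : Fin k → Polynomial ℚ}

theorem relI_vanish (hQ : ∀ i, QD (n i) (Q i)) {δ : ℕ} {t : Fin k → ℕ} (ht : ∀ i, 2 ≤ t i)
    {κ : ∀ i, Matrix (Fin (n i)) (Fin (n i)) ℂ}
    (hκ : ∀ i, (κ i).transpose * cm (Jm (n i) (Q i)) * κ i = cm (Jm (n i) (Q i))) (l : Fin k → ℂ)
    {P : MvPolynomial (Vx n) ℂ} (hP : P ∈ relI δ (fun i => hf (n i) (Q i)) t) :
    MvPolynomial.aeval (pt (fun i j => (Hf (Hc (n i) (Q i)) (((1 / (t i : ℝ) : ℝ)) : ℂ) * κ i) (ix (n i) j).1 (ix (n i) j).2) l) P = 0 := by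
  set θ := pt (fun i j => (Hf (Hc (n i) (Q i)) (((1 / (t i : ℝ) : ℝ)) : ℂ) * κ i) (ix (n i) j).1 (ix (n i) j).2) l with hθ
  have h1 : relI δ (fun i => hf (n i) (Q i)) t ≤ RingHom.ker (MvPolynomial.aeval (R := ℂ) θ).toRingHom := by
    unfold relI
    rw [Ideal.span_le]
    rintro _ ⟨i, R, -, hR, rfl⟩
    show (MvPolynomial.aeval θ) (MvPolynomial.rename (fun j => (⟨i, some j⟩ : Vx n)) (MvPolynomial.map (spec (t i)) R)) = 0
    rw [MvPolynomial.aeval_rename, MvPolynomial.aeval_def, MvPolynomial.eval₂_map]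
    have h2 : (algebraMap ℂ ℂ).comp (spec (t i)) = evq (((1 / (t i : ℝ) : ℝ)) : ℂ) := by
      rw [← spec_eq]
      rfl
    rw [h2]
    have h3 : (2 : ℝ) ≤ t i := by exact_mod_cast ht i
    have h4 := rel_inv (hQ i) (R := R) hR (x := 1 / (t i : ℝ)) (by positivity) (by rw [div_lt_one (by linarith)]; linarith)
      (hκ i)
    have h5 : (θ ∘ fun j => (⟨i, some j⟩ : Vx n)) = fun j : Fin (n i * n i) =>
        (Hf (Hc (n i) (Q i)) (((1 / (t i : ℝ) : ℝ)) : ℂ) * κ i) (ix (n i) j).1 (ix (n i) j).2 := by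
      funext j
      rfl
    rw [h5]
    exact h4
  exact h1 hP

/-- the period matrix at `1 / t` -/
noncomputable def Yt (n : ℕ) (Q : Polynomial ℚ) (t : ℕ) : Matrix (Fin n) (Fin n) ℂ :=
  Hf (Hc n Q) (((1 / (t : ℝ) : ℝ)) : ℂ) * E (cm (Am n)) (-((Real.log t : ℝ) : ℂ))

/-- **Few exceptional tuples.** -/
theorem hyp_tuples (k δ D : ℕ) (n : Fin k → ℕ) (Q : Fin k → Polynomial ℚ) (hQ : ∀ i, QD (n i) (Q i))
    (hH : ∀ i a b, SDc (Hp (n i) (Q i) a b)) :
    ∃ c C : ℝ, 0 < c ∧ 0 ≤ C ∧ ∀ (V : Submodule ℚ ℂ) [Module.Finite ℚ V], Module.finrank ℚ V ≤ D →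
      ∀ Ω : (∀ i, Matrix (Fin (n i)) (Fin (n i)) ℂ), ∀ (x : Fin k → ℕ) (N : ℕ), (∀ i, 1 ≤ x i) → 1 ≤ N →
      ∀ S : Finset (Fin k → ℕ), (∀ t ∈ S, (∀ i, x i < t i ∧ t i ≤ x i + N) ∧ ∃ P : MvPolynomial (Ix n) ℂ,
        P.totalDegree ≤ δ ∧ (∀ s, P.coeff s ∈ V) ∧
        MvPolynomial.aeval (pv fun i => Yt (n i) (Q i) (t i) * Ω i) P = 0 ∧
        ∃ g : (∀ i, Matrix (Fin (n i)) (Fin (n i)) ℂ),
          (∀ i, (g i).transpose * cm (Jm (n i) (Q i)) * g i = cm (Jm (n i) (Q i))) ∧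
          MvPolynomial.aeval (pv fun i => Yt (n i) (Q i) (t i) * g i * Ω i) P ≠ 0) →
      (S.card : ℝ) ≤ C * (N : ℝ) ^ (k - 1) * ∑ i, (1 + N / ((x i : ℝ) + N) ^ c) := by
  classical
  obtain ⟨c, C, hc, hC, hmain⟩ := tuples k (δ * dg n) ((Fintype.card (Option (Ix n))) ^ δ * D) (fun i => n i * n i)
    (fun i => hf (n i) (Q i)) (fun i => by
      obtain ⟨C₁, -, hs, -⟩ := Pool.Agent.Y119.HY.SDc.unif
        (y := fun p : Fin (n i) × Fin (n i) => Hp (n i) (Q i) p.1 p.2) fun p => hH i p.1 p.2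
      exact ⟨C₁, fun j m => hs (ix (n i) j) m⟩) (fun i => hfam_hf (hQ i) (hH i) _)
  refine ⟨c, C, hc, hC, ?_⟩
  intro V _ hV Ω x N hx hN S hS
  obtain ⟨hfin, hrank⟩ := Vn_fin Ω V δ
  refine hmain (Vn Ω V δ) (hrank.trans (Nat.mul_le_mul_left _ hV)) x N hN S fun t htS => ?_
  obtain ⟨hbox, P, hPd, hPV, hP0, g, hg, hPg⟩ := hS t htS
  refine ⟨hbox, MvPolynomial.aeval (sub Ω) P, (aeval_MV Ω hPd hPV).2, (aeval_MV Ω hPd hPV).1, ?_, ?_⟩
  · -- the value
    have h1 : valpt (fun i => hf (n i) (Q i)) t =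
        pt (fun i j => Hf (Hc (n i) (Q i)) (((1 / (t i : ℝ) : ℝ)) : ℂ) (ix (n i) j).1 (ix (n i) j).2)
          (fun i => ((Real.log (t i) : ℝ) : ℂ)) := by
      unfold valpt
      congr 1
      funext i j
      exact ev_Hp _ _ _
    have h2 : MvPolynomial.aeval (valpt (fun i => hf (n i) (Q i)) t) (MvPolynomial.aeval (sub Ω) P) =
        MvPolynomial.aeval (fun v => MvPolynomial.aeval (valpt (fun i => hf (n i) (Q i)) t) (sub Ω v)) P :=
      MvPolynomial.aeval_bind₁ _ _ _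
    rw [h2, h1]
    have h3 := fun v => aeval_sub Ω (fun i => Hf (Hc (n i) (Q i)) (((1 / (t i : ℝ) : ℝ)) : ℂ)) (fun i => ((Real.log (t i) : ℝ) : ℂ)) v
    simp only [h3]
    exact hP0
  · intro hmem
    apply hPg
    set N' := fun i => cm (Am (n i)) with hN'
    set L : Fin k → ℂ := fun i => ((Real.log (t i) : ℝ) : ℂ) with hL
    have ht2 : ∀ i, 2 ≤ t i := fun i => by
      have := (hbox i).1
      have := hx i
      omega
    let κ : ∀ i, Matrix (Fin (n i)) (Fin (n i)) ℂ := fun i => E (N' i) (-L i) * g i * E (N' i) (L i)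
    have hκ : ∀ i, (κ i).transpose * cm (Jm (n i) (Q i)) * κ i = cm (Jm (n i) (Q i)) := by
      intro i
      have hN : (N' i) ^ n i = 0 := Pool.Agent.Y119.HY.Ac_nil
      have hNJ : (N' i).transpose * cm (Jm (n i) (Q i)) + cm (Jm (n i) (Q i)) * N' i = 0 := Pool.Agent.Y119.HY.Jc_rel
      have i1 := E_isom hN hNJ (-L i)
      have i2 := E_isom hN hNJ (L i)
      calc (κ i).transpose * cm (Jm (n i) (Q i)) * κ i =
            (E (N' i) (L i)).transpose * ((g i).transpose * ((E (N' i) (-L i)).transpose * cm (Jm (n i) (Q i)) *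
              E (N' i) (-L i)) * g i) * E (N' i) (L i) := by
              show (E (N' i) (-L i) * g i * E (N' i) (L i)).transpose * cm (Jm (n i) (Q i)) *
                (E (N' i) (-L i) * g i * E (N' i) (L i)) = _
              rw [Matrix.transpose_mul, Matrix.transpose_mul]
              simp only [Matrix.mul_assoc]
        _ = _ := by rw [i1, hg i, i2]
    have h1 := relI_vanish hQ ht2 hκ L hmem
    have h2 : MvPolynomial.aeval (pt (fun i j => (Hf (Hc (n i) (Q i)) (((1 / (t i : ℝ) : ℝ)) : ℂ) * κ i)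
        (ix (n i) j).1 (ix (n i) j).2) L) (MvPolynomial.aeval (sub Ω) P) =
        MvPolynomial.aeval (fun v => MvPolynomial.aeval (pt (fun i j => (Hf (Hc (n i) (Q i)) (((1 / (t i : ℝ) : ℝ)) : ℂ) * κ i)
          (ix (n i) j).1 (ix (n i) j).2) L) (sub Ω v)) P := MvPolynomial.aeval_bind₁ _ _ _
    rw [h2] at h1
    have h3 := fun v => aeval_sub Ω (fun i => Hf (Hc (n i) (Q i)) (((1 / (t i : ℝ) : ℝ)) : ℂ) * κ i) L v
    simp only [h3] at h1
    have h4 : (fun i => Hf (Hc (n i) (Q i)) (((1 / (t i : ℝ) : ℝ)) : ℂ) * κ i * E (cm (Am (n i))) (-L i) * Ω i) =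
        fun i => Yt (n i) (Q i) (t i) * g i * Ω i := by
      funext i
      have hN : (N' i) ^ n i = 0 := Pool.Agent.Y119.HY.Ac_nil
      have e1 : E (N' i) (L i) * E (N' i) (-L i) = 1 := E_mul_neg hN (L i)
      have e2 : κ i * E (N' i) (-L i) = E (N' i) (-L i) * g i := by
        show E (N' i) (-L i) * g i * E (N' i) (L i) * E (N' i) (-L i) = _
        rw [Matrix.mul_assoc, e1, mul_one]
      unfold Yt
      rw [Matrix.mul_assoc (Hf (Hc (n i) (Q i)) (((1 / (t i : ℝ) : ℝ)) : ℂ)) (κ i), e2]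
      simp only [Matrix.mul_assoc]
      rfl
    rw [h4] at h1
    exact h1

end Pool.Agent.Y119.HZ
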