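import Pool.Agent.Y113.HGGal
import Pool.Agent.Y113.P.SD

/-!
# Sequences of rational polynomials with geometric sizes and denominators
-/

set_option autoImplicit false

open PowerSeries Finset.HasAntidiagonal

namespace Pool.Agent.Y119.HY

open Pool.Agent.Y113

/-- degree `q s`, size and common denominator geometric -/
def GP (q : ℕ) (P : ℕ → Polynomial ℚ) : Prop :=
  ∃ C : ℝ, 1 ≤ C ∧ (∀ s, Bq (q * s) (C ^ (s + 1)) (P s)) ∧
    ∀ k, ∃ g : ℕ, 0 < g ∧ (g : ℝ) ≤ C ^ (k + 1) ∧ ∀ s ≤ k, IP g (P s)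

lemma IP.mul' {g h : ℕ} {P Q : Polynomial ℚ} (hP : IP g P) (hQ : IP h Q) : IP (g * h) (P * Q) := by
  obtain ⟨P', hP'⟩ := hP
  obtain ⟨Q', hQ'⟩ := hQ
  refine ⟨P' * Q', ?_⟩
  rw [Polynomial.map_mul, hP', hQ', Nat.cast_mul, Polynomial.C_mul]
  ring

lemma IP.mul_right' {g : ℕ} {P : Polynomial ℚ} (h : IP g P) (n : ℕ) : IP (g * n) P := by
  rw [mul_comm]
  exact IP.mul_left h n

lemma IP.add' {g : ℕ} {P Q : Polynomial ℚ} (hP : IP g P) (hQ : IP g Q) : IP g (P + Q) := by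
  obtain ⟨P', hP'⟩ := hP
  obtain ⟨Q', hQ'⟩ := hQ
  exact ⟨P' + Q', by rw [Polynomial.map_add, hP', hQ', mul_add]⟩

section
variable {q : ℕ} {P R : ℕ → Polynomial ℚ}

lemma GP.zero (q : ℕ) : GP q fun _ => 0 := by
  refine ⟨1, le_rfl, fun s => Bq.zero.mono (Nat.zero_le _) (by simp), fun k => ⟨1, one_pos, by simp, fun s _ => IP.zero 1⟩⟩

lemma GP.add (hP : GP q P) (hR : GP q R) : GP q fun s => P s + R s := by
  obtain ⟨C, hC, h1, h2⟩ := hP
  obtain ⟨D, hD, h3, h4⟩ := hR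
  have hC0 : 0 < C := by linarith
  have hD0 : 0 < D := by linarith
  have hCD : C ≤ C * D := le_mul_of_one_le_right hC0.le hD
  have hDC : D ≤ C * D := le_mul_of_one_le_left hD0.le hC
  have hCD1 : 1 ≤ C * D := hC.trans hCD
  refine ⟨2 * (C * D), by linarith, fun s => ?_, fun k => ?_⟩
  · refine ((h1 s).add (h3 s)).mono le_rfl ?_
    have e1 : C ^ (s + 1) ≤ (C * D) ^ (s + 1) := pow_le_pow_left₀ hC0.le hCD _
    have e2 : D ^ (s + 1) ≤ (C * D) ^ (s + 1) := pow_le_pow_left₀ hD0.le hDC _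
    have e3 : (2 : ℝ) ≤ 2 ^ (s + 1) := le_self_pow₀ (by norm_num) (by omega)
    rw [mul_pow]
    have e4 : 0 ≤ (C * D) ^ (s + 1) := by positivity
    nlinarith
  · obtain ⟨g, hg0, hg, hg'⟩ := h2 k
    obtain ⟨h, hh0, hh, hh'⟩ := h4 k
    refine ⟨g * h, Nat.mul_pos hg0 hh0, ?_, fun s hs => IP.add' (IP.mul_right' (hg' s hs) _) (IP.mul_left (hh' s hs) _)⟩
    push_cast
    calc (g : ℝ) * h ≤ C ^ (k + 1) * D ^ (k + 1) := mul_le_mul hg hh (by positivity) (by positivity)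
      _ = (C * D) ^ (k + 1) := by rw [mul_pow]
      _ ≤ _ := pow_le_pow_left₀ (by positivity) (by linarith) _

lemma GP.sum {σ : Type*} (S : Finset σ) {P : σ → ℕ → Polynomial ℚ} (h : ∀ i ∈ S, GP q (P i)) :
    GP q fun s => ∑ i ∈ S, P i s := by
  classical
  induction S using Finset.induction_on with
  | empty => simpa using GP.zero q
  | insert a S ha ih =>
    simp only [Finset.sum_insert ha]
    exact (h a (Finset.mem_insert_self _ _)).add (ih fun i hi => h i (Finset.mem_insert_of_mem hi))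

lemma succ_le_two_pow (s : ℕ) : ((s : ℝ) + 1) ≤ 2 ^ (s + 1) := by
  have : s + 1 ≤ 2 ^ (s + 1) := (Nat.lt_two_pow_self).le
  exact_mod_cast this

lemma lin_le_pow (q s : ℕ) : ((q * s : ℕ) : ℝ) + 1 ≤ (2 * ((q : ℝ) + 1)) ^ (s + 1) := by
  rw [mul_pow]
  have h1 := succ_le_two_pow s
  have h2 : (1 : ℝ) ≤ (q : ℝ) + 1 := by
    have : (0 : ℝ) ≤ q := by positivity
    linarith
  have h3 : (q : ℝ) + 1 ≤ ((q : ℝ) + 1) ^ (s + 1) := le_self_pow₀ h2 (by omega)
  push_cast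
  have hs : (0 : ℝ) ≤ s := by positivity
  have hq : (0 : ℝ) ≤ q := by positivity
  calc (q : ℝ) * s + 1 ≤ ((s : ℝ) + 1) * ((q : ℝ) + 1) := by nlinarith
    _ ≤ 2 ^ (s + 1) * ((q : ℝ) + 1) ^ (s + 1) := mul_le_mul h1 h3 (by positivity) (by positivity)

/-- Cauchy products -/
lemma GP.cauchy (hP : GP q P) (hR : GP q R) : GP q fun s => ∑ p ∈ antidiagonal s, P p.1 * R p.2 := by
  obtain ⟨C, hC, h1, h2⟩ := hP
  obtain ⟨D, hD, h3, h4⟩ := hR
  have hC0 : 0 < C := by linarith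
  have hD0 : 0 < D := by linarith
  have hCD1 : 1 ≤ C * D := hC.trans (le_mul_of_one_le_right hC0.le hD)
  have hq : (0 : ℝ) ≤ q := by positivity
  have hbig : C * D ≤ 2 * (2 * ((q : ℝ) + 1)) * (C * D) := by
    have : 0 ≤ C * D := by linarith
    nlinarith
  refine ⟨2 * (2 * ((q : ℝ) + 1)) * (C * D), hCD1.trans hbig, fun s => ?_, fun k => ?_⟩
  · have hterm : ∀ p ∈ antidiagonal s, Bq (q * s) ((2 * ((q : ℝ) + 1)) ^ (s + 1) * (C * D) ^ (s + 1)) (P p.1 * R p.2) := by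
      intro p hp
      rw [mem_antidiagonal] at hp
      refine ((h1 p.1).mul (h3 p.2)).mono ?_ ?_
      · rw [← mul_add, hp]
      · have e0 : ((q * p.1 : ℕ) : ℝ) + 1 ≤ (2 * ((q : ℝ) + 1)) ^ (s + 1) := by
          refine le_trans ?_ (lin_le_pow q s)
          have : q * p.1 ≤ q * s := Nat.mul_le_mul_left _ (by omega)
          have : ((q * p.1 : ℕ) : ℝ) ≤ ((q * s : ℕ) : ℝ) := by exact_mod_cast this
          linarith
        have e1 : C ^ (p.1 + 1) ≤ C ^ (s + 1) := pow_le_pow_right₀ hC (by omega)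
        have e2 : D ^ (p.2 + 1) ≤ D ^ (s + 1) := pow_le_pow_right₀ hD (by omega)
        rw [mul_pow C D]
        exact mul_le_mul e0 (mul_le_mul e1 e2 (by positivity) (by positivity)) (by positivity) (by positivity)
    refine (Bq.sum _ hterm).mono le_rfl ?_
    rw [Finset.Nat.card_antidiagonal]
    have e5 := succ_le_two_pow s
    have e6 : (0 : ℝ) ≤ (2 * ((q : ℝ) + 1)) ^ (s + 1) * (C * D) ^ (s + 1) := by positivity
    calc (((s + 1 : ℕ)) : ℝ) * ((2 * ((q : ℝ) + 1)) ^ (s + 1) * (C * D) ^ (s + 1)) ≤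
          2 ^ (s + 1) * ((2 * ((q : ℝ) + 1)) ^ (s + 1) * (C * D) ^ (s + 1)) := by
            refine mul_le_mul_of_nonneg_right ?_ e6
            push_cast
            exact e5
      _ = _ := by
          rw [mul_pow (2 * (2 * ((q : ℝ) + 1))), mul_pow 2 (2 * ((q : ℝ) + 1))]
          ring
  · obtain ⟨g, hg0, hg, hg'⟩ := h2 k
    obtain ⟨h, hh0, hh, hh'⟩ := h4 k
    refine ⟨g * h, Nat.mul_pos hg0 hh0, ?_, fun s hs => IP.sum _ fun p hp => ?_⟩
    · push_cast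
      calc (g : ℝ) * h ≤ C ^ (k + 1) * D ^ (k + 1) := mul_le_mul hg hh (by positivity) (by positivity)
        _ = (C * D) ^ (k + 1) := by rw [mul_pow]
        _ ≤ _ := pow_le_pow_left₀ (by positivity) hbig _
    · rw [mem_antidiagonal] at hp
      exact IP.mul' (hg' p.1 (by omega)) (hh' p.2 (by omega))

/-- multiplication by rational numbers -/
lemma GP.smul {c : ℕ → ℚ} (hc : GP 0 fun s => Polynomial.C (c s)) (hP : GP q P) : GP q fun s => Polynomial.C (c s) * P s := by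
  obtain ⟨C, hC, h1, h2⟩ := hc
  obtain ⟨D, hD, h3, h4⟩ := hP
  have hC0 : 0 < C := by linarith
  have hD0 : 0 < D := by linarith
  refine ⟨C * D, hC.trans (le_mul_of_one_le_right hC0.le hD), fun s => ?_, fun k => ?_⟩
  · have h5 := (h1 s).2 0
    rw [Polynomial.coeff_C_zero] at h5
    rw [mul_pow]
    exact (h3 s).C_mul h5
  · obtain ⟨g, hg0, hg, hg'⟩ := h2 k
    obtain ⟨h, hh0, hh, hh'⟩ := h4 k
    refine ⟨g * h, Nat.mul_pos hg0 hh0, ?_, fun s hs => IP.mul' (hg' s hs) (hh' s hs)⟩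
    push_cast
    rw [mul_pow]
    exact mul_le_mul hg hh (by positivity) (by positivity)

/-- sequences of rational numbers -/
lemma GP.const {c : ℕ → ℚ} (h1 : ∃ A : ℝ, ∀ s, |((c s : ℚ) : ℝ)| ≤ A ^ (s + 1))
    (h2 : ∃ A : ℝ, ∀ k, ∃ g : ℕ, 0 < g ∧ (g : ℝ) ≤ A ^ (k + 1) ∧ ∀ s ≤ k, ∃ a : ℤ, (g : ℚ) * c s = a) :
    GP 0 fun s => Polynomial.C (c s) := by
  obtain ⟨A, hA⟩ := h1
  obtain ⟨B, hB⟩ := h2
  have hmax : ∀ x : ℝ, ∀ n : ℕ, |x| ≤ |A| + |B| + 1 → x ^ n ≤ (|A| + |B| + 1) ^ n := by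
    intro x n hx
    refine (le_abs_self _).trans ?_
    rw [abs_pow]
    exact pow_le_pow_left₀ (abs_nonneg _) hx _
  have hA0 := abs_nonneg A
  have hB0 := abs_nonneg B
  refine ⟨|A| + |B| + 1, by linarith, fun s => ⟨by simp, fun l => ?_⟩, fun k => ?_⟩
  · rw [Polynomial.coeff_C]
    split_ifs
    · exact (hA s).trans (hmax A _ (by linarith))
    · simp
      positivity
  · obtain ⟨g, hg0, hg, hg'⟩ := hB k
    refine ⟨g, hg0, hg.trans (hmax B _ (by linarith)), fun s hs => IP.of_coeff fun l => ?_⟩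
    rw [Polynomial.coeff_C]
    split_ifs
    · exact hg' s hs
    · exact ⟨0, by simp⟩

/-- powers of an integer polynomial -/
lemma GP.pow {T : Polynomial ℤ} (hT : T.natDegree ≤ q) : GP q fun s => (T.map (Int.castRingHom ℚ)) ^ s := by
  obtain ⟨B, hB1, hB⟩ : ∃ B : ℝ, 1 ≤ B ∧ ∀ l, |(((T.map (Int.castRingHom ℚ)).coeff l : ℚ) : ℝ)| ≤ B := by
    refine ⟨1 + ∑ l ∈ Finset.range (q + 1), |((T.coeff l : ℤ) : ℝ)|, ?_, fun l => ?_⟩
    · have : 0 ≤ ∑ l ∈ Finset.range (q + 1), |((T.coeff l : ℤ) : ℝ)| := Finset.sum_nonneg fun _ _ => abs_nonneg _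
      linarith
    · rw [Polynomial.coeff_map]
      have h0 : 0 ≤ ∑ l ∈ Finset.range (q + 1), |((T.coeff l : ℤ) : ℝ)| := Finset.sum_nonneg fun _ _ => abs_nonneg _
      by_cases hl : l < q + 1
      · have h1 := Finset.single_le_sum (f := fun l => |((T.coeff l : ℤ) : ℝ)|) (fun _ _ => abs_nonneg _) (Finset.mem_range.2 hl)
        have h2 : (((Int.castRingHom ℚ) (T.coeff l) : ℚ) : ℝ) = ((T.coeff l : ℤ) : ℝ) := by simp
        rw [h2]
        linarith
      · rw [Polynomial.coeff_eq_zero_of_natDegree_lt (by omega)]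
        simp
        linarith
  have hTB : Bq q B (T.map (Int.castRingHom ℚ)) := ⟨by
    rw [Polynomial.natDegree_map_eq_of_injective (RingHom.injective_int _)]
    exact hT, hB⟩
  have hq : (0 : ℝ) ≤ q := by positivity
  have h1 : 1 ≤ ((q : ℝ) + 1) * B := by nlinarith
  refine ⟨((q : ℝ) + 1) * B, h1, fun s => (hTB.pow s).mono le_rfl (pow_le_pow_right₀ h1 (Nat.le_succ s)), fun k => ?_⟩
  refine ⟨1, one_pos, ?_, fun s _ => ⟨T ^ s, ?_⟩⟩
  · push_cast
    exact one_le_pow₀ h1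
  · rw [Polynomial.map_pow, Nat.cast_one, map_one, one_mul]

end

lemma one_le_pr {ι : Type} (S : Finset ι) {f : ι → ℝ} (h : ∀ i, 1 ≤ f i) : 1 ≤ ∏ i ∈ S, f i := by
  classical
  induction S using Finset.induction_on with
  | empty => simp
  | insert a S ha ih =>
    rw [Finset.prod_insert ha]
    exact one_le_mul_of_one_le_of_one_le (h a) ih

/-- uniform constants for a finite family -/
lemma GP.unif {ι : Type} [Fintype ι] {q : ℕ} {P : ι → ℕ → Polynomial ℚ} (h : ∀ i, GP q (P i)) :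
    ∃ C : ℝ, 1 ≤ C ∧ (∀ i s, Bq (q * s) (C ^ (s + 1)) (P i s)) ∧
      ∀ k, ∃ g : ℕ, 0 < g ∧ (g : ℝ) ≤ C ^ (k + 1) ∧ ∀ i, ∀ s ≤ k, IP g (P i s) := by
  classical
  choose C hC h1 h2 using h
  have hprod : ∀ i, C i ≤ ∏ j, C j := by
    intro i
    rw [← Finset.mul_prod_erase _ _ (Finset.mem_univ i)]
    exact le_mul_of_one_le_right (by linarith [hC i]) (one_le_pr _ fun j => hC j)
  refine ⟨∏ j, C j, one_le_pr _ fun j => hC j, fun i s => (h1 i s).mono le_rfl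
    (pow_le_pow_left₀ (by linarith [hC i]) (hprod i) _), fun k => ?_⟩
  choose g hg0 hg hg' using fun i => h2 i k
  refine ⟨∏ i, g i, Finset.prod_pos fun i _ => hg0 i, ?_, fun i s hs => ?_⟩
  · push_cast
    rw [← Finset.prod_pow]
    exact Finset.prod_le_prod (fun i _ => by positivity) fun i _ => hg i
  · rw [← Finset.mul_prod_erase _ _ (Finset.mem_univ i)]
    exact IP.mul_right' (hg' i s hs) _

/-- uniform constants for finitely many power series -/
lemma SDc.unif {ι : Type} [Fintype ι] {y : ι → ℚ⟦X⟧} (h : ∀ i, SDc (y i)) : ∃ C : ℝ, 1 ≤ C ∧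
    (∀ i m, |((coeff m (y i) : ℚ) : ℝ)| ≤ C ^ (m + 1)) ∧
    ∀ m, ∃ d : ℕ, 0 < d ∧ (d : ℝ) ≤ C ^ (m + 1) ∧ ∀ i, IS m d (y i) := by
  classical
  choose n hn using h
  have hprod : ∀ i, (2 : ℝ) ^ n i ≤ ∏ j, (2 : ℝ) ^ n j := by
    intro i
    rw [← Finset.mul_prod_erase _ _ (Finset.mem_univ i)]
    exact le_mul_of_one_le_right (by positivity) (one_le_pr _ fun j => one_le_pow₀ (by norm_num))
  refine ⟨∏ j, (2 : ℝ) ^ n j, one_le_pr _ fun j => one_le_pow₀ (by norm_num), fun i m => ?_, fun m => ?_⟩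
  · exact ((hn i).1 m).trans (pow_le_pow_left₀ (by positivity) (hprod i) _)
  · choose d hd0 hd hd' using fun i => (hn i).2 m
    refine ⟨∏ i, d i, Finset.prod_pos fun i _ => hd0 i, ?_, fun i j hj => ?_⟩
    · push_cast
      rw [← Finset.prod_pow]
      exact Finset.prod_le_prod (fun i _ => by positivity) fun i _ => hd i
    · obtain ⟨a, ha⟩ := hd' i j hj
      refine ⟨(∏ i ∈ Finset.univ.erase i, d i : ℕ) * a, ?_⟩
      rw [← Finset.mul_prod_erase _ _ (Finset.mem_univ i)]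
      push_cast
      rw [← ha]
      ring

/-- G-systems -/
theorem gsys_of_GP {ι : Type} [Fintype ι] {q : ℕ} {T : Polynomial ℤ} {y : ι → ℚ⟦X⟧} (hT : T.natDegree ≤ q)
    (hy : ∀ i, SDc (y i)) (P : ι → ι → ℕ → Polynomial ℚ) (hP : ∀ i j, GP q (P i j))
    (h : ∀ s i, ps T ^ s * hd s (y i) = ∑ j, ((P i j s : Polynomial ℚ) : ℚ⟦X⟧) * y j) : ∃ C, GSys q C T y := by
  classical
  obtain ⟨C₁, hC₁, hs, hden⟩ := SDc.unif hy
  obtain ⟨C₂, hC₂, hb, hip⟩ := GP.unif (P := fun p : ι × ι => P p.1 p.2) fun p => hP p.1 p.2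
  set C₃ : ℝ := 1 + ∑ l ∈ Finset.range (q + 1), |((T.coeff l : ℤ) : ℝ)| with hC₃
  have hC₃1 : 1 ≤ C₃ := by
    have : 0 ≤ ∑ l ∈ Finset.range (q + 1), |((T.coeff l : ℤ) : ℝ)| := Finset.sum_nonneg fun _ _ => abs_nonneg _
    linarith
  have hTs : ∀ l, |((T.coeff l : ℤ) : ℝ)| ≤ C₃ := by
    intro l
    by_cases hl : l < q + 1
    · have h1 := Finset.single_le_sum (f := fun l => |((T.coeff l : ℤ) : ℝ)|) (fun _ _ => abs_nonneg _) (Finset.mem_range.2 hl)
      linarith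
    · rw [Polynomial.coeff_eq_zero_of_natDegree_lt (by omega)]
      simp
      linarith
  set C := C₁ * (C₂ * C₂) * C₃ with hC
  have h22 : 1 ≤ C₂ * C₂ := by nlinarith
  have e12 : C₁ ≤ C₁ * (C₂ * C₂) := le_mul_of_one_le_right (by linarith) h22
  have e1 : C₁ ≤ C := e12.trans (le_mul_of_one_le_right (by linarith) hC₃1)
  have e2 : C₂ * C₂ ≤ C := (le_mul_of_one_le_left (by linarith) hC₁).trans (le_mul_of_one_le_right (by nlinarith) hC₃1)
  have e3 : C₃ ≤ C := le_mul_of_one_le_left (by linarith) (by nlinarith)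
  have e22 : C₂ ≤ C := le_trans (by nlinarith) e2
  refine ⟨C, ⟨hC₁.trans e1, hT, fun l => (hTs l).trans e3, fun i m => (hs i m).trans
    (pow_le_pow_left₀ (by linarith) e1 _), fun m => ?_, fun k => ?_⟩⟩
  · obtain ⟨d, hd0, hd, hd'⟩ := hden m
    exact ⟨d, hd0, hd.trans (pow_le_pow_left₀ (by linarith) e1 _), fun i j hj => hd' i j hj⟩
  · obtain ⟨g, hg0, hg, hg'⟩ := hip k
    refine ⟨g, hg0, hg.trans (pow_le_pow_left₀ (by linarith) e22 _), fun s hs => ?_⟩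
    choose G hG1 hG2 hG3 using fun i j => (hg' (i, j) s hs).lift (hb (i, j) s)
    refine ⟨G, hG2, fun i j l => (hG3 i j l).trans ?_, fun i => ?_⟩
    · calc (g : ℝ) * C₂ ^ (s + 1) ≤ C₂ ^ (k + 1) * C₂ ^ (k + 1) :=
            mul_le_mul hg (pow_le_pow_right₀ hC₂ (by omega)) (by positivity) (by positivity)
        _ = (C₂ * C₂) ^ (k + 1) := by rw [mul_pow]
        _ ≤ _ := pow_le_pow_left₀ (by positivity) e2 _
    · rw [h s i, Finset.mul_sum]
      refine Finset.sum_congr rfl fun j _ => ?_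
      rw [ps_eq, hG1 i j, Polynomial.coe_mul, Polynomial.coe_C]
      simp only [map_natCast]
      ring

end Pool.Agent.Y119.HY
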