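import Mathlib

/-!
# Hypergeometric families: separation of the powers of the logarithm
-/

set_option autoImplicit false

open Filter Topology Polynomial

namespace Pool.Agent.Y119.HY

/-- a common factor of analytic functions at `0` -/
lemma common_factor {d : ℕ} (F : ℕ → ℂ → ℂ) (hF : ∀ j < d, AnalyticAt ℂ (F j) 0)
    (hne : ∃ j < d, ¬ ∀ᶠ z in 𝓝 (0 : ℂ), F j z = 0) :
    ∃ (m : ℕ) (G : ℕ → ℂ → ℂ), (∀ j < d, AnalyticAt ℂ (G j) 0) ∧ (∀ j < d, ∀ᶠ z in 𝓝 (0 : ℂ), F j z = z ^ m * G j z) ∧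
      ∃ j < d, G j 0 ≠ 0 := by
  classical
  have h1 : ∀ j, ∃ (m : ℕ) (g : ℂ → ℂ), (j < d → ¬ (∀ᶠ z in 𝓝 (0 : ℂ), F j z = 0) →
      AnalyticAt ℂ g 0 ∧ g 0 ≠ 0 ∧ ∀ᶠ z in 𝓝 (0 : ℂ), F j z = z ^ m * g z) := by
    intro j
    by_cases hj : j < d ∧ ¬ ∀ᶠ z in 𝓝 (0 : ℂ), F j z = 0
    · obtain ⟨m, g, hg, hg0, hgz⟩ := (hF j hj.1).exists_eventuallyEq_pow_smul_nonzero_iff.2 hj.2
      refine ⟨m, g, fun _ _ => ⟨hg, hg0, ?_⟩⟩
      filter_upwards [hgz] with z hz
      rw [hz, sub_zero, smul_eq_mul]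
    · exact ⟨0, 0, fun h1 h2 => absurd ⟨h1, h2⟩ hj⟩
  choose m g hmg using h1
  set A : Finset ℕ := (Finset.range d).filter fun j => ¬ ∀ᶠ z in 𝓝 (0 : ℂ), F j z = 0 with hA
  have hAne : A.Nonempty := by
    obtain ⟨j, hj, hj2⟩ := hne
    exact ⟨j, Finset.mem_filter.2 ⟨Finset.mem_range.2 hj, hj2⟩⟩
  obtain ⟨j0, hj0, hmin⟩ := Finset.exists_min_image A m hAne
  have hj0' := Finset.mem_filter.1 hj0
  refine ⟨m j0, fun j z => if j ∈ A then z ^ (m j - m j0) * g j z else 0, fun j hj => ?_, fun j hj => ?_, j0,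
    Finset.mem_range.1 hj0'.1, ?_⟩
  · by_cases hjA : j ∈ A
    · simp only [if_pos hjA]
      have := (hmg j hj (Finset.mem_filter.1 hjA).2).1
      exact (analyticAt_id.pow _).mul this
    · simp only [if_neg hjA]
      exact analyticAt_const
  · by_cases hjA : j ∈ A
    · simp only [if_pos hjA]
      filter_upwards [(hmg j hj (Finset.mem_filter.1 hjA).2).2.2] with z hz
      rw [hz, ← mul_assoc, ← pow_add, Nat.add_sub_cancel' (hmin j hjA)]
    · simp only [if_neg hjA, mul_zero]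
      by_contra hcon
      exact hjA (Finset.mem_filter.2 ⟨Finset.mem_range.2 hj, hcon⟩)
  · simp only [if_pos hj0, Nat.sub_self, pow_zero, one_mul]
    exact (hmg j0 (Finset.mem_range.1 hj0'.1) hj0'.2).2.1

lemma tendsto_mul_log_pow (j : ℕ) : Tendsto (fun x : ℝ => x * Real.log x ^ j) (𝓝[>] 0) (𝓝 0) := by
  rcases Nat.eq_zero_or_pos j with h0 | hpos
  · subst h0
    simp only [pow_zero, mul_one]
    exact tendsto_nhdsWithin_of_tendsto_nhds tendsto_id
  · have hj : (0 : ℝ) < 1 / j := by positivity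
    have h1 := tendsto_log_mul_rpow_nhdsGT_zero hj
    have h2 := h1.pow j
    rw [zero_pow (by omega)] at h2
    refine h2.congr' ?_
    filter_upwards [self_mem_nhdsWithin] with x hx
    have hx0 : 0 < x := hx
    rw [mul_pow, ← Real.rpow_natCast (x ^ (1 / (j : ℝ))), ← Real.rpow_mul hx0.le, one_div,
      inv_mul_cancel₀ (by exact_mod_cast hpos.ne'), Real.rpow_one, mul_comm]

lemma tendsto_log_neg : Tendsto (fun x : ℝ => Real.log x) (𝓝[>] 0) atBot := Real.tendsto_log_nhdsGT_zero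

/-- **Separation.** -/
theorem log_sep {d : ℕ} (F : ℕ → ℂ → ℂ) (hF : ∀ j < d, AnalyticAt ℂ (F j) 0)
    (h : ∀ᶠ x : ℝ in 𝓝[>] 0, ∑ j ∈ Finset.range d, F j (x : ℂ) * ((Real.log x : ℝ) : ℂ) ^ j = 0) :
    ∀ j < d, ∀ᶠ z in 𝓝 (0 : ℂ), F j z = 0 := by
  by_contra hcon
  push Not at hcon
  obtain ⟨j1, hj1, hj1'⟩ := hcon
  obtain ⟨m, G, hG, hFG, j0, hj0, hG0⟩ := common_factor F hF ⟨j1, hj1, by
    intro h1
    exact hj1' (h1.mono fun z hz hz' => hz' hz)⟩
  have hof : Tendsto (fun x : ℝ => (x : ℂ)) (𝓝[>] 0) (𝓝 0) :=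
    tendsto_nhdsWithin_of_tendsto_nhds (by
      have := Complex.continuous_ofReal.tendsto 0
      simpa using this)
  -- the polynomial with the constant terms
  set Q : Polynomial ℂ := ∑ j ∈ Finset.range d, C (G j 0) * X ^ j with hQ
  have hQ0 : Q ≠ 0 := by
    intro h0
    have h1 := congrArg (fun p => Polynomial.coeff p j0) h0
    simp only [Polynomial.coeff_zero] at h1
    rw [hQ, Polynomial.finsetSum_coeff, Finset.sum_eq_single j0] at h1
    · rw [coeff_C_mul, coeff_X_pow_self, mul_one] at h1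
      exact hG0 h1
    · intro j _ hj
      rw [coeff_C_mul, coeff_X_pow, if_neg hj.symm, mul_zero]
    · intro h2
      exact absurd (Finset.mem_range.2 hj0) h2
  have hlim : Tendsto (fun x : ℝ => Q.eval ((Real.log x : ℝ) : ℂ)) (𝓝[>] 0) (𝓝 0) := by
    have h1 : ∀ j < d, Tendsto (fun x : ℝ => (G j 0 - G j (x : ℂ)) * ((Real.log x : ℝ) : ℂ) ^ j) (𝓝[>] 0) (𝓝 0) := by
      intro j hj
      have hd : ContinuousAt (dslope (G j) 0) 0 :=
        (continuousAt_dslope_same).2 (hG j hj).differentiableAt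
      have h2 : Tendsto (fun x : ℝ => dslope (G j) 0 (x : ℂ)) (𝓝[>] 0) (𝓝 (dslope (G j) 0 0)) := hd.tendsto.comp hof
      have h3 : Tendsto (fun x : ℝ => ((x * Real.log x ^ j : ℝ) : ℂ)) (𝓝[>] 0) (𝓝 0) := by
        have := (Complex.continuous_ofReal.tendsto 0).comp (tendsto_mul_log_pow j)
        rw [Complex.ofReal_zero] at this
        exact this
      have h4 := (h2.mul h3).neg
      rw [mul_zero, neg_zero] at h4
      refine h4.congr fun x => ?_
      have h5 : (x : ℂ) * dslope (G j) 0 (x : ℂ) = G j x - G j 0 := by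
        have := sub_smul_dslope (G j) 0 (x : ℂ)
        rw [sub_zero, smul_eq_mul] at this
        exact this
      push_cast
      linear_combination (-((Real.log x : ℝ) : ℂ) ^ j) * h5
    have h2 : Tendsto (fun x : ℝ => ∑ j ∈ Finset.range d, (G j 0 - G j (x : ℂ)) * ((Real.log x : ℝ) : ℂ) ^ j)
        (𝓝[>] 0) (𝓝 0) := by
      have := tendsto_finsetSum (Finset.range d) fun j hj => h1 j (Finset.mem_range.1 hj)
      simpa using this
    refine h2.congr' ?_
    have h3 : ∀ᶠ x : ℝ in 𝓝[>] 0, ∀ j ∈ Finset.range d, F j (x : ℂ) = (x : ℂ) ^ m * G j (x : ℂ) := by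
      rw [Filter.eventually_all_finset]
      intro j hj
      exact hof.eventually (hFG j (Finset.mem_range.1 hj))
    filter_upwards [h, h3, self_mem_nhdsWithin] with x hx hx3 hx0
    have hx0' : (x : ℂ) ≠ 0 := by exact_mod_cast (ne_of_gt hx0)
    have h4 : ∑ j ∈ Finset.range d, G j (x : ℂ) * ((Real.log x : ℝ) : ℂ) ^ j = 0 := by
      have h5 : (x : ℂ) ^ m * ∑ j ∈ Finset.range d, G j (x : ℂ) * ((Real.log x : ℝ) : ℂ) ^ j = 0 := by
        rw [← hx, Finset.mul_sum]
        refine Finset.sum_congr rfl fun j hj => ?_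
        rw [hx3 j hj, mul_assoc]
      exact (mul_eq_zero.1 h5).resolve_left (pow_ne_zero _ hx0')
    rw [hQ, Polynomial.eval_finsetSum]
    simp only [sub_mul, Finset.sum_sub_distrib, h4, sub_zero, eval_mul, eval_C, eval_pow, eval_X]
  have hnorm : Tendsto (fun x : ℝ => ‖((Real.log x : ℝ) : ℂ)‖) (𝓝[>] 0) atTop := by
    have h1 : (fun x : ℝ => ‖((Real.log x : ℝ) : ℂ)‖) = fun x : ℝ => |Real.log x| := by
      funext x; rw [Complex.norm_real, Real.norm_eq_abs]
    rw [h1]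
    exact tendsto_abs_atBot_atTop.comp tendsto_log_neg
  rcases lt_or_ge 0 Q.degree with hdeg | hdeg
  · have h1 := Q.tendsto_norm_atTop hdeg hnorm
    have h2 := hlim.norm
    rw [norm_zero] at h2
    exact not_tendsto_nhds_of_tendsto_atTop h1 0 h2
  · have h1 := Polynomial.eq_C_of_degree_le_zero hdeg
    rw [h1] at hlim hQ0
    simp only [eval_C] at hlim
    have h2 := tendsto_nhds_unique hlim tendsto_const_nhds
    rw [← h2] at hQ0
    exact hQ0 (by simp)

/-- functions with values in the polynomials with analytic coefficients and bounded degree -/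
def PA (U : Set ℂ) (f : ℂ → ℂ[X]) : Prop :=
  (∀ j, AnalyticOnNhd ℂ (fun z => (f z).coeff j) U) ∧ ∃ d, ∀ z, (f z).natDegree < d

variable {U : Set ℂ}

lemma PA.const (p : ℂ[X]) : PA U fun _ => p :=
  ⟨fun _ => analyticOnNhd_const, p.natDegree + 1, fun _ => Nat.lt_succ_self _⟩

lemma PA.ofFun {f : ℂ → ℂ} (hf : AnalyticOnNhd ℂ f U) : PA U fun z => C (f z) := by
  refine ⟨fun j => ?_, 1, fun z => by simp⟩
  simp only [coeff_C]
  by_cases hj : j = 0
  · simp only [hj, if_true]; exact hf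
  · simp only [if_neg hj]; exact analyticOnNhd_const

lemma PA.add {f g : ℂ → ℂ[X]} (hf : PA U f) (hg : PA U g) : PA U fun z => f z + g z := by
  obtain ⟨hf1, d1, hd1⟩ := hf
  obtain ⟨hg1, d2, hd2⟩ := hg
  refine ⟨fun j => ?_, max d1 d2, fun z => ?_⟩
  · simp only [coeff_add]
    exact (hf1 j).add (hg1 j)
  · exact lt_of_le_of_lt (natDegree_add_le _ _) (max_lt_max (hd1 z) (hd2 z))

lemma PA.mul {f g : ℂ → ℂ[X]} (hf : PA U f) (hg : PA U g) : PA U fun z => f z * g z := by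
  obtain ⟨hf1, d1, hd1⟩ := hf
  obtain ⟨hg1, d2, hd2⟩ := hg
  refine ⟨fun j => ?_, d1 + d2, fun z => ?_⟩
  · simp only [coeff_mul]
    refine Finset.analyticOnNhd_fun_sum _ fun x _ => ?_
    exact (hf1 _).mul (hg1 _)
  · have h1 := hd1 z
    have h2 := hd2 z
    exact lt_of_le_of_lt natDegree_mul_le (by omega)

lemma PA.sum {ι : Type*} (s : Finset ι) {f : ι → ℂ → ℂ[X]} (hf : ∀ i ∈ s, PA U (f i)) :
    PA U fun z => ∑ i ∈ s, f i z := by
  classical
  induction s using Finset.induction_on with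
  | empty => simpa using PA.const (U := U) 0
  | insert a s ha ih =>
    simp only [Finset.sum_insert ha]
    exact (hf a (Finset.mem_insert_self _ _)).add (ih fun i hi => hf i (Finset.mem_insert_of_mem hi))

lemma PA.aeval {σ : Type*} {f : σ → ℂ → ℂ[X]} (hf : ∀ i, PA U (f i)) (P : MvPolynomial σ ℂ) :
    PA U fun z => MvPolynomial.aeval (fun i => f i z) P := by
  induction P using MvPolynomial.induction_on with
  | C a => simpa using PA.const (U := U) (Polynomial.C a)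
  | add p q hp hq => simp only [map_add]; exact hp.add hq
  | mul_X p i hp => simp only [map_mul, MvPolynomial.aeval_X]; exact hp.mul (hf i)

/-- **Separation, polynomial form.** -/
theorem PA.log_zero {f : ℂ → ℂ[X]} (hf : PA (Metric.ball 0 1) f)
    (h : ∀ x : ℝ, 0 < x → x < 1 → (f (x : ℂ)).eval ((Real.log x : ℝ) : ℂ) = 0) :
    ∀ z ∈ Metric.ball (0 : ℂ) 1, f z = 0 := by
  obtain ⟨h1, d, hd⟩ := hf
  have h0 : (0 : ℂ) ∈ Metric.ball (0 : ℂ) 1 := Metric.mem_ball_self one_pos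
  have h2 := log_sep (d := d) (fun j z => (f z).coeff j) (fun j _ => h1 j 0 h0) (by
    have : ∀ᶠ x : ℝ in 𝓝[>] 0, x < 1 := tendsto_nhdsWithin_of_tendsto_nhds tendsto_id (gt_mem_nhds one_pos)
    filter_upwards [this, self_mem_nhdsWithin] with x hx hx0
    rw [← Polynomial.eval_eq_sum_range' (hd x)]
    exact h x hx0 hx)
  intro z hz
  ext j
  rw [coeff_zero]
  by_cases hj : j < d
  · exact (h1 j).eqOn_zero_of_preconnected_of_eventuallyEq_zero (convex_ball _ _).isPreconnected h0 (h2 j hj) hz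
  · exact coeff_eq_zero_of_natDegree_lt (lt_of_lt_of_le (hd z) (not_lt.1 hj))

end Pool.Agent.Y119.HY
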