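import Pool.Agent.Y119.HY.Loc
import Pool.Agent.Y119.HY.Log

/-!
# Hypergeometric families: the relations between the solutions are invariant under the symplectic group
-/

set_option autoImplicit false

open Filter Topology Matrix Polynomial

namespace Pool.Agent.Y119.HY

variable {n : ℕ}

/-! ### evaluation of polynomials at matrices -/

/-- the variables: `z`, `log z` and the entries of a matrix -/
abbrev Vr (n : ℕ) : Type := Option (Option (Fin n × Fin n))

/-- the point with coordinates `z`, `L` and the entries of `X` -/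
def pt {R : Type*} (z L : R) (X : Matrix (Fin n) (Fin n) R) (o : Vr n) : R := o.elim z fun o => o.elim L fun x => X x.1 x.2

/-- evaluation at `z`, `L` and the entries of `X` -/
noncomputable def ev (P : MvPolynomial (Vr n) ℂ) (z L : ℂ) (X : Matrix (Fin n) (Fin n) ℂ) : ℂ :=
  MvPolynomial.eval (pt z L X) P

/-- evaluation at polynomials -/
noncomputable def evp (P : MvPolynomial (Vr n) ℂ) (z L : ℂ[X]) (X : Matrix (Fin n) (Fin n) ℂ[X]) : ℂ[X] :=
  MvPolynomial.aeval (pt z L X) P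

lemma eval_evp (P : MvPolynomial (Vr n) ℂ) (z L : ℂ[X]) (X : Matrix (Fin n) (Fin n) ℂ[X]) (s : ℂ) :
    (evp P z L X).eval s = ev P (z.eval s) (L.eval s) (X.map (Polynomial.eval s)) := by
  unfold evp ev
  induction P using MvPolynomial.induction_on with
  | C a => simp
  | add p q hp hq => simp only [map_add, eval_add, hp, hq]
  | mul_X p i hp =>
    simp only [map_mul, eval_mul, hp, MvPolynomial.aeval_X, MvPolynomial.eval_X]
    congr 1
    rcases i with _ | _ | x
    · rfl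
    · rfl
    · rfl

/-- substitution `L ↦ L + c`, `X ↦ X g` -/
noncomputable def sb (c : ℂ) (g : Matrix (Fin n) (Fin n) ℂ) (P : MvPolynomial (Vr n) ℂ) : MvPolynomial (Vr n) ℂ :=
  MvPolynomial.bind₁ (pt (MvPolynomial.X none) (MvPolynomial.X (some none) + MvPolynomial.C c)
    (Matrix.of fun i j => ∑ k, MvPolynomial.X (some (some (i, k))) * MvPolynomial.C (g k j))) P

lemma ev_sb (c : ℂ) (g : Matrix (Fin n) (Fin n) ℂ) (P : MvPolynomial (Vr n) ℂ) (z L : ℂ)
    (X : Matrix (Fin n) (Fin n) ℂ) : ev (sb c g P) z L X = ev P z (L + c) (X * g) := by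
  unfold ev sb
  induction P using MvPolynomial.induction_on with
  | C a => simp
  | add p q hp hq => simp only [map_add, hp, hq]
  | mul_X p i hp =>
    simp only [map_mul, hp, MvPolynomial.bind₁_X_right, MvPolynomial.eval_X]
    congr 1
    rcases i with _ | _ | x
    · simp [pt]
    · simp [pt]
    · simp [pt, Matrix.mul_apply]

/-- relations on `(0, 1)` -/
def Rel (Y : ℂ → Matrix (Fin n) (Fin n) ℂ) : Set (MvPolynomial (Vr n) ℂ) :=
  {P | ∀ x : ℝ, 0 < x → x < 1 → ev P (x : ℂ) (Complex.log x) (Y (x : ℂ)) = 0}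

/-- matrices which preserve the relations -/
def Gal (Y : ℂ → Matrix (Fin n) (Fin n) ℂ) : Submonoid (Matrix (Fin n) (Fin n) ℂ) where
  carrier := {g | ∀ P ∈ Rel Y, ∀ x : ℝ, 0 < x → x < 1 → ev P (x : ℂ) (Complex.log x) (Y (x : ℂ) * g) = 0}
  mul_mem' := by
    intro g h hg hh P hP x hx hx1
    have h1 : sb 0 h P ∈ Rel Y := fun y hy hy1 => by rw [ev_sb, add_zero]; exact hh P hP y hy hy1
    have h2 := hg _ h1 x hx hx1
    rw [ev_sb, Matrix.mul_assoc, add_zero] at h2
    exact h2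
  one_mem' := by
    intro P hP x hx hx1
    rw [mul_one]
    exact hP x hx hx1

lemma Gal_closed (Y : ℂ → Matrix (Fin n) (Fin n) ℂ) (M : Matrix (Fin n) (Fin n) (Polynomial ℂ))
    (hM : ∀ c : ℂ, c ≠ 0 → M.map (Polynomial.eval c) ∈ Gal Y) : M.map (Polynomial.eval 0) ∈ Gal Y := by
  intro P hP x hx hx1
  set q : ℂ[X] := evp P (C (x : ℂ)) (C (Complex.log x)) ((Y (x : ℂ)).map C * M) with hq
  have hqe : ∀ c, q.eval c = ev P (x : ℂ) (Complex.log x) (Y (x : ℂ) * M.map (Polynomial.eval c)) := by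
    intro c
    rw [hq, eval_evp, eval_C, eval_C]
    congr 1
    ext i j
    simp only [Matrix.map_apply, Matrix.mul_apply, Polynomial.eval_finsetSum, Polynomial.eval_mul, Polynomial.eval_C]
  have h0 : q = 0 := by
    refine Polynomial.eq_zero_of_infinite_isRoot q (Set.Infinite.mono (s := ({0} : Set ℂ)ᶜ) ?_
      (Set.finite_singleton (0 : ℂ)).infinite_compl)
    intro c hc
    show q.eval c = 0
    rw [hqe]
    exact hM c hc P hP x hx hx1
  rw [← hqe, h0, Polynomial.eval_zero]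

/-- the exponential with polynomial entries -/
noncomputable def Ep (N : Matrix (Fin n) (Fin n) ℂ) : Matrix (Fin n) (Fin n) ℂ[X] :=
  ∑ i ∈ Finset.range n, (C (1 / (i.factorial : ℂ)) * X ^ i) • (N ^ i).map C

lemma Ep_eval (N : Matrix (Fin n) (Fin n) ℂ) (s : ℂ) : (Ep N).map (Polynomial.eval s) = E N s := by
  ext a b
  unfold Ep E
  rw [Matrix.map_apply, Matrix.sum_apply, Matrix.sum_apply, Polynomial.eval_finsetSum]
  refine Finset.sum_congr rfl fun i _ => ?_
  simp only [Matrix.smul_apply, Matrix.map_apply, smul_eq_mul, Polynomial.eval_mul, Polynomial.eval_C,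
    Polynomial.eval_pow, Polynomial.eval_X]
  ring

lemma E_neg (N : Matrix (Fin n) (Fin n) ℂ) (s : ℂ) : E (-N) s = E N (-s) := by
  unfold E
  refine Finset.sum_congr rfl fun i _ => ?_
  rw [neg_pow N i, neg_pow s i]
  have h1 : ((-1 : Matrix (Fin n) (Fin n) ℂ)) ^ i * N ^ i = ((-1 : ℂ) ^ i) • N ^ i := by
    rcases Nat.even_or_odd i with h | h
    · rw [h.neg_one_pow, h.neg_one_pow, one_mul, one_smul]
    · rw [h.neg_one_pow, h.neg_one_pow, neg_one_mul, neg_one_smul]
  rw [h1, smul_smul]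
  congr 1
  ring

lemma map_mul_eval (X Y : Matrix (Fin n) (Fin n) ℂ[X]) (s : ℂ) :
    (X * Y).map (Polynomial.eval s) = X.map (Polynomial.eval s) * Y.map (Polynomial.eval s) := by
  ext i j
  simp only [Matrix.map_apply, Matrix.mul_apply, Polynomial.eval_finsetSum, Polynomial.eval_mul]

lemma map_C_eval (X : Matrix (Fin n) (Fin n) ℂ) (s : ℂ) : (X.map C).map (Polynomial.eval s) = X := by
  ext i j
  simp

/-! ### the lens -/

/-- the lens -/
def Lens : Set ℂ := Metric.ball 0 1 ∩ Metric.ball 1 1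

lemma mem_Lens {z : ℂ} : z ∈ Lens ↔ ‖z‖ < 1 ∧ ‖1 - z‖ < 1 := by
  unfold Lens
  rw [Set.mem_inter_iff, Metric.mem_ball, Metric.mem_ball, dist_zero_right, dist_comm, dist_eq_norm]

lemma real_mem_Lens {x : ℝ} (h0 : 0 < x) (h1 : x < 1) : (x : ℂ) ∈ Lens := by
  rw [mem_Lens]
  have e : (1 - (x : ℂ)) = ((1 - x : ℝ) : ℂ) := by push_cast; rfl
  rw [e, Complex.norm_real, Complex.norm_real, Real.norm_of_nonneg h0.le, Real.norm_of_nonneg (by linarith)]
  exact ⟨h1, by linarith⟩

lemma isOpen_Lens : IsOpen Lens := Metric.isOpen_ball.inter Metric.isOpen_ball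

lemma preconn_Lens : IsPreconnected Lens := ((convex_ball _ _).inter (convex_ball _ _)).isPreconnected

lemma symm_Lens {z : ℂ} (h : z ∈ Lens) : 1 - z ∈ Lens := by
  rw [mem_Lens] at h ⊢
  rw [sub_sub_cancel]
  exact ⟨h.2, h.1⟩

lemma slit_Lens {z : ℂ} (h : z ∈ Lens) : z ∈ Complex.slitPlane := by
  rw [mem_Lens] at h
  left
  have h1 : (1 - z).re ≤ ‖1 - z‖ := Complex.re_le_norm _
  rw [Complex.sub_re, Complex.one_re] at h1
  linarith [h.2]

lemma const_Lens {F : ℂ → Matrix (Fin n) (Fin n) ℂ} (hF : ∀ z ∈ Lens, HD F 0 z) {z w : ℂ} (hz : z ∈ Lens)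
    (hw : w ∈ Lens) : F z = F w := by
  ext i j
  exact isOpen_Lens.is_const_of_deriv_eq_zero preconn_Lens
    (fun x hx => ((hF x hx) i j).differentiableAt.differentiableWithinAt)
    (fun x hx => ((hF x hx) i j).deriv) hz hw

variable {J N0 N1 : Matrix (Fin n) (Fin n) ℂ} {H : ℕ → Matrix (Fin n) (Fin n) ℂ}

/-- **the form is preserved** -/
theorem self_pair (h0 : N0 ^ n = 0) (hs0 : N0.transpose * J + J * N0 = 0) (hs1 : N1.transpose * J + J * N1 = 0)
    (hH : Sol N0 N1 H) {z : ℂ} (hz : z ∈ Lens) : (Yf N0 H z).transpose * J * Yf N0 H z = J := by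
  have hhalf : ((1 / 2 : ℝ) : ℂ) ∈ Lens := real_mem_Lens (by norm_num) (by norm_num)
  set S := (Yf N0 H ((1 / 2 : ℝ) : ℂ)).transpose * J * Yf N0 H ((1 / 2 : ℝ) : ℂ) with hS
  have hconst : ∀ w ∈ Lens, (Yf N0 H w).transpose * J * Yf N0 H w = S := by
    intro w hw
    refine const_Lens (F := fun w => (Yf N0 H w).transpose * J * Yf N0 H w) (fun x hx => ?_) hw hhalf
    have h1 := Yf_ode hH h0 (mem_Lens.1 hx).1 (slit_Lens hx)
    exact pair_HD (Gm_skew hs0 hs1 x) h1 h1
  rw [hconst z hz]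
  -- the holomorphic part
  have hHan : ∀ i j, AnalyticOnNhd ℂ (fun z => ((Hf H z).transpose * J * Hf H z) i j) (Metric.ball 0 1) := by
    intro i j
    simp only [Matrix.mul_apply, Matrix.transpose_apply]
    refine Finset.analyticOnNhd_fun_sum _ fun l _ => AnalyticOnNhd.mul ?_ (Hf_an hH h0 l j)
    refine Finset.analyticOnNhd_fun_sum _ fun k _ => ?_
    exact (Hf_an hH h0 k i).mul analyticOnNhd_const
  have hlog : ∀ i j : Fin n, ∀ w ∈ Metric.ball (0 : ℂ) 1, C (((Hf H w).transpose * J * Hf H w) i j) +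
      -(((Ep (-N0)).transpose * S.map C * Ep (-N0)) i j) = 0 := by
    intro i j
    refine PA.log_zero (f := fun w => C (((Hf H w).transpose * J * Hf H w) i j) +
      -(((Ep (-N0)).transpose * S.map C * Ep (-N0)) i j)) ((PA.ofFun (hHan i j)).add (PA.const _)) fun x hx hx1 => ?_
    have h1 := hconst x (real_mem_Lens hx hx1)
    have h2 : ((Ep (-N0)).transpose * S.map C * Ep (-N0)).map (Polynomial.eval ((Real.log x : ℝ) : ℂ)) =
        (Hf H x).transpose * J * Hf H x := by
      rw [map_mul_eval, map_mul_eval, Matrix.transpose_map, map_C_eval, Ep_eval, E_neg, ← h1]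
      unfold Yf
      rw [← Complex.ofReal_log hx.le, transpose_mul]
      set L : ℂ := ((Real.log x : ℝ) : ℂ)
      have h3 : E N0 L * E N0 (-L) = 1 := E_mul_neg h0 L
      have h4 : (E N0 (-L)).transpose * (E N0 L).transpose = 1 := by
        rw [← transpose_mul, h3, transpose_one]
      calc (E N0 (-L)).transpose * ((E N0 L).transpose * (Hf H x).transpose * J * (Hf H x * E N0 L)) * E N0 (-L)
          = ((E N0 (-L)).transpose * (E N0 L).transpose) * (Hf H x).transpose * J * Hf H x * (E N0 L * E N0 (-L)) := by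
            simp only [Matrix.mul_assoc]
        _ = _ := by rw [h3, h4, one_mul, mul_one]
    rw [eval_add, eval_neg, eval_C, ← h2]
    simp only [Matrix.map_apply]
    ring
  ext i j
  have h5 := congrArg (Polynomial.eval 0) (hlog i j 0 (Metric.mem_ball_self one_pos))
  rw [eval_add, eval_neg, eval_C, Hf_zero hH, transpose_one, one_mul, mul_one, eval_zero] at h5
  have h6 : ((Ep (-N0)).transpose * S.map C * Ep (-N0)).map (Polynomial.eval 0) = S := by
    rw [map_mul_eval, map_mul_eval, Matrix.transpose_map, map_C_eval, Ep_eval, E_zero (by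
      rw [neg_pow, h0, mul_zero]), transpose_one, one_mul, mul_one]
  have h7 := congrFun (congrFun h6 i) j
  rw [Matrix.map_apply] at h7
  rw [h7] at h5
  linear_combination -h5

/-- the monodromy at `0` preserves the relations -/
theorem mono_zero (h0 : N0 ^ n = 0) (hH : Sol N0 N1 H) (c : ℂ) {P : MvPolynomial (Vr n) ℂ} (hP : P ∈ Rel (Yf N0 H))
    {x : ℝ} (hx : 0 < x) (hx1 : x < 1) : ev P (x : ℂ) (Complex.log x + c) (Yf N0 H x * E N0 c) = 0 := by
  have h1 : ∀ w ∈ Metric.ball (0 : ℂ) 1, evp P (C w) X ((Hf H w).map C * Ep N0) = 0 := by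
    refine PA.log_zero (f := fun w => evp P (C w) X ((Hf H w).map C * Ep N0)) ?_ fun y hy hy1 => ?_
    · refine PA.aeval (fun o => ?_) P
      rcases o with _ | _ | x
      · exact PA.ofFun analyticOnNhd_id
      · exact PA.const _
      · simp only [pt, Option.elim_some, Matrix.mul_apply, Matrix.map_apply]
        exact PA.sum _ fun l _ => (PA.ofFun (Hf_an hH h0 _ _)).mul (PA.const _)
    · rw [eval_evp, map_mul_eval, map_C_eval, Ep_eval, Complex.ofReal_log hy.le, eval_C, eval_X]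
      exact hP y hy hy1
  have h2 := congrArg (Polynomial.eval (Complex.log x + c)) (h1 x (by
    rw [Metric.mem_ball, dist_zero_right, Complex.norm_real, Real.norm_of_nonneg hx.le]
    exact hx1))
  rw [eval_evp, map_mul_eval, map_C_eval, Ep_eval, eval_zero, E_add h0, ← Matrix.mul_assoc, eval_C, eval_X] at h2
  exact h2

/-- conjugation by the monodromy at `0` -/
theorem conj_E (h0 : N0 ^ n = 0) (hH : Sol N0 N1 H) (c : ℂ) (g : Matrix (Fin n) (Fin n) ℂ) (hg : g ∈ Gal (Yf N0 H)) :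
    E N0 c * g * E N0 (-c) ∈ Gal (Yf N0 H) := by
  intro P hP x hx hx1
  have h1 : sb (-c) (E N0 (-c)) P ∈ Rel (Yf N0 H) := fun y hy hy1 => by
    rw [ev_sb]
    exact mono_zero h0 hH (-c) hP hy hy1
  have h2 : sb (-c) (g * E N0 (-c)) P ∈ Rel (Yf N0 H) := fun y hy hy1 => by
    have h3 := hg _ h1 y hy hy1
    rw [ev_sb, Matrix.mul_assoc] at h3
    rw [ev_sb]
    exact h3
  have h3 := mono_zero h0 hH c h2 hx hx1
  rw [ev_sb, add_neg_cancel_right] at h3
  simp only [Matrix.mul_assoc] at h3 ⊢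
  exact h3

/-- the monodromy at `1` preserves the relations -/
theorem conj_mem_Gal {K : ℕ → Matrix (Fin n) (Fin n) ℂ} {N2 N3 : Matrix (Fin n) (Fin n) ℂ} (h2 : N2 ^ n = 0)
    (hK : Sol N2 N3 K) {Y : ℂ → Matrix (Fin n) (Fin n) ℂ} {M Mi : Matrix (Fin n) (Fin n) ℂ} (hMi : M * Mi = 1)
    (hY : ∀ x : ℝ, 0 < x → x < 1 → Y x = Yf N2 K (1 - (x : ℂ)) * M) (c : ℂ) : Mi * E N2 c * M ∈ Gal Y := by
  intro P hP x hx hx1
  have hlog : AnalyticOnNhd ℂ (fun w : ℂ => Complex.log (1 - w)) (Metric.ball 0 1) := by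
    intro w hw
    rw [Metric.mem_ball, dist_zero_right] at hw
    refine AnalyticAt.clog (analyticAt_const.sub analyticAt_id) ?_
    left
    have h1 : w.re ≤ ‖w‖ := Complex.re_le_norm _
    rw [Complex.sub_re, Complex.one_re]
    linarith
  have h1 : ∀ w ∈ Metric.ball (0 : ℂ) 1, evp P (C (1 - w)) (C (Complex.log (1 - w))) ((Hf K w).map C * Ep N2 * M.map C) = 0 := by
    refine PA.log_zero (f := fun w => evp P (C (1 - w)) (C (Complex.log (1 - w))) ((Hf K w).map C * Ep N2 * M.map C)) ?_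
      fun y hy hy1 => ?_
    · refine PA.aeval (fun o => ?_) P
      rcases o with _ | _ | x
      · exact PA.ofFun (analyticOnNhd_const.sub analyticOnNhd_id)
      · exact PA.ofFun hlog
      · simp only [pt, Option.elim_some, Matrix.mul_apply, Matrix.map_apply]
        exact PA.sum _ fun l _ => (PA.sum _ fun k _ => (PA.ofFun (Hf_an hK h2 _ _)).mul (PA.const _)).mul (PA.const _)
    · rw [eval_evp, map_mul_eval, map_mul_eval, map_C_eval, map_C_eval, Ep_eval, Complex.ofReal_log hy.le, eval_C, eval_C]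
      have h3 := hP (1 - y) (by linarith) (by linarith)
      rw [hY (1 - y) (by linarith) (by linarith)] at h3
      push_cast at h3
      rw [sub_sub_cancel] at h3
      exact h3
  have e1 : (1 - (x : ℂ)) ∈ Metric.ball (0 : ℂ) 1 := by
    rw [Metric.mem_ball, dist_zero_right]
    exact (mem_Lens.1 (real_mem_Lens hx hx1)).2
  have h4 := congrArg (Polynomial.eval (Complex.log (1 - (x : ℂ)) + c)) (h1 _ e1)
  rw [eval_evp, map_mul_eval, map_mul_eval, map_C_eval, map_C_eval, Ep_eval, eval_zero, E_add h2, sub_sub_cancel, eval_C,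
    eval_C] at h4
  rw [hY x hx hx1]
  unfold Yf
  have e2 : Hf K (1 - (x : ℂ)) * E N2 (Complex.log (1 - (x : ℂ))) * M * (Mi * E N2 c * M) =
      Hf K (1 - (x : ℂ)) * (E N2 (Complex.log (1 - (x : ℂ))) * E N2 c) * M := by
    calc _ = Hf K (1 - (x : ℂ)) * E N2 (Complex.log (1 - (x : ℂ))) * (M * Mi) * E N2 c * M := by
          simp only [Matrix.mul_assoc]
      _ = _ := by rw [hMi, mul_one]; simp only [Matrix.mul_assoc]
  rw [e2]
  exact h4

/-- **Connection.** -/
theorem connect {A B : Matrix (Fin n) (Fin n) ℂ} {K : ℕ → Matrix (Fin n) (Fin n) ℂ} (hdet : J.det ≠ 0)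
    (hA : A ^ n = 0) (hAJ : A.transpose * J + J * A = 0) (hB : (-B) ^ n = 0) (hBJ : B.transpose * J + J * B = 0)
    (hH : Sol A B H) (hK : Sol (-B) (-A) K) :
    ∃ M Mi : Matrix (Fin n) (Fin n) ℂ, M * Mi = 1 ∧ Mi * M = 1 ∧ M.transpose * J * M = J ∧
      ∀ z ∈ Lens, Yf A H z = Yf (-B) K (1 - z) * M := by
  have hAJ' : (-A).transpose * J + J * (-A) = 0 := by
    rw [transpose_neg, neg_mul, mul_neg, ← neg_add, hAJ, neg_zero]
  have hBJ' : (-B).transpose * J + J * (-B) = 0 := by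
    rw [transpose_neg, neg_mul, mul_neg, ← neg_add, hBJ, neg_zero]
  have hu : IsUnit J.det := Ne.isUnit hdet
  have hhalf : ((1 / 2 : ℝ) : ℂ) ∈ Lens := real_mem_Lens (by norm_num) (by norm_num)
  set Z : ℂ → Matrix (Fin n) (Fin n) ℂ := fun z => Yf (-B) K (1 - z) with hZ
  have hYd : ∀ z ∈ Lens, HD (Yf A H) (Gm A B z * Yf A H z) z := fun z hz =>
    Yf_ode hH hA (mem_Lens.1 hz).1 (slit_Lens hz)
  have hZd : ∀ z ∈ Lens, HD Z (Gm A B z * Z z) z := by
    intro z hz
    have hz' := symm_Lens hz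
    have h1 := Yf_ode hK hB (mem_Lens.1 hz').1 (slit_Lens hz')
    have h2 : HasDerivAt (fun w : ℂ => 1 - w) (-1) z := by
      simpa using (hasDerivAt_id z).const_sub 1
    refine (h1.comp h2).congr ?_
    rw [hZ, ← smul_mul_assoc]
    congr 1
    unfold Gm
    rw [sub_sub_cancel, smul_neg, smul_neg]
    rw [← neg_add, neg_smul, one_smul, neg_neg, add_comm]
  set W := (Z ((1 / 2 : ℝ) : ℂ)).transpose * J * Yf A H ((1 / 2 : ℝ) : ℂ) with hW
  have hWc : ∀ z ∈ Lens, (Z z).transpose * J * Yf A H z = W := fun z hz =>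
    const_Lens (F := fun z => (Z z).transpose * J * Yf A H z)
      (fun x hx => pair_HD (Gm_skew hAJ hBJ x) (hZd x hx) (hYd x hx)) hz hhalf
  have hZZ : ∀ z ∈ Lens, (Z z).transpose * J * Z z = J := fun z hz =>
    self_pair hB hBJ' hAJ' hK (symm_Lens hz)
  have hYY : ∀ z ∈ Lens, (Yf A H z).transpose * J * Yf A H z = J := fun z hz =>
    self_pair hA hAJ hBJ hH hz
  have hZM : ∀ z ∈ Lens, Yf A H z = Z z * (J⁻¹ * W) := by
    intro z hz
    have h1 : (J⁻¹ * (Z z).transpose * J) * Z z = 1 := by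
      rw [Matrix.mul_assoc, Matrix.mul_assoc, ← Matrix.mul_assoc _ J, hZZ z hz, nonsing_inv_mul _ hu]
    have h2 : Z z * (J⁻¹ * (Z z).transpose * J) = 1 := mul_eq_one_comm.1 h1
    rw [← hWc z hz]
    calc Yf A H z = Z z * (J⁻¹ * (Z z).transpose * J) * Yf A H z := by rw [h2, one_mul]
      _ = _ := by simp only [Matrix.mul_assoc]
  have hM : (J⁻¹ * W).transpose * J * (J⁻¹ * W) = J := by
    have h1 := hYY _ hhalf
    rw [hZM _ hhalf, transpose_mul] at h1
    calc (J⁻¹ * W).transpose * J * (J⁻¹ * W)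
        = (J⁻¹ * W).transpose * ((Z ((1 / 2 : ℝ) : ℂ)).transpose * J * Z ((1 / 2 : ℝ) : ℂ)) * (J⁻¹ * W) := by
          rw [hZZ _ hhalf]
      _ = (J⁻¹ * W).transpose * (Z ((1 / 2 : ℝ) : ℂ)).transpose * J * (Z ((1 / 2 : ℝ) : ℂ) * (J⁻¹ * W)) := by
          simp only [Matrix.mul_assoc]
      _ = J := h1
  have hMi : (J⁻¹ * (J⁻¹ * W).transpose * J) * (J⁻¹ * W) = 1 := by
    calc (J⁻¹ * (J⁻¹ * W).transpose * J) * (J⁻¹ * W) = J⁻¹ * ((J⁻¹ * W).transpose * J * (J⁻¹ * W)) := by
          simp only [Matrix.mul_assoc]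
      _ = 1 := by rw [hM, nonsing_inv_mul _ hu]
  exact ⟨J⁻¹ * W, J⁻¹ * (J⁻¹ * W).transpose * J, mul_eq_one_comm.1 hMi, hMi, hM, hZM⟩

end Pool.Agent.Y119.HY
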