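import Pool.Agent.Y119.HY.Cho

/-!
# Galochkin's condition for systems with unipotent monodromy at the origin

If `Y = H z ^ N` with `N` nilpotent solves `z T₁ Y' = A Y` and the entries of `H` and of its inverse are G-functions then the
entries of `H` form a G-system.
-/

set_option autoImplicit false

open PowerSeries Finset.HasAntidiagonal

namespace Pool.Agent.Y119.HZ

open Pool.Agent.Y113 Pool.Agent.Y113.HGG
open Pool.Agent.Y119.HY (choose_step choose_zero' GP gsys_of_GP choose_den choose_mem' choose_GP choose_aeval)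

variable {n : ℕ} {N : Matrix (Fin n) (Fin n) ℚ} {H W : Matrix (Fin n) (Fin n) ℚ⟦X⟧}

lemma mul_natCast_apply (M : Matrix (Fin n) (Fin n) ℚ) (a : ℕ) (i j : Fin n) :
    (M * (a : Matrix (Fin n) (Fin n) ℚ)) i j = (a : ℚ) * M i j := by
  rw [← (Nat.cast_commute a M).eq, ← nsmul_eq_mul, Matrix.smul_apply, nsmul_eq_mul]

/-- the coefficients -/
noncomputable def cf (H : Matrix (Fin n) (Fin n) ℚ⟦X⟧) (k : ℕ) : Matrix (Fin n) (Fin n) ℚ := H.map (coeff k)

/-- `z ^ s Y^(s) / s! z ^ (-N)` -/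
noncomputable def YY (H : Matrix (Fin n) (Fin n) ℚ⟦X⟧) (N : Matrix (Fin n) (Fin n) ℚ) (s : ℕ) : Matrix (Fin n) (Fin n) ℚ⟦X⟧ :=
  Matrix.of fun i j => PowerSeries.mk fun k => (cf H k * Ring.choose ((k : Matrix (Fin n) (Fin n) ℚ) + N) s) i j

lemma coeff_YY (s k : ℕ) (i j : Fin n) :
    coeff k (YY H N s i j) = (cf H k * Ring.choose ((k : Matrix (Fin n) (Fin n) ℚ) + N) s) i j := by
  unfold YY
  rw [Matrix.of_apply, coeff_mk]

lemma YY_zero (i j : Fin n) : YY H N 0 i j = H i j := by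
  ext k
  rw [coeff_YY, choose_zero', mul_one]
  rfl

lemma coeff_X_deriv (k : ℕ) (f : ℚ⟦X⟧) : coeff k (X * d⁄dX ℚ f) = (k : ℚ) * coeff k f := by
  rcases k with _ | k
  · rw [coeff_zero_X_mul]
    simp
  · rw [coeff_succ_X_mul, PowerSeries.coeff_derivative]
    push_cast
    ring

lemma YY_succ (s : ℕ) (i j : Fin n) : ((s : ℚ⟦X⟧) + 1) * YY H N (s + 1) i j =
    X * d⁄dX ℚ (YY H N s i j) + ∑ l, YY H N s i l * C (N l j) - (s : ℚ⟦X⟧) * YY H N s i j := by
  ext k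
  have e1 : ((s : ℚ⟦X⟧) + 1) = C ((s : ℚ) + 1) := by rw [map_add, map_one, map_natCast]
  have e2 : (s : ℚ⟦X⟧) = C (s : ℚ) := by rw [map_natCast]
  rw [e1, coeff_C_mul, map_sub, map_add, coeff_X_deriv, map_sum, e2, coeff_C_mul, coeff_YY, coeff_YY]
  have e3 : ∀ l, coeff k (YY H N s i l * C (N l j)) =
      (cf H k * Ring.choose ((k : Matrix (Fin n) (Fin n) ℚ) + N) s) i l * N l j := by
    intro l
    rw [mul_comm, coeff_C_mul, coeff_YY, mul_comm]
  simp only [e3]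
  rw [← Matrix.mul_apply]
  have h1 := choose_step ((k : Matrix (Fin n) (Fin n) ℚ) + N) s
  have h2 : cf H k * ((s + 1) • Ring.choose ((k : Matrix (Fin n) (Fin n) ℚ) + N) (s + 1)) =
      cf H k * (Ring.choose ((k : Matrix (Fin n) (Fin n) ℚ) + N) s * ((k : Matrix (Fin n) (Fin n) ℚ) + N - s)) := by rw [h1]
  have h3 := congrFun (congrFun h2 i) j
  rw [Matrix.mul_smul, Matrix.smul_apply, nsmul_eq_mul, ← Matrix.mul_assoc, mul_sub, mul_add, Matrix.sub_apply,
    Matrix.add_apply] at h3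
  rw [mul_natCast_apply, mul_natCast_apply] at h3
  push_cast at h3
  linear_combination h3

/-- Vandermonde -/
lemma YY_hd (s : ℕ) (i j : Fin n) : X ^ s * hd s (H i j) =
    ∑ p ∈ antidiagonal s, ∑ l, YY H N p.1 i l * C (Ring.choose (-N) p.2 l j) := by
  ext k
  rw [coeff_X_pow_hd, map_sum]
  have e3 : ∀ p : ℕ × ℕ, coeff k (∑ l, YY H N p.1 i l * C (Ring.choose (-N) p.2 l j)) =
      (cf H k * (Ring.choose ((k : Matrix (Fin n) (Fin n) ℚ) + N) p.1 * Ring.choose (-N) p.2)) i j := by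
    intro p
    rw [map_sum, ← Matrix.mul_assoc, Matrix.mul_apply]
    refine Finset.sum_congr rfl fun l _ => ?_
    rw [mul_comm, coeff_C_mul, coeff_YY, mul_comm]
  simp only [e3]
  rw [← Matrix.sum_apply, ← Finset.mul_sum]
  have hc : Commute ((k : Matrix (Fin n) (Fin n) ℚ) + N) (-N) :=
    ((Nat.cast_commute k (-N))).add_left ((Commute.refl N).neg_right)
  have h1 := Ring.add_choose_eq s hc
  rw [add_neg_cancel_right, Ring.choose_natCast] at h1
  rw [← h1, mul_natCast_apply]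
  rfl

section
variable {T₁ : Polynomial ℤ} {A : Fin n → Fin n → Polynomial ℤ}

lemma psq (P : Polynomial ℤ) : ((tq P : Polynomial ℚ) : ℚ⟦X⟧) = ps P := rfl

lemma ps_X_mul (T : Polynomial ℤ) : ps (Polynomial.X * T) = X * ps T := by
  unfold ps
  rw [Polynomial.map_mul, Polynomial.map_X, Polynomial.coe_mul, Polynomial.coe_X]

/-- the polynomials -/
lemma YY_ah (hode : ∀ i j, ps T₁ * (X * d⁄dX ℚ (H i j) + ∑ k, H i k * C (N k j)) = ∑ k, ps (A i k) * H k j) (s : ℕ)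
    (i j : Fin n) : ps T₁ ^ s * YY H N s i j =
      ∑ k, ((ah (Polynomial.X * T₁) (fun a b => A b a) s i k : Polynomial ℚ) : ℚ⟦X⟧) * H k j := by
  induction s generalizing i j with
  | zero =>
    rw [pow_zero, one_mul, YY_zero]
    simp only [ah_zero]
    rw [Finset.sum_eq_single i]
    · rw [if_pos rfl, Polynomial.coe_one, one_mul]
    · intro k _ hk
      rw [if_neg (Ne.symm hk), Polynomial.coe_zero, zero_mul]
    · intro h
      exact absurd (Finset.mem_univ _) h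
  | succ s ih =>
    have hs : ((s : ℚ⟦X⟧) + 1) ≠ 0 := by
      rw [← Nat.cast_succ, ← map_natCast (C (R := ℚ)), Ne, ← map_zero (C (R := ℚ)), (PowerSeries.C_injective).eq_iff]
      exact_mod_cast Nat.succ_ne_zero s
    refine mul_left_cancel₀ hs ?_
    set T := Polynomial.X * T₁ with hT
    set P : ℕ → Fin n → Fin n → ℚ⟦X⟧ := fun s i k => ((ah T (fun a b => A b a) s i k : Polynomial ℚ) : ℚ⟦X⟧) with hP
    -- the derivation
    have hder : ∀ f : ℚ⟦X⟧, ps T₁ ^ s * (X * d⁄dX ℚ f) * ps T₁ = ps T₁ * (X * d⁄dX ℚ (ps T₁ ^ s * f)) -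
        (s : ℚ⟦X⟧) * (X * d⁄dX ℚ (ps T₁)) * (ps T₁ ^ s * f) := by
      intro f
      rw [(d⁄dX ℚ).leibniz (ps T₁ ^ s) f, (d⁄dX ℚ).leibniz_pow]
      simp only [smul_eq_mul, nsmul_eq_mul]
      rcases s with _ | r
      · simp only [pow_zero, one_mul, Nat.cast_zero, zero_mul, sub_zero, mul_zero, add_zero]
        ring
      · rw [Nat.add_sub_cancel, pow_succ]
        ring
    have hPrec : ∀ k, ((s : ℚ⟦X⟧) + 1) * P (s + 1) i k = X * ps T₁ * d⁄dX ℚ (P s i k) -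
        (s : ℚ⟦X⟧) * ((ps T₁ + X * d⁄dX ℚ (ps T₁)) * P s i k) + ∑ l, ps (A l k) * P s i l := by
      intro k
      rw [hP]
      simp only
      rw [ah_succ]
      rw [Polynomial.coe_mul, Polynomial.coe_C, Polynomial.coe_add, Polynomial.coe_sub, Polynomial.coe_mul, Polynomial.coe_mul,
        Polynomial.coe_mul, Polynomial.coe_C, ← mul_assoc, ← PowerSeries.derivative_coe, ← PowerSeries.derivative_coe, psq]
      have e1 : ((s : ℚ⟦X⟧) + 1) * C (1 / ((s : ℚ) + 1)) = 1 := by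
        have e2 : ((s : ℚ⟦X⟧) + 1) = C ((s : ℚ) + 1) := by rw [map_add, map_one, map_natCast]
        have e3 : ((s : ℚ) + 1) ≠ 0 := by positivity
        rw [e2, ← map_mul, mul_one_div_cancel e3, map_one]
      rw [e1, one_mul, hT, ps_X_mul, (d⁄dX ℚ).leibniz]
      simp only [smul_eq_mul, PowerSeries.derivative_X, map_natCast]
      congr 1
      · ring
      · rw [← Polynomial.coeToPowerSeries.ringHom_apply, map_sum]
        refine Finset.sum_congr rfl fun l _ => ?_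
        rw [map_mul]
        rfl
    have hYs := YY_succ (H := H) (N := N) s i j
    have hih := ih i j
    -- left side
    have hL : ((s : ℚ⟦X⟧) + 1) * (ps T₁ ^ (s + 1) * YY H N (s + 1) i j) =
        ps T₁ * (X * d⁄dX ℚ (∑ k, P s i k * H k j)) - (s : ℚ⟦X⟧) * (X * d⁄dX ℚ (ps T₁)) * (∑ k, P s i k * H k j) +
        ps T₁ * (∑ l, (∑ k, P s i k * H k l) * C (N l j)) - (s : ℚ⟦X⟧) * ps T₁ * ∑ k, P s i k * H k j := by
      have e1 : ∀ l, (∑ k, P s i k * H k l) * C (N l j) = ps T₁ ^ s * (YY H N s i l * C (N l j)) := by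
        intro l
        rw [← ih i l]
        ring
      simp only [e1]
      rw [← hih, ← hder, ← Finset.mul_sum]
      calc ((s : ℚ⟦X⟧) + 1) * (ps T₁ ^ (s + 1) * YY H N (s + 1) i j)
          = ps T₁ ^ (s + 1) * (((s : ℚ⟦X⟧) + 1) * YY H N (s + 1) i j) := by ring
        _ = _ := by rw [hYs]; ring
    rw [hL]
    have hR : ∀ k, ((s : ℚ⟦X⟧) + 1) * (((ah T (fun a b => A b a) (s + 1) i k : Polynomial ℚ) : ℚ⟦X⟧) * H k j) =
        ps T₁ * (X * d⁄dX ℚ (P s i k) * H k j) - (s : ℚ⟦X⟧) * (ps T₁ + X * d⁄dX ℚ (ps T₁)) * (P s i k * H k j) +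
          (∑ l, ps (A l k) * P s i l) * H k j := by
      intro k
      have e1 : ((s : ℚ⟦X⟧) + 1) * (((ah T (fun a b => A b a) (s + 1) i k : Polynomial ℚ) : ℚ⟦X⟧) * H k j) =
        (((s : ℚ⟦X⟧) + 1) * P (s + 1) i k) * H k j := by rw [hP]; ring
      rw [e1, hPrec k]
      ring
    have hD : X * d⁄dX ℚ (∑ k, P s i k * H k j) = ∑ k, X * d⁄dX ℚ (P s i k) * H k j + ∑ k, P s i k * (X * d⁄dX ℚ (H k j)) := by
      rw [map_sum, Finset.mul_sum, ← Finset.sum_add_distrib]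
      refine Finset.sum_congr rfl fun k _ => ?_
      rw [(d⁄dX ℚ).leibniz]
      simp only [smul_eq_mul]
      ring
    have hNs : (∑ l, (∑ k, P s i k * H k l) * C (N l j)) = ∑ k, P s i k * ∑ l, H k l * C (N l j) := by
      simp only [Finset.sum_mul, Finset.mul_sum]
      rw [Finset.sum_comm]
      exact Finset.sum_congr rfl fun k _ => Finset.sum_congr rfl fun l _ => by ring
    have hfin : ∑ k, (∑ l, ps (A l k) * P s i l) * H k j =
        ps T₁ * (∑ k, P s i k * (X * d⁄dX ℚ (H k j))) + ps T₁ * ∑ k, P s i k * ∑ l, H k l * C (N l j) := by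
      have e1 : ∑ k, (∑ l, ps (A l k) * P s i l) * H k j = ∑ k, P s i k * ∑ l, ps (A k l) * H l j := by
        simp only [Finset.sum_mul, Finset.mul_sum]
        rw [Finset.sum_comm]
        exact Finset.sum_congr rfl fun k _ => Finset.sum_congr rfl fun l _ => by ring
      rw [e1, Finset.mul_sum, Finset.mul_sum, ← Finset.sum_add_distrib]
      refine Finset.sum_congr rfl fun k _ => ?_
      rw [← hode k j]
      ring
    have hRs : ((s : ℚ⟦X⟧) + 1) * ∑ k, ((ah T (fun a b => A b a) (s + 1) i k : Polynomial ℚ) : ℚ⟦X⟧) * H k j =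
        ps T₁ * (∑ k, X * d⁄dX ℚ (P s i k) * H k j) -
          (s : ℚ⟦X⟧) * (ps T₁ + X * d⁄dX ℚ (ps T₁)) * (∑ k, P s i k * H k j) +
          (ps T₁ * (∑ k, P s i k * (X * d⁄dX ℚ (H k j))) + ps T₁ * ∑ k, P s i k * ∑ l, H k l * C (N l j)) := by
      rw [← hfin, Finset.mul_sum, Finset.sum_congr rfl fun k _ => hR k, Finset.sum_add_distrib, Finset.sum_sub_distrib,
        ← Finset.mul_sum, ← Finset.mul_sum]
    rw [hRs, hD, hNs]
    ring

/-- the coefficients of `YY` have common denominators -/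
lemma YY_IS {m K d D : ℕ} (hH : ∀ i j, IS m d (H i j))
    (hD : ∀ f : Polynomial ℚ, ∀ L : ℕ, f ∈ Pool.Agent.Y119.HY.SPo L → ∀ i j,
      ∃ a : ℤ, ((D * L ^ n : ℕ) : ℚ) * (Polynomial.aeval N f) i j = a) {s : ℕ} (hs : s ≤ K) (i j : Fin n) :
    IS m (d * (D * (Nat.lcmUpto K) ^ n)) (YY H N s i j) := by
  intro k hk
  rw [coeff_YY, Matrix.mul_apply, Finset.mul_sum]
  have h1 : ∀ l, ∃ a : ℤ, ((d * (D * (Nat.lcmUpto K) ^ n) : ℕ) : ℚ) * (cf H k i l *
      Ring.choose ((k : Matrix (Fin n) (Fin n) ℚ) + N) s l j) = a := by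
    intro l
    obtain ⟨a, ha⟩ := hH i l k hk
    have h2 := choose_mem' (L := Nat.lcmUpto K) (K := K) (fun i h1 h2 => dvd_lcmUpto h1 h2) k hs
    obtain ⟨b, hb⟩ := hD _ _ h2 l j
    rw [choose_aeval, map_add, map_natCast, Polynomial.aeval_X] at hb
    refine ⟨a * b, ?_⟩
    rw [Nat.cast_mul, Int.cast_mul, ← ha, ← hb]
    unfold cf
    rw [Matrix.map_apply]
    ring
  choose a ha using h1
  refine ⟨∑ l, a l, ?_⟩
  rw [Int.cast_sum]
  exact Finset.sum_congr rfl fun l _ => ha l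

lemma bd_exists {ι : Type} [Fintype ι] (P : ι → Polynomial ℤ) : ∃ (q : ℕ) (B : ℝ), 1 ≤ B ∧ ∀ i, Bd q B (P i) := by
  classical
  refine ⟨∑ i, (P i).natDegree, 1 + ∑ i, ∑ l ∈ Finset.range ((P i).natDegree + 1), |(((P i).coeff l : ℤ) : ℝ)|, ?_, fun i => ⟨?_, fun l => ?_⟩⟩
  · have : 0 ≤ ∑ i, ∑ l ∈ Finset.range ((P i).natDegree + 1), |(((P i).coeff l : ℤ) : ℝ)| :=
      Finset.sum_nonneg fun _ _ => Finset.sum_nonneg fun _ _ => abs_nonneg _
    linarith
  · exact Finset.single_le_sum (f := fun i => (P i).natDegree) (fun _ _ => Nat.zero_le _) (Finset.mem_univ i)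
  · have h0 : ∑ l ∈ Finset.range ((P i).natDegree + 1), |(((P i).coeff l : ℤ) : ℝ)| ≤
        ∑ i, ∑ l ∈ Finset.range ((P i).natDegree + 1), |(((P i).coeff l : ℤ) : ℝ)| :=
      Finset.single_le_sum (f := fun i => ∑ l ∈ Finset.range ((P i).natDegree + 1), |(((P i).coeff l : ℤ) : ℝ)|)
        (fun _ _ => Finset.sum_nonneg fun _ _ => abs_nonneg _) (Finset.mem_univ i)
    have h3 : 0 ≤ ∑ l ∈ Finset.range ((P i).natDegree + 1), |(((P i).coeff l : ℤ) : ℝ)| :=
      Finset.sum_nonneg fun _ _ => abs_nonneg _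
    by_cases hl : l < (P i).natDegree + 1
    · have h1 := Finset.single_le_sum (f := fun l => |(((P i).coeff l : ℤ) : ℝ)|) (fun _ _ => abs_nonneg _) (Finset.mem_range.2 hl)
      linarith
    · rw [Polynomial.coeff_eq_zero_of_natDegree_lt (by omega)]
      simp
      linarith

lemma ah_GP (hN : N ^ n = 0) (hHW : H * W = 1)
    (hode : ∀ i j, ps T₁ * (X * d⁄dX ℚ (H i j) + ∑ k, H i k * C (N k j)) = ∑ k, ps (A i k) * H k j)
    (hH : ∀ i j, SDc (H i j)) (hW : ∀ i j, SDc (W i j)) {q : ℕ} {B : ℝ} (hB : 1 ≤ B) (hT : Bd q B (Polynomial.X * T₁))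
    (hA : ∀ i j, Bd q B (A i j)) (i k : Fin n) : GP q fun s => ah (Polynomial.X * T₁) (fun a b => A b a) s i k := by
  have hsize := ah_size (T := Polynomial.X * T₁) (A := fun a b => A b a) hB hT (fun i j => hA j i)
  obtain ⟨D, hD0, hD⟩ := choose_den hN
  obtain ⟨CH, hCH, -, hHd⟩ := Pool.Agent.Y119.HY.SDc.unif (y := fun p : Fin n × Fin n => H p.1 p.2) fun p => hH p.1 p.2
  obtain ⟨CW, hCW, -, hWd⟩ := Pool.Agent.Y119.HY.SDc.unif (y := fun p : Fin n × Fin n => W p.1 p.2) fun p => hW p.1 p.2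
  have hcc := one_le_cc n q
  have hCC : 1 ≤ (cc n q : ℝ) * B := by nlinarith
  have hD1 : (1 : ℝ) ≤ D := by exact_mod_cast hD0
  set G : ℝ := CH ^ (q + 1) * (D * (2 ^ 8) ^ n) * CW ^ (q + 1) with hG
  have h2n : (1 : ℝ) ≤ (2 ^ 8) ^ n := one_le_pow₀ (by norm_num)
  have hHq : 1 ≤ CH ^ (q + 1) := one_le_pow₀ hCH
  have hWq : 1 ≤ CW ^ (q + 1) := one_le_pow₀ hCW
  have hG1 : 1 ≤ G := one_le_mul_of_one_le_of_one_le (one_le_mul_of_one_le_of_one_le hHq
    (one_le_mul_of_one_le_of_one_le hD1 h2n)) hWq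
  refine ⟨(cc n q * B) * G, one_le_mul_of_one_le_of_one_le hCC hG1, fun s => ?_, fun K => ?_⟩
  · refine (hsize s i k).mono le_rfl ?_
    calc ((cc n q : ℝ) * B) ^ s ≤ ((cc n q : ℝ) * B) ^ (s + 1) := pow_le_pow_right₀ hCC (Nat.le_succ s)
      _ ≤ _ := pow_le_pow_left₀ (by linarith) (le_mul_of_one_le_right (by linarith) hG1) _
  · obtain ⟨dH, hdH0, hdH, hdH'⟩ := hHd (q * K)
    obtain ⟨dW, hdW0, hdW, hdW'⟩ := hWd (q * K)
    refine ⟨dH * (D * (Nat.lcmUpto K) ^ n) * dW, ?_, ?_, fun s hs => ?_⟩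
    · have := Nat.lcmUpto_pos K
      positivity
    · push_cast
      have e1 : (dH : ℝ) ≤ (CH ^ (q + 1)) ^ (K + 1) := by
        rw [← pow_mul]
        exact hdH.trans (pow_le_pow_right₀ hCH (by nlinarith))
      have e2 : (dW : ℝ) ≤ (CW ^ (q + 1)) ^ (K + 1) := by
        rw [← pow_mul]
        exact hdW.trans (pow_le_pow_right₀ hCW (by nlinarith))
      have e3 : (D : ℝ) * ((Nat.lcmUpto K : ℕ) : ℝ) ^ n ≤ (D * (2 ^ 8) ^ n) ^ (K + 1) := by
        rw [mul_pow]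
        refine mul_le_mul (le_self_pow₀ hD1 (by omega)) ?_ (by positivity) (by positivity)
        calc ((Nat.lcmUpto K : ℕ) : ℝ) ^ n ≤ ((2 ^ 8) ^ K) ^ n := pow_le_pow_left₀ (by positivity) (lcm_bound K) _
          _ ≤ ((2 ^ 8) ^ n) ^ (K + 1) := by
            have hB : (1 : ℝ) ≤ 2 ^ 8 := one_le_pow₀ (by norm_num)
            generalize ((2 : ℝ) ^ 8) = B at hB ⊢
            rw [← pow_mul, ← pow_mul]
            exact pow_le_pow_right₀ hB (by nlinarith)
      calc (dH : ℝ) * (D * ((Nat.lcmUpto K : ℕ) : ℝ) ^ n) * dW ≤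
            (CH ^ (q + 1)) ^ (K + 1) * (D * (2 ^ 8) ^ n) ^ (K + 1) * (CW ^ (q + 1)) ^ (K + 1) :=
              mul_le_mul (mul_le_mul e1 e3 (by positivity) (by positivity)) e2 (by positivity) (by positivity)
        _ = G ^ (K + 1) := by rw [hG, mul_pow _ (CW ^ (q + 1)), mul_pow (CH ^ (q + 1))]
        _ ≤ _ := pow_le_pow_left₀ (by linarith) (le_mul_of_one_le_left (by linarith) hCC) _
    · have key : ((ah (Polynomial.X * T₁) (fun a b => A b a) s i k : Polynomial ℚ) : ℚ⟦X⟧) =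
          ∑ j, (ps T₁ ^ s * YY H N s i j) * W j k := by
        simp only [YY_ah hode, Finset.sum_mul]
        rw [Finset.sum_comm]
        have h1 : ∀ l, ∑ j, (((ah (Polynomial.X * T₁) (fun a b => A b a) s i l : Polynomial ℚ) : ℚ⟦X⟧) * H l j) * W j k =
            ((ah (Polynomial.X * T₁) (fun a b => A b a) s i l : Polynomial ℚ) : ℚ⟦X⟧) * (if l = k then 1 else 0) := by
          intro l
          rw [← Matrix.one_apply, ← hHW, Matrix.mul_apply, Finset.mul_sum]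
          exact Finset.sum_congr rfl fun j _ => by ring
        simp only [h1]
        simp
      have hIS : IS (q * K) (dH * (D * (Nat.lcmUpto K) ^ n) * dW)
          ((ah (Polynomial.X * T₁) (fun a b => A b a) s i k : Polynomial ℚ) : ℚ⟦X⟧) := by
        rw [key]
        refine IS.sum _ fun j _ => ?_
        have h1 := (IS.ps_pow (q * K) T₁ s).mul (YY_IS (N := N) (fun i j => hdH' (i, j)) hD hs i j)
        rw [one_mul] at h1
        exact h1.mul (hdW' (j, k))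
      refine IP.of_coeff fun m => ?_
      by_cases hm : m ≤ q * s
      · obtain ⟨a, ha⟩ := hIS m (hm.trans (Nat.mul_le_mul_left q hs))
        exact ⟨a, by rw [← ha, Polynomial.coeff_coe]⟩
      · refine ⟨0, ?_⟩
        rw [Polynomial.coeff_eq_zero_of_natDegree_lt (lt_of_le_of_lt (hsize s i k).1 (by omega))]
        simp

/-- the coefficient polynomials -/
noncomputable def PP (T₁ : Polynomial ℤ) (A : Fin n → Fin n → Polynomial ℤ) (N : Matrix (Fin n) (Fin n) ℚ)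
    (a b : Fin n × Fin n) (s : ℕ) : Polynomial ℚ :=
  ∑ p ∈ antidiagonal s, ah (Polynomial.X * T₁) (fun a b => A b a) p.1 a.1 b.1 *
    (Polynomial.C (Ring.choose (-N) p.2 b.2 a.2) * (T₁.map (Int.castRingHom ℚ)) ^ p.2)

lemma PP_GP (hN : N ^ n = 0) (hHW : H * W = 1)
    (hode : ∀ i j, ps T₁ * (X * d⁄dX ℚ (H i j) + ∑ k, H i k * C (N k j)) = ∑ k, ps (A i k) * H k j)
    (hH : ∀ i j, SDc (H i j)) (hW : ∀ i j, SDc (W i j)) {q : ℕ} {B : ℝ} (hB : 1 ≤ B) (hT : Bd q B (Polynomial.X * T₁))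
    (hA : ∀ i j, Bd q B (A i j)) (hT1 : T₁.natDegree ≤ q) (a b : Fin n × Fin n) : GP q (PP T₁ A N a b) := by
  have h1 := ah_GP hN hHW hode hH hW hB hT hA a.1 b.1
  have h2 : GP q (fun s => Polynomial.C (Ring.choose (-N) s b.2 a.2) * (T₁.map (Int.castRingHom ℚ)) ^ s) :=
    Pool.Agent.Y119.HY.GP.smul (c := fun s => Ring.choose (-N) s b.2 a.2) (choose_GP hN b.2 a.2)
      (Pool.Agent.Y119.HY.GP.pow hT1)
  unfold PP
  exact Pool.Agent.Y119.HY.GP.cauchy (P := fun s => ah (Polynomial.X * T₁) (fun a b => A b a) s a.1 b.1)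
    (R := fun s => Polynomial.C (Ring.choose (-N) s b.2 a.2) * (T₁.map (Int.castRingHom ℚ)) ^ s) h1 h2

lemma PP_coe (a b : Fin n × Fin n) (s : ℕ) : ((PP T₁ A N a b s : Polynomial ℚ) : ℚ⟦X⟧) =
    ∑ p ∈ antidiagonal s, ((ah (Polynomial.X * T₁) (fun a b => A b a) p.1 a.1 b.1 : Polynomial ℚ) : ℚ⟦X⟧) *
      (C (Ring.choose (-N) p.2 b.2 a.2) * ps T₁ ^ p.2) := by
  unfold PP
  have h0 : ∀ f : Polynomial ℚ, (f : ℚ⟦X⟧) = Polynomial.coeToPowerSeries.ringHom f := fun f => rfl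
  rw [h0, map_sum]
  refine Finset.sum_congr rfl fun p _ => ?_
  rw [map_mul, map_mul, map_pow, ← h0, ← h0, ← h0, Polynomial.coe_C]
  rfl

lemma hd_PP (hode : ∀ i j, ps T₁ * (X * d⁄dX ℚ (H i j) + ∑ k, H i k * C (N k j)) = ∑ k, ps (A i k) * H k j) (s : ℕ)
    (a : Fin n × Fin n) : ps (Polynomial.X * T₁) ^ s * hd s (H a.1 a.2) =
      ∑ b : Fin n × Fin n, ((PP T₁ A N a b s : Polynomial ℚ) : ℚ⟦X⟧) * H b.1 b.2 := by
  have h1 : ps (Polynomial.X * T₁) ^ s * hd s (H a.1 a.2) = ps T₁ ^ s * (X ^ s * hd s (H a.1 a.2)) := by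
    rw [ps_X_mul, mul_pow]
    ring
  rw [h1, YY_hd (N := N), Finset.mul_sum]
  have h2 : ∀ b : Fin n × Fin n, ((PP T₁ A N a b s : Polynomial ℚ) : ℚ⟦X⟧) * H b.1 b.2 =
      ∑ p ∈ antidiagonal s, ((ah (Polynomial.X * T₁) (fun a b => A b a) p.1 a.1 b.1 : Polynomial ℚ) : ℚ⟦X⟧) *
      (C (Ring.choose (-N) p.2 b.2 a.2) * ps T₁ ^ p.2) * H b.1 b.2 := by
    intro b
    rw [PP_coe, Finset.sum_mul]
  rw [Finset.sum_congr rfl fun b _ => h2 b, Finset.sum_comm]
  refine Finset.sum_congr rfl fun p hp => ?_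
  rw [mem_antidiagonal] at hp
  have h5 : ps T₁ ^ s = ps T₁ ^ p.1 * ps T₁ ^ p.2 := by rw [← pow_add, hp]
  have h6 : ∀ l, ps T₁ ^ s * (YY H N p.1 a.1 l * C (Ring.choose (-N) p.2 l a.2)) =
      ∑ k, ((ah (Polynomial.X * T₁) (fun a b => A b a) p.1 a.1 k : Polynomial ℚ) : ℚ⟦X⟧) *
        (C (Ring.choose (-N) p.2 l a.2) * ps T₁ ^ p.2) * H k l := by
    intro l
    have h4 := YY_ah hode p.1 a.1 l
    have h7 : ps T₁ ^ s * (YY H N p.1 a.1 l * C (Ring.choose (-N) p.2 l a.2)) =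
        (ps T₁ ^ p.1 * YY H N p.1 a.1 l) * (C (Ring.choose (-N) p.2 l a.2) * ps T₁ ^ p.2) := by rw [h5]; ring
    rw [h7, h4, Finset.sum_mul]
    exact Finset.sum_congr rfl fun k _ => by ring
  rw [Finset.mul_sum, Finset.sum_congr rfl fun l _ => h6 l, Finset.sum_comm, Fintype.sum_prod_type]

/-- **The entries of the holomorphic part form a G-system.** -/
theorem gsysL (hN : N ^ n = 0) (hHW : H * W = 1)
    (hode : ∀ i j, ps T₁ * (X * d⁄dX ℚ (H i j) + ∑ k, H i k * C (N k j)) = ∑ k, ps (A i k) * H k j)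
    (hH : ∀ i j, SDc (H i j)) (hW : ∀ i j, SDc (W i j)) :
    ∃ (q : ℕ) (C : ℝ), GSys q C (Polynomial.X * T₁) (fun p : Fin n × Fin n => H p.1 p.2) := by
  obtain ⟨q, B, hB, hbd⟩ := bd_exists (fun o : Option (Option (Fin n × Fin n)) => o.elim (Polynomial.X * T₁) fun o =>
    o.elim T₁ fun p => A p.1 p.2)
  have hT : Bd q B (Polynomial.X * T₁) := hbd none
  have hT1 : Bd q B T₁ := hbd (some none)
  have hA : ∀ i j, Bd q B (A i j) := fun i j => hbd (some (some (i, j)))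
  have hGP : ∀ a b, GP q (PP T₁ A N a b) := fun a b => PP_GP hN hHW hode hH hW hB hT hA hT1.1 a b
  exact ⟨q, gsys_of_GP hT.1 (fun p => hH p.1 p.2) (PP T₁ A N) hGP fun s a => hd_PP hode s a⟩

end

end Pool.Agent.Y119.HZ
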