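import Mathlib
import Pool.Agent.W948.ZC.TR

/-!
# Hypergeometric families: density of the group generated by a regular unipotent group and a transvection

`J` is an invertible alternating matrix, `N` a nilpotent element of its Lie algebra with `N ^ (n - 1) ≠ 0`. A monoid of
matrices which is closed under specialisation of polynomial families and under conjugation by `exp (c N)` and which contains
the transvections in the direction of a vector `v` with `ω(v, N ^ (n - 1) v) ≠ 0` contains the symplectic group.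
-/

set_option autoImplicit false

open Matrix

namespace Pool.Agent.Y119.HY

variable {n : ℕ}

/-- the form -/
def om (J : Matrix (Fin n) (Fin n) ℂ) (u v : Fin n → ℂ) : ℂ := u ⬝ᵥ (J *ᵥ v)

/-- transvections `x ↦ x + s ω(v, x) v` -/
noncomputable def tv (J : Matrix (Fin n) (Fin n) ℂ) (v : Fin n → ℂ) (s : ℂ) : Matrix (Fin n) (Fin n) ℂ :=
  1 + s • vecMulVec v (v ᵥ* J)

variable {J : Matrix (Fin n) (Fin n) ℂ}

lemma om_eq (u v : Fin n → ℂ) : om J u v = (u ᵥ* J) ⬝ᵥ v := by
  unfold om
  rw [dotProduct_mulVec]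

lemma om_skew (hJ : J.transpose = -J) (u v : Fin n → ℂ) : om J v u = -om J u v := by
  unfold om
  have h1 : v ⬝ᵥ (J *ᵥ u) = u ⬝ᵥ (J.transpose *ᵥ v) := by
    rw [mulVec_transpose, dotProduct_comm u, ← dotProduct_mulVec]
  rw [h1, hJ, neg_mulVec, dotProduct_neg]

lemma om_self (hJ : J.transpose = -J) (u : Fin n → ℂ) : om J u u = 0 := by
  have h := om_skew hJ u u
  have : (2 : ℂ) * om J u u = 0 := by linear_combination h
  simpa using this

lemma om_add (u v w : Fin n → ℂ) : om J u (v + w) = om J u v + om J u w := by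
  unfold om; rw [mulVec_add, dotProduct_add]

lemma om_smul (c : ℂ) (u v : Fin n → ℂ) : om J u (c • v) = c * om J u v := by
  unfold om; rw [mulVec_smul, dotProduct_smul, smul_eq_mul]

lemma tv_mulVec (v x : Fin n → ℂ) (s : ℂ) : tv J v s *ᵥ x = x + (s * om J v x) • v := by
  unfold tv
  rw [add_mulVec, one_mulVec, smul_mulVec, vecMulVec_mulVec, om_eq]
  congr 1
  ext i
  simp only [Pi.smul_apply, MulOpposite.smul_eq_mul_unop, MulOpposite.unop_op, smul_eq_mul]
  ring

lemma tv_conj (g h : Matrix (Fin n) (Fin n) ℂ) (hgh : g * h = 1) (hg : g.transpose * J * g = J)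
    (v : Fin n → ℂ) (s : ℂ) : g * tv J v s * h = tv J (g *ᵥ v) s := by
  unfold tv
  rw [mul_add, mul_one, add_mul, hgh, mul_smul_comm, smul_mul_assoc, mul_vecMulVec, vecMulVec_mul]
  congr 3
  have h1 : J * h = g.transpose * J := by
    calc J * h = g.transpose * J * g * h := by rw [hg]
      _ = g.transpose * J * (g * h) := by rw [Matrix.mul_assoc]
      _ = g.transpose * J := by rw [hgh, mul_one]
  rw [vecMul_vecMul, h1, ← vecMul_vecMul, vecMul_transpose]

lemma tv_mul_neg (hJ : J.transpose = -J) (v : Fin n → ℂ) (s : ℂ) : tv J v s * tv J v (-s) = 1 := by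
  have h : vecMulVec v (v ᵥ* J) * vecMulVec v (v ᵥ* J) = 0 := by
    rw [vecMulVec_mul_vecMulVec, ← om_eq, om_self hJ, zero_smul, vecMulVec_zero]
  unfold tv
  rw [mul_add, add_mul, add_mul, smul_mul_smul_comm, h]
  simp

lemma tv_isom (hJ : J.transpose = -J) (v : Fin n → ℂ) (s : ℂ) : (tv J v s).transpose * J * tv J v s = J := by
  have hT : (vecMulVec v (v ᵥ* J)).transpose = vecMulVec (v ᵥ* J) v := transpose_vecMulVec _ _
  have h1 : vecMulVec (v ᵥ* J) v * J = vecMulVec (v ᵥ* J) (v ᵥ* J) := vecMulVec_mul _ _ _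
  have h2 : J * vecMulVec v (v ᵥ* J) = -vecMulVec (v ᵥ* J) (v ᵥ* J) := by
    rw [mul_vecMulVec]
    have : J *ᵥ v = -(v ᵥ* J) := by
      rw [← mulVec_transpose, hJ, neg_mulVec, neg_neg]
    rw [this, neg_vecMulVec]
  have h3 : vecMulVec (v ᵥ* J) v * J * vecMulVec v (v ᵥ* J) = 0 := by
    rw [h1, vecMulVec_mul_vecMulVec, ← om_eq, om_self hJ, zero_smul, vecMulVec_zero]
  unfold tv
  rw [transpose_add, transpose_one, transpose_smul, hT, add_mul, one_mul, add_mul, smul_mul_assoc, mul_add, mul_one,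
    mul_add, mul_one, h1, mul_smul_comm, h2]
  rw [smul_mul_assoc, mul_smul_comm, ← h1, h3]
  simp

lemma tv_smul (v : Fin n → ℂ) (c s : ℂ) : tv J (c • v) s = tv J v (c ^ 2 * s) := by
  unfold tv
  rw [smul_vecMul, smul_vecMulVec, vecMulVec_smul, smul_smul, smul_smul]
  congr 2
  ring

/-- the exponential of a nilpotent matrix -/
noncomputable def E (N : Matrix (Fin n) (Fin n) ℂ) (s : ℂ) : Matrix (Fin n) (Fin n) ℂ :=
  ∑ i ∈ Finset.range n, (s ^ i / (i.factorial : ℂ)) • N ^ i

section exp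

variable {N : Matrix (Fin n) (Fin n) ℂ}

attribute [local instance] Matrix.linftyOpNormedRing Matrix.linftyOpNormedAlgebra

lemma E_exp (hN : N ^ n = 0) (s : ℂ) : E N s = NormedSpace.exp (s • N) := by
  rw [NormedSpace.exp_eq_tsum ℂ]
  symm
  rw [show E N s = ∑ i ∈ Finset.range n, ((i.factorial : ℂ)⁻¹ • (s • N) ^ i) from ?_]
  · refine tsum_eq_sum fun i hi => ?_
    rw [Finset.mem_range, not_lt] at hi
    rw [smul_pow, pow_eq_zero_of_le hi hN, smul_zero, smul_zero]
  · unfold E
    refine Finset.sum_congr rfl fun i _ => ?_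
    rw [smul_pow, smul_smul]
    congr 1
    field_simp

lemma E_add (hN : N ^ n = 0) (s t : ℂ) : E N (s + t) = E N s * E N t := by
  rw [E_exp hN, E_exp hN, E_exp hN, add_smul]
  exact NormedSpace.exp_add_of_commute (((Commute.refl N).smul_left s).smul_right t)

lemma E_zero (hN : N ^ n = 0) : E N 0 = 1 := by
  rw [E_exp hN, zero_smul, NormedSpace.exp_zero]

end exp

variable {N : Matrix (Fin n) (Fin n) ℂ}

lemma E_mul_neg (hN : N ^ n = 0) (s : ℂ) : E N s * E N (-s) = 1 := by
  rw [← E_add hN, add_neg_cancel, E_zero hN]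

lemma pow_skew (hNJ : N.transpose * J + J * N = 0) (i : ℕ) : (N ^ i).transpose * J = (-1 : ℂ) ^ i • (J * N ^ i) := by
  induction i with
  | zero => simp
  | succ i ih =>
    have h1 : N.transpose * J = -(J * N) := eq_neg_of_add_eq_zero_left hNJ
    rw [pow_succ, transpose_mul, Matrix.mul_assoc, ih, mul_smul_comm, ← Matrix.mul_assoc, h1, pow_succ (-1 : ℂ)]
    rw [Matrix.neg_mul, Matrix.mul_assoc J N, ← pow_succ', pow_succ N i]
    simp

lemma E_isom (hN : N ^ n = 0) (hNJ : N.transpose * J + J * N = 0) (s : ℂ) : (E N s).transpose * J * E N s = J := by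
  have h1 : (E N s).transpose * J = J * E N (-s) := by
    unfold E
    rw [transpose_sum, Finset.sum_mul, Finset.mul_sum]
    refine Finset.sum_congr rfl fun i _ => ?_
    rw [transpose_smul, smul_mul_assoc, pow_skew hNJ, mul_smul_comm, smul_smul]
    congr 1
    rw [neg_pow s i]
    ring
  rw [h1, Matrix.mul_assoc, ← E_add hN, neg_add_cancel, E_zero hN, mul_one]

/-- linear independence of the chain of a cyclic vector -/
lemma chain_li {v : Fin n → ℂ} (hN : N ^ n = 0) (hv : (N ^ (n - 1)) *ᵥ v ≠ 0) :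
    LinearIndependent ℂ fun i : Fin n => (N ^ (i : ℕ)) *ᵥ v := by
  rw [Fintype.linearIndependent_iff]
  intro a ha
  have key : ∀ k : ℕ, ∀ i : Fin n, (i : ℕ) = k → a i = 0 := by
    intro k
    induction k using Nat.strong_induction_on with
    | _ k ih =>
      intro i hi
      have h1 := congrArg (fun x => (N ^ (n - 1 - k)) *ᵥ x) ha
      simp only [mulVec_zero] at h1
      rw [mulVec_sum] at h1
      rw [Finset.sum_eq_single i] at h1
      · rw [mulVec_smul, mulVec_mulVec, ← pow_add] at h1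
        have h2 : n - 1 - k + (i : ℕ) = n - 1 := by omega
        rw [h2] at h1
        exact (smul_eq_zero.1 h1).resolve_right hv
      · intro j _ hj
        rcases lt_or_gt_of_ne (fun h => hj (Fin.ext (h.trans hi.symm)) : (j : ℕ) ≠ k) with h | h
        · rw [ih j h j rfl, zero_smul, mulVec_zero]
        · rw [mulVec_smul, mulVec_mulVec, ← pow_add, pow_eq_zero_of_le (by omega) hN, zero_mulVec, smul_zero]
      · simp
  exact fun i => key i i rfl

lemma chain_ker {v : Fin n → ℂ} (hN : N ^ n = 0) (hv : (N ^ (n - 1)) *ᵥ v ≠ 0) (l : (Fin n → ℂ) →ₗ[ℂ] ℂ)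
    (hl : ∀ i : Fin n, l ((N ^ (i : ℕ)) *ᵥ v) = 0) : l = 0 := by
  have h1 := (chain_li hN hv).span_eq_top_of_card_eq_finrank' (by simp)
  refine LinearMap.ext_on h1 ?_
  rintro _ ⟨i, rfl⟩
  simpa using hl i

/-- the polynomial `l (E N c v)` -/
noncomputable def pl (N : Matrix (Fin n) (Fin n) ℂ) (v : Fin n → ℂ) (l : (Fin n → ℂ) →ₗ[ℂ] ℂ) : Polynomial ℂ :=
  ∑ i : Fin n, Polynomial.monomial (i : ℕ) (l ((N ^ (i : ℕ)) *ᵥ v) / ((i : ℕ).factorial : ℂ))

lemma pl_eval (v : Fin n → ℂ) (l : (Fin n → ℂ) →ₗ[ℂ] ℂ) (c : ℂ) : (pl N v l).eval c = l (E N c *ᵥ v) := by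
  unfold pl E
  rw [Polynomial.eval_finsetSum, sum_mulVec, map_sum, Finset.sum_range]
  refine Finset.sum_congr rfl fun i _ => ?_
  rw [Polynomial.eval_monomial, smul_mulVec, map_smul, smul_eq_mul]
  ring

lemma pl_coeff (v : Fin n → ℂ) (l : (Fin n → ℂ) →ₗ[ℂ] ℂ) (i : Fin n) :
    (pl N v l).coeff i = l ((N ^ (i : ℕ)) *ᵥ v) / ((i : ℕ).factorial : ℂ) := by
  unfold pl
  rw [Polynomial.finsetSum_coeff, Finset.sum_eq_single i]
  · rw [Polynomial.coeff_monomial, if_pos rfl]
  · intro j _ hj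
    rw [Polynomial.coeff_monomial, if_neg (fun h => hj (Fin.ext h))]
  · simp

lemma pl_ne {v : Fin n → ℂ} (hN : N ^ n = 0) (hv : (N ^ (n - 1)) *ᵥ v ≠ 0) {l : (Fin n → ℂ) →ₗ[ℂ] ℂ} (hl : l ≠ 0) :
    pl N v l ≠ 0 := by
  intro h
  refine hl (chain_ker hN hv l fun i => ?_)
  have h1 := pl_coeff (N := N) v l i
  rw [h, Polynomial.coeff_zero] at h1
  have h2 : ((i : ℕ).factorial : ℂ) ≠ 0 := by exact_mod_cast (i : ℕ).factorial_ne_zero
  exact (div_eq_zero_iff.1 h1.symm).resolve_right h2

section main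

variable (hJ : J.transpose = -J) (hN : N ^ n = 0) (hNJ : N.transpose * J + J * N = 0) {v : Fin n → ℂ}
  (hv : om J v ((N ^ (n - 1)) *ᵥ v) ≠ 0) (S : Submonoid (Matrix (Fin n) (Fin n) ℂ))
  (hE : ∀ c : ℂ, ∀ g ∈ S, E N c * g * E N (-c) ∈ S) (hvS : ∀ s, tv J v s ∈ S)
  (hcl : ∀ M : Matrix (Fin n) (Fin n) (Polynomial ℂ), (∀ c : ℂ, c ≠ 0 → M.map (Polynomial.eval c) ∈ S) →
    M.map (Polynomial.eval 0) ∈ S)

include hN hNJ hE in
lemma conj_mem {w : Fin n → ℂ} (hw : ∀ s, tv J w s ∈ S) (c s : ℂ) : tv J (E N c *ᵥ w) s ∈ S := by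
  rw [← tv_conj (E N c) (E N (-c)) (E_mul_neg hN c) (E_isom hN hNJ c)]
  exact hE c _ (hw s)

include hJ in
lemma add_mem' {u w : Fin n → ℂ} (hu : ∀ s, tv J u s ∈ S) (hw : ∀ s, tv J w s ∈ S) (h : om J u w ≠ 0) (c s : ℂ) :
    tv J (w + c • u) s ∈ S := by
  have h1 := tv_conj (tv J u (c / om J u w)) (tv J u (-(c / om J u w))) (tv_mul_neg hJ _ _) (tv_isom hJ _ _) w s
  rw [tv_mulVec, div_mul_cancel₀ _ h] at h1
  rw [← h1]
  exact mul_mem (mul_mem (hu _) (hw _)) (hu _)

include hcl in
lemma closed_mem {x w : Fin n → ℂ} (h : ∀ c : ℂ, c ≠ 0 → ∀ s, tv J (x + c • w) s ∈ S) (s : ℂ) : tv J x s ∈ S := by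
  set M : Matrix (Fin n) (Fin n) (Polynomial ℂ) :=
    1 + (Polynomial.C s : Polynomial ℂ) • vecMulVec
      (fun l => Polynomial.C (x l) + Polynomial.X * Polynomial.C (w l))
      (fun l => Polynomial.C ((x ᵥ* J) l) + Polynomial.X * Polynomial.C ((w ᵥ* J) l)) with hM
  have hMe : ∀ c : ℂ, M.map (Polynomial.eval c) = tv J (x + c • w) s := by
    intro c
    ext l k
    unfold tv
    rw [hM]
    simp only [Matrix.map_apply, Matrix.add_apply, Matrix.smul_apply, smul_eq_mul, vecMulVec_apply,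
      Polynomial.eval_add, Polynomial.eval_mul, Polynomial.eval_X, Polynomial.eval_C, add_vecMul, smul_vecMul,
      Pi.add_apply, Pi.smul_apply]
    congr 1
    rw [Matrix.one_apply, Matrix.one_apply]
    split_ifs <;> simp
  have h1 := hcl M fun c hc => by rw [hMe]; exact h c hc s
  rw [hMe] at h1
  simpa using h1

include hJ hN hNJ hv hE hvS hcl in
lemma exists_sub (r : ℕ) (hr1 : 1 ≤ r) (hr : r ≤ n) : ∃ U : Submodule ℂ (Fin n → ℂ), v ∈ U ∧ r ≤ Module.finrank ℂ U ∧
    ∀ x ∈ U, ∀ s, tv J x s ∈ S := by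
  have hv1 : (N ^ (n - 1)) *ᵥ v ≠ 0 := by
    intro h
    apply hv
    rw [h]
    unfold om
    rw [mulVec_zero, dotProduct_zero]
  have hv0 : v ≠ 0 := by
    intro h
    apply hv1
    rw [h, mulVec_zero]
  induction r with
  | zero => omega
  | succ r ih =>
    rcases Nat.eq_zero_or_pos r with h0 | hpos
    · subst h0
      refine ⟨Submodule.span ℂ {v}, Submodule.mem_span_singleton_self v, ?_, ?_⟩
      · rw [finrank_span_singleton hv0]
      · intro x hx s
        obtain ⟨c, rfl⟩ := Submodule.mem_span_singleton.1 hx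
        rw [tv_smul]
        exact hvS _
    · obtain ⟨U, hvU, hUr, hU⟩ := ih hpos (by omega)
      by_cases hbig : r + 1 ≤ Module.finrank ℂ U
      · exact ⟨U, hvU, hbig, hU⟩
      have hUlt : U < ⊤ := by
        rw [lt_top_iff_ne_top]
        rintro rfl
        rw [finrank_top, Module.finrank_fin_fun] at hbig
        omega
      obtain ⟨l, hl0, hlU⟩ := Submodule.exists_le_ker_of_lt_top U hUlt
      -- the functional `om · v`
      set l2 : (Fin n → ℂ) →ₗ[ℂ] ℂ :=
        { toFun := fun x => om J v x, map_add' := om_add v, map_smul' := fun c x => om_smul c v x } with hl2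
      have hl20 : l2 ≠ 0 := by
        intro h
        apply hv
        have : l2 ((N ^ (n - 1)) *ᵥ v) = 0 := by rw [h]; rfl
        exact this
      have hp : pl N v l * pl N v l2 ≠ 0 := mul_ne_zero (pl_ne hN hv1 hl0) (pl_ne hN hv1 hl20)
      obtain ⟨c, hc⟩ : ∃ c, (pl N v l * pl N v l2).eval c ≠ 0 := by
        by_contra hcon
        push Not at hcon
        exact hp (Polynomial.funext fun c => by rw [hcon c, Polynomial.eval_zero])
      rw [Polynomial.eval_mul, pl_eval, pl_eval] at hc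
      set w := E N c *ᵥ v with hw
      have hlw : l w ≠ 0 := left_ne_zero_of_mul hc
      have hvw : om J v w ≠ 0 := right_ne_zero_of_mul hc
      have hwv : om J w v ≠ 0 := by rw [om_skew hJ]; exact neg_ne_zero.2 hvw
      have hwS : ∀ s, tv J w s ∈ S := fun s => conj_mem hN hNJ S hE hvS c s
      have hwU : w ∉ U := fun h => hlw (LinearMap.mem_ker.1 (hlU h))
      refine ⟨U ⊔ Submodule.span ℂ {w}, Submodule.mem_sup_left hvU, ?_, ?_⟩
      · have h1 : U < U ⊔ Submodule.span ℂ {w} :=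
          lt_of_le_of_ne le_sup_left fun h => hwU (by
            rw [h]; exact Submodule.mem_sup_right (Submodule.mem_span_singleton_self w))
        have := Submodule.finrank_lt_finrank_of_lt h1
        omega
      · intro x hx
        obtain ⟨y, hy, z, hz, rfl⟩ := Submodule.mem_sup.1 hx
        obtain ⟨a, rfl⟩ := Submodule.mem_span_singleton.1 hz
        by_cases h1 : om J w y = 0
        · refine closed_mem S hcl (w := v) fun η hη s => ?_
          have h2 : om J w (y + η • v) ≠ 0 := by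
            rw [om_add, om_smul, h1, zero_add]
            exact mul_ne_zero hη hwv
          have h3 := add_mem' hJ S hwS (hU _ (U.add_mem hy (U.smul_mem η hvU))) h2 a s
          have e : y + a • w + η • v = y + η • v + a • w := by abel
          rw [e]
          exact h3
        · exact add_mem' hJ S hwS (hU y hy) h1 a

include hJ hN hNJ hv hE hvS hcl in
lemma all_tv (x : Fin n → ℂ) (s : ℂ) : tv J x s ∈ S := by
  rcases Nat.eq_zero_or_pos n with h0 | hpos
  · subst h0
    have : tv J x s = 1 := Subsingleton.elim _ _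
    rw [this]
    exact one_mem _
  · obtain ⟨U, -, hU1, hU2⟩ := exists_sub hJ hN hNJ hv S hE hvS hcl n hpos le_rfl
    have : U = ⊤ := by
      apply Submodule.eq_top_of_finrank_eq
      rw [Module.finrank_fin_fun]
      have := Submodule.finrank_le U
      rw [Module.finrank_fin_fun] at this
      omega
    exact hU2 x (by rw [this]; trivial) s

include hJ hN hNJ hv hE hvS hcl in
/-- **Density.** -/
theorem sp_all (hdet : J.det ≠ 0) (g : Matrix (Fin n) (Fin n) ℂ) (hg : g.transpose * J * g = J) : g ∈ S := by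
  set ω : (Fin n → ℂ) →ₗ[ℂ] (Fin n → ℂ) →ₗ[ℂ] ℂ := Matrix.toLinearMap₂' ℂ J with hω
  have hωa : ∀ u v, ω u v = om J u v := by
    intro u v
    rw [hω, Matrix.toLinearMap₂'_apply']
    rfl
  have h0 : ∀ v, ω v v = 0 := fun v => by rw [hωa, om_self hJ]
  have hnd : ∀ u, (∀ v, ω u v = 0) → u = 0 := by
    intro u hu
    have h1 : ∀ w : Fin n → ℂ, u ⬝ᵥ w = 0 := by
      intro w
      have h2 := hu (J⁻¹ *ᵥ w)
      rw [hωa] at h2
      unfold om at h2
      rw [mulVec_mulVec, mul_nonsing_inv _ (Ne.isUnit hdet), one_mulVec] at h2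
      exact h2
    funext i
    have := h1 (Pi.single i 1)
    rwa [dotProduct_single_one] at this
  have hpres : ∀ u v, ω (Matrix.toLin' g u) (Matrix.toLin' g v) = ω u v := by
    intro u v
    rw [hωa, hωa, toLin'_apply, toLin'_apply]
    unfold om
    rw [mulVec_mulVec, ← vecMul_transpose, ← dotProduct_mulVec, mulVec_mulVec, ← Matrix.mul_assoc, hg]
  have hmem := Pool.Agent.W948.ZC.TR.aux ℂ _ (Fin n → ℂ) ω rfl h0 hnd (Matrix.toLin' g) hpres
  have key : ∀ T ∈ Pool.Agent.W948.ZC.TR.G ω, LinearMap.toMatrix' T ∈ S := by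
    intro T hT
    unfold Pool.Agent.W948.ZC.TR.G at hT
    induction hT using Submonoid.closure_induction with
    | mem T h =>
      obtain ⟨c, u, rfl⟩ := h
      have h1 : LinearMap.toMatrix' (1 + c • (ω u).smulRight u) = tv J u c := by
        apply (Matrix.toLin'.injective)
        rw [toLin'_toMatrix']
        ext x i
        have h2 : (Matrix.toLin' (tv J u c)) (Pi.single x 1) = tv J u c *ᵥ (Pi.single x 1) := rfl
        rw [LinearMap.comp_apply, LinearMap.comp_apply, LinearMap.single_apply, h2, tv_mulVec, ← hωa]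
        simp [LinearMap.add_apply, mul_assoc]
      rw [h1]
      exact all_tv hJ hN hNJ hv S hE hvS hcl _ c
    | one =>
      have : LinearMap.toMatrix' (1 : Module.End ℂ (Fin n → ℂ)) = 1 := LinearMap.toMatrix'_id
      rw [this]
      exact one_mem _
    | mul A B _ _ hA hB =>
      have : LinearMap.toMatrix' (A * B) = LinearMap.toMatrix' A * LinearMap.toMatrix' B :=
        LinearMap.toMatrix'_mul A B
      rw [this]
      exact mul_mem hA hB
  have := key _ hmem
  rwa [LinearMap.toMatrix'_toLin'] at this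

end main

end Pool.Agent.Y119.HY
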