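import Pool.Agent.Y119.HY.Ps
import Pool.Agent.Y119.HY.Grp

/-!
# Hypergeometric families: local solutions

The system `Y' = (N0 / z + N1 / (1 - z)) Y` with `N0` nilpotent has the solution `H(z) exp (N0 log z)` with `H` convergent
in the unit disc, `H(0) = 1`.
-/

set_option autoImplicit false

open Filter Topology Matrix

namespace Pool.Agent.Y119.HY

variable {n : ℕ}

/-- the recursion for the coefficients of `H` -/
structure Sol (N0 N1 : Matrix (Fin n) (Fin n) ℂ) (H : ℕ → Matrix (Fin n) (Fin n) ℂ) : Prop where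
  zero : H 0 = 1
  step : ∀ k : ℕ, ((k : ℂ) + 1) • H (k + 1) + (H (k + 1) * N0 - N0 * H (k + 1)) =
    (k : ℂ) • H k + (H k * N0 - N0 * H k) + N1 * H k

section alg

variable {N0 : Matrix (Fin n) (Fin n) ℂ}

/-- `X ↦ X N0 - N0 X` -/
noncomputable def DD (N0 : Matrix (Fin n) (Fin n) ℂ) : Module.End ℂ (Matrix (Fin n) (Fin n) ℂ) :=
  LinearMap.mulRight ℂ N0 - LinearMap.mulLeft ℂ N0

lemma DD_apply (X : Matrix (Fin n) (Fin n) ℂ) : DD N0 X = X * N0 - N0 * X := by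
  simp [DD]

lemma DD_nil (h : N0 ^ n = 0) : ∃ p, (DD N0) ^ p = 0 := by
  have hN : IsNilpotent N0 := ⟨n, h⟩
  have h1 : IsNilpotent (LinearMap.mulRight ℂ N0) := (LinearMap.isNilpotent_mulRight_iff ℂ N0).2 hN
  have h2 : IsNilpotent (LinearMap.mulLeft ℂ N0) := (LinearMap.isNilpotent_mulLeft_iff ℂ N0).2 hN
  exact (LinearMap.commute_mulLeft_right (R := ℂ) N0 N0).symm.isNilpotent_sub h1 h2

/-- the inverse of `κ + D` -/
noncomputable def RR (N0 : Matrix (Fin n) (Fin n) ℂ) (p : ℕ) (κ : ℂ) (Y : Matrix (Fin n) (Fin n) ℂ) :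
    Matrix (Fin n) (Fin n) ℂ := ∑ i ∈ Finset.range p, ((-1) ^ i * (κ⁻¹) ^ (i + 1)) • ((DD N0) ^ i) Y

lemma RR_right {p : ℕ} (hp : (DD N0) ^ p = 0) {κ : ℂ} (hκ : κ ≠ 0) (Y : Matrix (Fin n) (Fin n) ℂ) :
    κ • RR N0 p κ Y + DD N0 (RR N0 p κ Y) = Y := by
  set a : ℕ → Matrix (Fin n) (Fin n) ℂ := fun i => ((-1) ^ i * (κ⁻¹) ^ i) • ((DD N0) ^ i) Y with ha
  have h1 : κ • RR N0 p κ Y = ∑ i ∈ Finset.range p, a i := by
    unfold RR
    rw [Finset.smul_sum]
    refine Finset.sum_congr rfl fun i _ => ?_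
    rw [smul_smul, ha]
    congr 1
    rw [pow_succ]
    field_simp
  have h2 : DD N0 (RR N0 p κ Y) = -∑ i ∈ Finset.range p, a (i + 1) := by
    unfold RR
    rw [map_sum, ← Finset.sum_neg_distrib]
    refine Finset.sum_congr rfl fun i _ => ?_
    rw [map_smul, ha]
    simp only
    have e : (DD N0) (((DD N0) ^ i) Y) = ((DD N0) ^ (i + 1)) Y := by rw [pow_succ']; rfl
    rw [← neg_smul, e]
    congr 1
    rw [pow_succ (-1 : ℂ)]
    ring
  have h3 := Finset.sum_range_sub' a p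
  rw [Finset.sum_sub_distrib] at h3
  rw [h1, h2, ← sub_eq_add_neg, h3, ha]
  simp [hp]

lemma RR_left {p : ℕ} (hp : (DD N0) ^ p = 0) {κ : ℂ} (hκ : κ ≠ 0) (Y : Matrix (Fin n) (Fin n) ℂ) :
    RR N0 p κ (κ • Y + DD N0 Y) = Y := by
  set a : ℕ → Matrix (Fin n) (Fin n) ℂ := fun i => ((-1) ^ i * (κ⁻¹) ^ i) • ((DD N0) ^ i) Y with ha
  have h3 := Finset.sum_range_sub' a p
  have h4 : RR N0 p κ (κ • Y + DD N0 Y) = ∑ i ∈ Finset.range p, (a i - a (i + 1)) := by
    unfold RR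
    refine Finset.sum_congr rfl fun i _ => ?_
    have e : ((DD N0) ^ i) ((DD N0) Y) = ((DD N0) ^ (i + 1)) Y := by rw [pow_succ]; rfl
    rw [map_add, map_smul, e, smul_add, smul_smul, ha]
    simp only
    rw [sub_eq_add_neg, ← neg_smul]
    congr 2
    · rw [pow_succ]
      field_simp
    · rw [pow_succ (-1 : ℂ)]
      ring
  rw [h4, h3, ha]
  simp [hp]

/-- existence -/
theorem exists_sol (h : N0 ^ n = 0) (N1 : Matrix (Fin n) (Fin n) ℂ) : ∃ H, Sol N0 N1 H := by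
  obtain ⟨p, hp⟩ := DD_nil h
  set H : ℕ → Matrix (Fin n) (Fin n) ℂ := fun k => Nat.rec (motive := fun _ => Matrix (Fin n) (Fin n) ℂ) 1
    (fun k X => RR N0 p ((k : ℂ) + 1) ((k : ℂ) • X + (X * N0 - N0 * X) + N1 * X)) k with hH
  refine ⟨H, rfl, fun k => ?_⟩
  have h1 : ((k : ℂ) + 1) ≠ 0 := by exact_mod_cast Nat.succ_ne_zero k
  have h2 : H (k + 1) = RR N0 p ((k : ℂ) + 1) ((k : ℂ) • H k + (H k * N0 - N0 * H k) + N1 * H k) := rfl
  have h3 := RR_right hp h1 ((k : ℂ) • H k + (H k * N0 - N0 * H k) + N1 * H k)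
  rw [← h2, DD_apply] at h3
  exact h3

end alg

section growth

attribute [local instance] Matrix.linftyOpNormedAddCommGroup Matrix.linftyOpNormedRing Matrix.linftyOpNormedAlgebra

variable {N0 : Matrix (Fin n) (Fin n) ℂ}

lemma DD_norm (X : Matrix (Fin n) (Fin n) ℂ) : ‖DD N0 X‖ ≤ (2 * ‖N0‖) * ‖X‖ := by
  rw [DD_apply]
  calc ‖X * N0 - N0 * X‖ ≤ ‖X * N0‖ + ‖N0 * X‖ := norm_sub_le _ _
    _ ≤ ‖X‖ * ‖N0‖ + ‖N0‖ * ‖X‖ := add_le_add (norm_mul_le _ _) (norm_mul_le _ _)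
    _ = (2 * ‖N0‖) * ‖X‖ := by ring

lemma DD_pow_norm (X : Matrix (Fin n) (Fin n) ℂ) (i : ℕ) : ‖((DD N0) ^ i) X‖ ≤ (2 * ‖N0‖) ^ i * ‖X‖ := by
  induction i with
  | zero => simp
  | succ i ih =>
    have e : ((DD N0) ^ (i + 1)) X = DD N0 (((DD N0) ^ i) X) := by rw [pow_succ']; rfl
    rw [e, pow_succ]
    calc ‖DD N0 (((DD N0) ^ i) X)‖ ≤ (2 * ‖N0‖) * ‖((DD N0) ^ i) X‖ := DD_norm _
      _ ≤ (2 * ‖N0‖) * ((2 * ‖N0‖) ^ i * ‖X‖) := mul_le_mul_of_nonneg_left ih (by positivity)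
      _ = _ := by ring

lemma RR_norm (p : ℕ) : ∃ K : ℝ, 0 ≤ K ∧ ∀ (k : ℕ) (Y : Matrix (Fin n) (Fin n) ℂ),
    ‖RR N0 p ((k : ℂ) + 1) Y‖ ≤ K / ((k : ℝ) + 1) * ‖Y‖ := by
  refine ⟨∑ i ∈ Finset.range p, (2 * ‖N0‖) ^ i, by positivity, fun k Y => ?_⟩
  unfold RR
  refine (norm_sum_le _ _).trans ?_
  rw [Finset.sum_div, Finset.sum_mul]
  refine Finset.sum_le_sum fun i _ => ?_
  have hk : (1 : ℝ) ≤ (k : ℝ) + 1 := by linarith [Nat.cast_nonneg (α := ℝ) k]
  have h1 : ‖((k : ℂ) + 1)‖ = (k : ℝ) + 1 := by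
    have : ((k : ℂ) + 1) = (((k : ℝ) + 1 : ℝ) : ℂ) := by push_cast; rfl
    rw [this, Complex.norm_real, Real.norm_of_nonneg (by linarith)]
  rw [norm_smul, norm_mul, norm_pow, norm_neg, norm_one, one_pow, one_mul, norm_pow, norm_inv, h1]
  have h2 : (((k : ℝ) + 1)⁻¹) ^ (i + 1) ≤ 1 / ((k : ℝ) + 1) := by
    rw [pow_succ, one_div]
    refine mul_le_of_le_one_left (by positivity) (pow_le_one₀ (by positivity) (inv_le_one_of_one_le₀ hk))
  calc (((k : ℝ) + 1)⁻¹) ^ (i + 1) * ‖((DD N0) ^ i) Y‖ ≤ 1 / ((k : ℝ) + 1) * ((2 * ‖N0‖) ^ i * ‖Y‖) :=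
        mul_le_mul h2 (DD_pow_norm Y i) (norm_nonneg _) (by positivity)
    _ = _ := by ring

lemma entry_le (X : Matrix (Fin n) (Fin n) ℂ) (i j : Fin n) : ‖X i j‖ ≤ ‖X‖ := by
  rw [Matrix.linfty_opNorm_def]
  have h1 : ‖X i j‖₊ ≤ ∑ j : Fin n, ‖X i j‖₊ := Finset.single_le_sum (f := fun j => ‖X i j‖₊) (fun _ _ => zero_le) (Finset.mem_univ j)
  have h2 : ∑ j : Fin n, ‖X i j‖₊ ≤ Finset.univ.sup fun i : Fin n => ∑ j : Fin n, ‖X i j‖₊ :=
    Finset.le_sup (f := fun i : Fin n => ∑ j : Fin n, ‖X i j‖₊) (Finset.mem_univ i)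
  exact_mod_cast h1.trans h2

/-- growth -/
theorem Sol.growth {N1 : Matrix (Fin n) (Fin n) ℂ} {H : ℕ → Matrix (Fin n) (Fin n) ℂ} (hH : Sol N0 N1 H)
    (h : N0 ^ n = 0) (i j : Fin n) : PG fun k => H k i j := by
  obtain ⟨p, hp⟩ := DD_nil h
  obtain ⟨K, hK0, hK⟩ := RR_norm (N0 := N0) p
  set K1 : ℝ := K * ‖N1 - 1‖ with hK1
  have hK10 : 0 ≤ K1 := by positivity
  set q : ℕ := ⌈K1⌉₊ with hq
  have hstep : ∀ k, ‖H (k + 1)‖ ≤ (1 + K1 / ((k : ℝ) + 1)) * ‖H k‖ := by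
    intro k
    have h1 : ((k : ℂ) + 1) ≠ 0 := by exact_mod_cast Nat.succ_ne_zero k
    have h2 : ((k : ℂ) + 1) • (H (k + 1) - H k) + DD N0 (H (k + 1) - H k) = (N1 - 1) * H k := by
      have h3 := hH.step k
      rw [DD_apply, sub_mul, mul_sub, sub_mul, one_mul]
      have h4 : ((k : ℂ) + 1) • (H (k + 1) - H k) = ((k : ℂ) + 1) • H (k + 1) - ((k : ℂ) • H k + H k) := by
        rw [smul_sub, add_smul (k : ℂ) 1 (H k), one_smul]
      rw [h4]
      calc _ = (((k : ℂ) + 1) • H (k + 1) + (H (k + 1) * N0 - N0 * H (k + 1))) - (k : ℂ) • H k - H k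
            - (H k * N0 - N0 * H k) := by abel
        _ = _ := by rw [h3]; abel
    have h5 := RR_left hp h1 (H (k + 1) - H k)
    rw [h2] at h5
    have h6 : ‖H (k + 1) - H k‖ ≤ K1 / ((k : ℝ) + 1) * ‖H k‖ := by
      rw [← h5]
      refine (hK k _).trans ?_
      calc K / ((k : ℝ) + 1) * ‖(N1 - 1) * H k‖ ≤ K / ((k : ℝ) + 1) * (‖N1 - 1‖ * ‖H k‖) :=
            mul_le_mul_of_nonneg_left (norm_mul_le _ _) (by positivity)
        _ = _ := by rw [hK1]; ring
    calc ‖H (k + 1)‖ = ‖H k + (H (k + 1) - H k)‖ := by rw [add_sub_cancel]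
      _ ≤ ‖H k‖ + ‖H (k + 1) - H k‖ := norm_add_le _ _
      _ ≤ _ := by linarith
  have hbd : ∀ k : ℕ, ‖H k‖ ≤ ‖H 0‖ * ((k : ℝ) + 1) ^ q := by
    intro k
    induction k with
    | zero => simp
    | succ k ih =>
      have hk : (0 : ℝ) < (k : ℝ) + 1 := by positivity
      have h1 : 1 + K1 / ((k : ℝ) + 1) ≤ (1 + 1 / ((k : ℝ) + 1)) ^ q := by
        have h2 := one_add_mul_le_pow (a := 1 / ((k : ℝ) + 1)) (by have : (0 : ℝ) ≤ 1 / ((k : ℝ) + 1) := by positivity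
                                                                   linarith) q
        refine le_trans ?_ h2
        have : K1 ≤ q := Nat.le_ceil _
        rw [mul_one_div]
        gcongr
      calc ‖H (k + 1)‖ ≤ (1 + K1 / ((k : ℝ) + 1)) * ‖H k‖ := hstep k
        _ ≤ (1 + 1 / ((k : ℝ) + 1)) ^ q * (‖H 0‖ * ((k : ℝ) + 1) ^ q) :=
          mul_le_mul h1 ih (norm_nonneg _) (by positivity)
        _ = ‖H 0‖ * ((1 + 1 / ((k : ℝ) + 1)) * ((k : ℝ) + 1)) ^ q := by rw [mul_pow]; ring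
        _ = ‖H 0‖ * (((k + 1 : ℕ) : ℝ) + 1) ^ q := by
          congr 2
          push_cast
          field_simp
  exact ⟨‖H 0‖, q, fun k => (entry_le _ i j).trans (hbd k)⟩

end growth

/-- entrywise derivative -/
def HD (A : ℂ → Matrix (Fin n) (Fin n) ℂ) (A' : Matrix (Fin n) (Fin n) ℂ) (z : ℂ) : Prop :=
  ∀ i j, HasDerivAt (fun w => A w i j) (A' i j) z

lemma HD.congr {A : ℂ → Matrix (Fin n) (Fin n) ℂ} {A' B' : Matrix (Fin n) (Fin n) ℂ} {z : ℂ} (h : HD A A' z)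
    (e : A' = B') : HD A B' z := e ▸ h

lemma HD.mul {A B : ℂ → Matrix (Fin n) (Fin n) ℂ} {A' B' : Matrix (Fin n) (Fin n) ℂ} {z : ℂ} (hA : HD A A' z)
    (hB : HD B B' z) : HD (fun w => A w * B w) (A' * B z + A z * B') z := by
  intro i j
  simp only [Matrix.mul_apply, Matrix.add_apply]
  rw [← Finset.sum_add_distrib]
  exact HasDerivAt.fun_sum fun l _ => (hA i l).mul (hB l j)

lemma HD.transpose {A : ℂ → Matrix (Fin n) (Fin n) ℂ} {A' : Matrix (Fin n) (Fin n) ℂ} {z : ℂ} (hA : HD A A' z) :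
    HD (fun w => (A w).transpose) A'.transpose z := fun i j => hA j i

lemma HD.const (A : Matrix (Fin n) (Fin n) ℂ) (z : ℂ) : HD (fun _ => A) 0 z := fun _ _ => hasDerivAt_const _ _

/-- chain rule -/
lemma HD.comp {A : ℂ → Matrix (Fin n) (Fin n) ℂ} {A' : Matrix (Fin n) (Fin n) ℂ} {f : ℂ → ℂ} {f' z : ℂ}
    (hA : HD A A' (f z)) (hf : HasDerivAt f f' z) : HD (fun w => A (f w)) (f' • A') z := by
  intro i j
  have := (hA i j).comp z hf
  rw [mul_comm] at this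
  exact this

lemma E_HD {N : Matrix (Fin n) (Fin n) ℂ} (hN : N ^ n = 0) (s : ℂ) : HD (E N) (N * E N s) s := by
  rcases n with _ | m
  · intro i; exact i.elim0
  intro i j
  have h1 : (fun w => E N w i j) = fun w => ∑ l ∈ Finset.range (m + 1), (w ^ l / (l.factorial : ℂ)) * (N ^ l) i j := by
    funext w
    unfold E
    rw [Matrix.sum_apply]
    rfl
  rw [h1]
  have h2 : (N * E N s) i j = ∑ l ∈ Finset.range (m + 1), ((l : ℂ) * s ^ (l - 1) / (l.factorial : ℂ)) * (N ^ l) i j := by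
    rw [Finset.sum_range_succ']
    simp only [Nat.cast_zero, zero_mul, zero_div, add_zero]
    unfold E
    rw [Finset.mul_sum, Matrix.sum_apply, Finset.sum_range_succ]
    rw [mul_smul_comm, ← pow_succ', hN, smul_zero, Matrix.zero_apply, add_zero]
    refine Finset.sum_congr rfl fun l _ => ?_
    rw [mul_smul_comm, ← pow_succ', Matrix.smul_apply, smul_eq_mul, Nat.factorial_succ, Nat.add_sub_cancel]
    push_cast
    have h3 : ((l : ℂ) + 1) ≠ 0 := by exact_mod_cast Nat.succ_ne_zero l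
    have h4 : (l.factorial : ℂ) ≠ 0 := by exact_mod_cast l.factorial_ne_zero
    field_simp
  rw [h2]
  refine HasDerivAt.fun_sum fun l _ => ?_
  exact ((hasDerivAt_pow l s).div_const _).mul_const _

/-- the holomorphic part -/
noncomputable def Hf (H : ℕ → Matrix (Fin n) (Fin n) ℂ) (z : ℂ) : Matrix (Fin n) (Fin n) ℂ :=
  Matrix.of fun i j => ps (fun k => H k i j) z

variable {N0 N1 : Matrix (Fin n) (Fin n) ℂ} {H : ℕ → Matrix (Fin n) (Fin n) ℂ}

lemma Hf_zero (hH : Sol N0 N1 H) : Hf H 0 = 1 := by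
  ext i j
  show ps (fun k => H k i j) 0 = _
  rw [ps_zero, hH.zero]

lemma Hf_an (hH : Sol N0 N1 H) (h : N0 ^ n = 0) (i j : Fin n) :
    AnalyticOnNhd ℂ (fun z => Hf H z i j) (Metric.ball 0 1) := ps_an (hH.growth h i j)

lemma Hf_ode (hH : Sol N0 N1 H) (h : N0 ^ n = 0) {z : ℂ} (hz : ‖z‖ < 1) (hz0 : z ≠ 0) :
    HD (Hf H) ((1 / z) • (N0 * Hf H z - Hf H z * N0) + (1 / (1 - z)) • (N1 * Hf H z)) z := by
  intro i j
  have hg := hH.growth h
  have hd : HasDerivAt (ps fun k => H k i j) (deriv (ps fun k => H k i j) z) z :=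
    ((ps_an (hg i j)) z (by rwa [Metric.mem_ball, dist_zero_right])).differentiableAt.hasDerivAt
  have h1z : (1 - z) ≠ 0 := by
    intro h0
    have : z = 1 := (sub_eq_zero.1 h0).symm
    rw [this, norm_one] at hz
    exact lt_irrefl _ hz
  refine hd.congr_deriv ?_
  -- the sequences
  have hgl : PG fun k => (N0 * H k) i j := by
    simp only [Matrix.mul_apply]
    exact PG.sum _ fun l _ => (hg l j).smul _
  have hgr : PG fun k => (H k * N0) i j := by
    simp only [Matrix.mul_apply]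
    refine PG.sum _ fun l _ => ?_
    simp only [mul_comm (H _ i l)]
    exact (hg i l).smul _
  have hg1 : PG fun k => (N1 * H k) i j := by
    simp only [Matrix.mul_apply]
    exact PG.sum _ fun l _ => (hg l j).smul _
  have el : ps (fun k => (N0 * H k) i j) z = (N0 * Hf H z) i j := by
    simp only [Matrix.mul_apply]
    rw [ps_sum _ (fun l _ => (hg l j).smul _) hz]
    exact Finset.sum_congr rfl fun l _ => ps_smul _ _
  have er : ps (fun k => (H k * N0) i j) z = (Hf H z * N0) i j := by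
    simp only [Matrix.mul_apply, mul_comm (H _ i _)]
    rw [ps_sum _ (fun l _ => (hg i l).smul _) hz]
    refine Finset.sum_congr rfl fun l _ => ?_
    rw [ps_smul, mul_comm]
    rfl
  have e1 : ps (fun k => (N1 * H k) i j) z = (N1 * Hf H z) i j := by
    simp only [Matrix.mul_apply]
    rw [ps_sum _ (fun l _ => (hg l j).smul _) hz]
    exact Finset.sum_congr rfl fun l _ => ps_smul _ _
  set D : ℕ → ℂ := fun k => (k : ℂ) * H k i j + ((H k * N0) i j + (-1) * (N0 * H k) i j) with hD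
  have hDg : PG D := (hg i j).nat.add (hgr.add (hgl.smul (-1)))
  have eD : ps D z = z * deriv (ps fun k => H k i j) z + ((Hf H z * N0) i j - (N0 * Hf H z) i j) := by
    rw [hD, ps_add (hg i j).nat (hgr.add (hgl.smul (-1))) hz, ps_add hgr (hgl.smul (-1)) hz, ps_smul, el, er,
      ← ps_deriv (hg i j) hz]
    ring
  have hD0 : D 0 = 0 := by
    rw [hD]
    simp only
    rw [hH.zero]
    simp
  have hDs : ∀ k, D (k + 1) = D k + (N1 * H k) i j := by
    intro k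
    have := congrFun (congrFun (hH.step k) i) j
    simp only [Matrix.add_apply, Matrix.smul_apply, Matrix.sub_apply, smul_eq_mul] at this
    rw [hD]
    simp only
    push_cast
    linear_combination this
  have hfin : ps D z = z * (ps D z + (N1 * Hf H z) i j) := by
    conv_lhs => rw [ps_shift hDg hz, hD0, zero_add]
    congr 1
    simp only [hDs]
    rw [ps_add hDg hg1 hz, e1]
  simp only [Matrix.add_apply, Matrix.smul_apply, Matrix.sub_apply, smul_eq_mul]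
  rw [eD] at hfin
  have h2 : (1 - z) * (z * deriv (ps fun k => H k i j) z + ((Hf H z * N0) i j - (N0 * Hf H z) i j)) =
      z * (N1 * Hf H z) i j := by linear_combination hfin
  field_simp
  linear_combination h2

/-- the solution -/
noncomputable def Yf (N0 : Matrix (Fin n) (Fin n) ℂ) (H : ℕ → Matrix (Fin n) (Fin n) ℂ) (z : ℂ) :
    Matrix (Fin n) (Fin n) ℂ := Hf H z * E N0 (Complex.log z)

/-- the matrix of the system -/
noncomputable def Gm (N0 N1 : Matrix (Fin n) (Fin n) ℂ) (z : ℂ) : Matrix (Fin n) (Fin n) ℂ :=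
  (1 / z) • N0 + (1 / (1 - z)) • N1

theorem Yf_ode (hH : Sol N0 N1 H) (h : N0 ^ n = 0) {z : ℂ} (hz : ‖z‖ < 1) (hz0 : z ∈ Complex.slitPlane) :
    HD (Yf N0 H) (Gm N0 N1 z * Yf N0 H z) z := by
  have hz0' : z ≠ 0 := Complex.slitPlane_ne_zero hz0
  have h1 := Hf_ode hH h hz hz0'
  have h2 : HD (fun w => E N0 (Complex.log w)) (z⁻¹ • (N0 * E N0 (Complex.log z))) z :=
    (E_HD h (Complex.log z)).comp (Complex.hasDerivAt_log hz0)
  refine (h1.mul h2).congr ?_
  unfold Gm Yf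
  simp only [add_mul, smul_mul_assoc, sub_mul, mul_smul_comm, Matrix.mul_assoc, smul_sub, one_div]
  abel

/-- the pairing of two solutions is constant -/
lemma pair_HD {J : Matrix (Fin n) (Fin n) ℂ} {G : Matrix (Fin n) (Fin n) ℂ} (hG : G.transpose * J + J * G = 0)
    {Y Z : ℂ → Matrix (Fin n) (Fin n) ℂ} {z : ℂ} (hY : HD Y (G * Y z) z) (hZ : HD Z (G * Z z) z) :
    HD (fun w => (Y w).transpose * J * Z w) 0 z := by
  refine ((hY.transpose.mul (HD.const J z)).mul hZ).congr ?_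
  rw [mul_zero, add_zero, transpose_mul]
  have h1 : G.transpose * J = -(J * G) := eq_neg_of_add_eq_zero_left hG
  calc (Y z).transpose * G.transpose * J * Z z + (Y z).transpose * J * (G * Z z)
      = (Y z).transpose * (G.transpose * J) * Z z + (Y z).transpose * (J * G) * Z z := by
        simp only [Matrix.mul_assoc]
    _ = 0 := by rw [h1]; simp

lemma Gm_skew {J : Matrix (Fin n) (Fin n) ℂ} (h0 : N0.transpose * J + J * N0 = 0) (h1 : N1.transpose * J + J * N1 = 0)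
    (z : ℂ) : (Gm N0 N1 z).transpose * J + J * Gm N0 N1 z = 0 := by
  unfold Gm
  rw [transpose_add, transpose_smul, transpose_smul, add_mul, smul_mul_assoc, smul_mul_assoc, mul_add, mul_smul_comm,
    mul_smul_comm]
  have e0 : N0.transpose * J = -(J * N0) := eq_neg_of_add_eq_zero_left h0
  have e1 : N1.transpose * J = -(J * N1) := eq_neg_of_add_eq_zero_left h1
  rw [e0, e1]
  simp only [smul_neg]
  abel

end Pool.Agent.Y119.HY
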