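import Pool.Agent.Y119.HY.Gal

/-!
# Systems with a regular unipotent monodromy at `0` and a symplectic transvection at `1`: all relations are invariant under
the symplectic group
-/

set_option autoImplicit false

open Filter Topology Matrix Polynomial

namespace Pool.Agent.Y119.HY

variable {n : ℕ} {J : Matrix (Fin n) (Fin n) ℂ}

lemma E_fix {N : Matrix (Fin n) (Fin n) ℂ} {e : Fin n → ℂ} (he : N *ᵥ e = 0) (s : ℂ) : E N s *ᵥ e = e := by
  rcases n with _ | m
  · exact Subsingleton.elim _ _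
  unfold E
  rw [Matrix.sum_mulVec, Finset.sum_range_succ']
  have h1 : ∀ i ∈ Finset.range m, ((s ^ (i + 1) / ((i + 1).factorial : ℂ)) • N ^ (i + 1)) *ᵥ e = 0 := by
    intro i _
    rw [smul_mulVec, pow_succ N, ← mulVec_mulVec, he, mulVec_zero, smul_zero]
  rw [Finset.sum_eq_zero h1, zero_add, pow_zero, pow_zero, Nat.factorial_zero, Nat.cast_one, div_one, one_smul, one_mulVec]

lemma tv_sq (hJ : J.transpose = -J) (u : Fin n → ℂ) : vecMulVec u (u ᵥ* J) * vecMulVec u (u ᵥ* J) = 0 := by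
  rw [vecMulVec_mul_vecMulVec, ← om_eq, om_self hJ, zero_smul, vecMulVec_zero]

lemma tv_pow (hJ : J.transpose = -J) (u : Fin n → ℂ) {i : ℕ} (hi : 2 ≤ i) : vecMulVec u (u ᵥ* J) ^ i = 0 := by
  obtain ⟨j, rfl⟩ := Nat.exists_eq_add_of_le hi
  rw [pow_add, sq, tv_sq hJ, zero_mul]

lemma tv_skew (hJ : J.transpose = -J) (u : Fin n → ℂ) :
    (vecMulVec u (u ᵥ* J)).transpose * J + J * vecMulVec u (u ᵥ* J) = 0 := by
  have hT : (vecMulVec u (u ᵥ* J)).transpose = vecMulVec (u ᵥ* J) u := transpose_vecMulVec _ _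
  rw [hT, vecMulVec_mul, mul_vecMulVec]
  have : J *ᵥ u = -(u ᵥ* J) := by
    rw [← mulVec_transpose, hJ, neg_mulVec, neg_neg]
  rw [this, neg_vecMulVec, add_neg_cancel]

lemma E_tv (hn : 2 ≤ n) (hJ : J.transpose = -J) (u : Fin n → ℂ) (s : ℂ) : E (vecMulVec u (u ᵥ* J)) s = tv J u s := by
  obtain ⟨m, rfl⟩ := Nat.exists_eq_add_of_le' hn
  unfold E tv
  rw [Finset.sum_range_succ', Finset.sum_range_succ']
  rw [Finset.sum_eq_zero fun i _ => by rw [tv_pow hJ u (by omega), smul_zero]]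
  simp only [zero_add, pow_one, Nat.factorial_one, Nat.cast_one, div_one, pow_zero, Nat.factorial_zero, one_smul]
  exact add_comm _ _

/-- **All relations between the solutions are invariant under the symplectic group.** -/
theorem invar {A : Matrix (Fin n) (Fin n) ℂ} {u e : Fin n → ℂ} {H : ℕ → Matrix (Fin n) (Fin n) ℂ} (hn : 2 ≤ n)
    (hJ : J.transpose = -J) (hdet : J.det ≠ 0) (hA : A ^ n = 0) (hAJ : A.transpose * J + J * A = 0)
    (hH : Sol A (-vecMulVec u (u ᵥ* J)) H) (hAe : A *ᵥ e = 0)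
    (hcyc : ∀ v, om J v e ≠ 0 → om J v ((A ^ (n - 1)) *ᵥ v) ≠ 0) (i0 : Fin n)
    (hsing : ∀ g : ℂ → ℂ, AnalyticOnNhd ℂ g (Metric.ball 1 1) → (∀ z ∈ Lens, (Hf H z *ᵥ e) i0 = g z) → False)
    (g : Matrix (Fin n) (Fin n) ℂ) (hg : g.transpose * J * g = J) : g ∈ Gal (Yf A H) := by
  set B : Matrix (Fin n) (Fin n) ℂ := -vecMulVec u (u ᵥ* J) with hBdef
  have hnB : -B = vecMulVec u (u ᵥ* J) := by rw [hBdef, neg_neg]
  have hB : (-B) ^ n = 0 := by rw [hnB]; exact tv_pow hJ u hn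
  have hBJ : B.transpose * J + J * B = 0 := by
    rw [hBdef, transpose_neg, neg_mul, mul_neg, ← neg_add, tv_skew hJ, neg_zero]
  obtain ⟨K, hK⟩ := exists_sol hB (-A)
  obtain ⟨M, Mi, hMMi, hMiM, hMJ, hconn⟩ := connect hdet hA hAJ hB hBJ hH hK
  have hMiJ : Mi.transpose * J * Mi = J := by
    calc Mi.transpose * J * Mi = Mi.transpose * (M.transpose * J * M) * Mi := by rw [hMJ]
      _ = (M * Mi).transpose * J * (M * Mi) := by rw [transpose_mul]; simp only [Matrix.mul_assoc]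
      _ = J := by rw [hMMi, transpose_one, one_mul, mul_one]
  set v : Fin n → ℂ := Mi *ᵥ u with hv
  have hvS : ∀ s, tv J v s ∈ Gal (Yf A H) := by
    intro s
    have h1 := conj_mem_Gal hB hK (Y := Yf A H) hMMi (fun x hx hx1 => hconn x (real_mem_Lens hx hx1)) s
    rw [hnB, E_tv hn hJ, tv_conj Mi M hMiM hMiJ] at h1
    exact h1
  refine sp_all hJ hA hAJ (hcyc v ?_) (Gal (Yf A H)) (fun c g hg => conj_E hA hH c g hg) hvS (Gal_closed _) hdet g hg
  intro h0
  -- `ω(u, M e) = 0`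
  have h1 : om J u (M *ᵥ e) = 0 := by
    have h2 : om J (Mi *ᵥ u) (Mi *ᵥ (M *ᵥ e)) = om J u (M *ᵥ e) := by
      unfold om
      rw [mulVec_mulVec, ← vecMul_transpose, ← dotProduct_mulVec, mulVec_mulVec, ← Matrix.mul_assoc, hMiJ]
    rw [← h2, mulVec_mulVec e Mi M, hMiM, one_mulVec]
    exact h0
  have h2 : (-B) *ᵥ (M *ᵥ e) = 0 := by
    rw [hnB, vecMulVec_mulVec, ← om_eq, h1]
    simp
  refine hsing (fun z => (Hf K (1 - z) *ᵥ (M *ᵥ e)) i0) ?_ fun z hz => ?_
  · simp only [Matrix.mulVec, dotProduct]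
    refine Finset.analyticOnNhd_fun_sum _ fun j _ => AnalyticOnNhd.mul ?_ analyticOnNhd_const
    intro z hz
    have h3 : AnalyticAt ℂ (fun w => Hf K w i0 j) (1 - z) := Hf_an hK hB i0 j (1 - z) (by
      rw [Metric.mem_ball, dist_comm, dist_eq_norm] at hz
      rwa [Metric.mem_ball, dist_zero_right])
    have h4 : AnalyticAt ℂ (fun w : ℂ => 1 - w) z := analyticAt_const.sub analyticAt_id
    exact h3.fun_comp h4
  · have h3 := congrArg (fun X : Matrix (Fin n) (Fin n) ℂ => X *ᵥ e) (hconn z hz)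
    unfold Yf at h3
    rw [← mulVec_mulVec, E_fix hAe, ← mulVec_mulVec, ← mulVec_mulVec, E_fix h2] at h3
    rw [h3]

end Pool.Agent.Y119.HY
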