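import Mathlib

/-!
# Power series with coefficients of polynomial growth on the unit disc
-/

set_option autoImplicit false

open Filter Topology

namespace Pool.Agent.Y119.HY

/-- the sum of a power series -/
noncomputable def ps (c : ℕ → ℂ) (z : ℂ) : ℂ := ∑' k, c k * z ^ k

/-- polynomial growth -/
def PG (c : ℕ → ℂ) : Prop := ∃ (C : ℝ) (p : ℕ), ∀ k, ‖c k‖ ≤ C * ((k : ℝ) + 1) ^ p

variable {c d : ℕ → ℂ}

lemma PG.nonneg {C : ℝ} {p : ℕ} (h : ∀ k, ‖c k‖ ≤ C * ((k : ℝ) + 1) ^ p) : 0 ≤ C := by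
  have := (norm_nonneg _).trans (h 0)
  simpa using this

lemma summable_geo (p : ℕ) {r : ℝ} (hr0 : 0 ≤ r) (hr : r < 1) : Summable fun k : ℕ => ((k : ℝ) + 1) ^ p * r ^ k := by
  rcases hr0.eq_or_lt with h0 | h0
  · rw [← h0]
    refine summable_of_ne_finset_zero (s := {0}) fun k hk => ?_
    rw [Finset.mem_singleton] at hk
    rw [zero_pow hk, mul_zero]
  · have h1 := summable_pow_mul_geometric_of_norm_lt_one p (r := r) (by rwa [Real.norm_of_nonneg hr0])
    have h2 := (summable_nat_add_iff 1).2 h1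
    refine (h2.mul_left (1 / r)).congr fun k => ?_
    push_cast
    rw [pow_succ]
    field_simp

lemma PG.summable (h : PG c) {r : ℝ} (hr0 : 0 ≤ r) (hr : r < 1) : Summable fun k => ‖c k‖ * r ^ k := by
  obtain ⟨C, p, hC⟩ := h
  refine Summable.of_nonneg_of_le (fun k => by positivity) (fun k => ?_) ((summable_geo p hr0 hr).mul_left C)
  rw [← mul_assoc]
  exact mul_le_mul_of_nonneg_right (hC k) (by positivity)

lemma PG.summable' (h : PG c) {z : ℂ} (hz : ‖z‖ < 1) : Summable fun k => c k * z ^ k := by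
  refine Summable.of_norm ((h.summable (norm_nonneg z) hz).congr fun k => ?_)
  rw [norm_mul, norm_pow]

lemma PG.add (hc : PG c) (hd : PG d) : PG fun k => c k + d k := by
  obtain ⟨C, p, hC⟩ := hc
  obtain ⟨D, q, hD⟩ := hd
  have hC0 := PG.nonneg hC
  have hD0 := PG.nonneg hD
  refine ⟨C + D, p + q, fun k => (norm_add_le _ _).trans ?_⟩
  have h1 : (1 : ℝ) ≤ (k : ℝ) + 1 := by linarith [Nat.cast_nonneg (α := ℝ) k]
  have h2 : ((k : ℝ) + 1) ^ p ≤ ((k : ℝ) + 1) ^ (p + q) := pow_le_pow_right₀ h1 (Nat.le_add_right _ _)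
  have h3 : ((k : ℝ) + 1) ^ q ≤ ((k : ℝ) + 1) ^ (p + q) := pow_le_pow_right₀ h1 (Nat.le_add_left _ _)
  rw [add_mul]
  exact add_le_add ((hC k).trans (mul_le_mul_of_nonneg_left h2 hC0)) ((hD k).trans (mul_le_mul_of_nonneg_left h3 hD0))

lemma PG.smul (a : ℂ) (hc : PG c) : PG fun k => a * c k := by
  obtain ⟨C, p, hC⟩ := hc
  refine ⟨‖a‖ * C, p, fun k => ?_⟩
  rw [norm_mul, mul_assoc]
  exact mul_le_mul_of_nonneg_left (hC k) (norm_nonneg _)

lemma PG.nat (hc : PG c) : PG fun k => (k : ℂ) * c k := by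
  obtain ⟨C, p, hC⟩ := hc
  have hC0 := PG.nonneg hC
  refine ⟨C, p + 1, fun k => ?_⟩
  rw [norm_mul, Complex.norm_natCast, pow_succ]
  calc (k : ℝ) * ‖c k‖ ≤ ((k : ℝ) + 1) * (C * ((k : ℝ) + 1) ^ p) :=
        mul_le_mul (by linarith) (hC k) (norm_nonneg _) (by positivity)
    _ = C * (((k : ℝ) + 1) ^ p * ((k : ℝ) + 1)) := by ring

lemma PG.zero : PG fun _ => 0 := ⟨0, 0, fun k => by simp⟩

lemma PG.sum {ι : Type*} (s : Finset ι) {f : ι → ℕ → ℂ} (h : ∀ i ∈ s, PG (f i)) : PG fun k => ∑ i ∈ s, f i k := by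
  classical
  induction s using Finset.induction_on with
  | empty => simpa using PG.zero
  | insert a s ha ih =>
    simp only [Finset.sum_insert ha]
    exact (h a (Finset.mem_insert_self _ _)).add (ih fun i hi => h i (Finset.mem_insert_of_mem hi))

lemma PG.shift (hc : PG c) : PG fun k => c (k + 1) := by
  obtain ⟨C, p, hC⟩ := hc
  have hC0 := PG.nonneg hC
  refine ⟨C * 2 ^ p, p, fun k => (hC (k + 1)).trans ?_⟩
  rw [mul_assoc, ← mul_pow]
  push_cast
  refine mul_le_mul_of_nonneg_left (pow_le_pow_left₀ (by positivity) ?_ _) hC0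
  linarith [Nat.cast_nonneg (α := ℝ) k]

lemma ps_add (hc : PG c) (hd : PG d) {z : ℂ} (hz : ‖z‖ < 1) : ps (fun k => c k + d k) z = ps c z + ps d z := by
  unfold ps
  rw [← Summable.tsum_add (hc.summable' hz) (hd.summable' hz)]
  exact tsum_congr fun k => by ring

lemma ps_smul (a : ℂ) (z : ℂ) : ps (fun k => a * c k) z = a * ps c z := by
  unfold ps
  rw [← tsum_mul_left]
  exact tsum_congr fun k => by ring

lemma ps_sum {ι : Type*} (s : Finset ι) {f : ι → ℕ → ℂ} (h : ∀ i ∈ s, PG (f i)) {z : ℂ} (hz : ‖z‖ < 1) :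
    ps (fun k => ∑ i ∈ s, f i k) z = ∑ i ∈ s, ps (f i) z := by
  classical
  induction s using Finset.induction_on with
  | empty => simp [ps]
  | insert a s ha ih =>
    simp only [Finset.sum_insert ha]
    rw [ps_add (h a (Finset.mem_insert_self _ _)) (PG.sum s fun i hi => h i (Finset.mem_insert_of_mem hi)) hz,
      ih fun i hi => h i (Finset.mem_insert_of_mem hi)]

lemma ps_shift (hc : PG c) {z : ℂ} (hz : ‖z‖ < 1) : ps c z = c 0 + z * ps (fun k => c (k + 1)) z := by
  unfold ps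
  rw [(hc.summable' hz).tsum_eq_zero_add, ← tsum_mul_left]
  simp only [pow_zero, mul_one]
  congr 1
  exact tsum_congr fun k => by ring

lemma ps_zero (c : ℕ → ℂ) : ps c 0 = c 0 := by
  unfold ps
  rw [tsum_eq_single 0]
  · simp
  · intro k hk
    rw [zero_pow hk, mul_zero]

lemma ps_diff (hc : PG c) : DifferentiableOn ℂ (ps c) (Metric.ball 0 1) := by
  intro z hz
  rw [Metric.mem_ball, dist_zero_right] at hz
  obtain ⟨r, hr1, hr2⟩ := exists_between hz
  have hr0 : 0 ≤ r := (norm_nonneg _).trans hr1.le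
  have h1 : DifferentiableOn ℂ (fun w : ℂ => ∑' k, c k * w ^ k) (Metric.ball 0 r) := by
    refine Complex.differentiableOn_tsum_of_summable_norm (hc.summable hr0 hr2) (fun m => ?_) Metric.isOpen_ball
      fun m u hu => ?_
    · exact ((differentiable_const _).mul (differentiable_id.pow m)).differentiableOn
    · rw [norm_mul, norm_pow]
      refine mul_le_mul_of_nonneg_left (pow_le_pow_left₀ (norm_nonneg _) ?_ _) (norm_nonneg _)
      rw [Metric.mem_ball, dist_zero_right] at hu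
      exact hu.le
  exact (h1.differentiableAt (Metric.isOpen_ball.mem_nhds (by rwa [Metric.mem_ball, dist_zero_right]))).differentiableWithinAt

lemma ps_an (hc : PG c) : AnalyticOnNhd ℂ (ps c) (Metric.ball 0 1) := (ps_diff hc).analyticOnNhd Metric.isOpen_ball

lemma ps_deriv (hc : PG c) {z : ℂ} (hz : ‖z‖ < 1) : z * deriv (ps c) z = ps (fun k => (k : ℂ) * c k) z := by
  obtain ⟨r, hr1, hr2⟩ := exists_between hz
  have hr0 : 0 ≤ r := (norm_nonneg _).trans hr1.le
  have h1 : HasSum (fun m : ℕ => deriv (fun w : ℂ => c m * w ^ m) z) (deriv (fun w : ℂ => ∑' m, c m * w ^ m) z) := by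
    refine Complex.hasSum_deriv_of_summable_norm (hc.summable hr0 hr2) (U := Metric.ball 0 r) (fun m => ?_)
      Metric.isOpen_ball (fun m w hw => ?_) (by rwa [Metric.mem_ball, dist_zero_right])
    · exact ((differentiable_const _).mul (differentiable_id.pow m)).differentiableOn
    · rw [norm_mul, norm_pow]
      refine mul_le_mul_of_nonneg_left (pow_le_pow_left₀ (norm_nonneg _) ?_ _) (norm_nonneg _)
      rw [Metric.mem_ball, dist_zero_right] at hw
      exact hw.le
  have h2 := (h1.mul_left z).tsum_eq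
  show z * deriv (fun w : ℂ => ∑' m, c m * w ^ m) z = _
  rw [← h2]
  unfold ps
  refine tsum_congr fun m => ?_
  rw [deriv_const_mul _ (differentiableAt_id.pow m)]
  have := (hasDerivAt_pow m z).deriv
  rw [this]
  rcases Nat.eq_zero_or_pos m with h0 | hpos
  · subst h0; simp
  · obtain ⟨m', rfl⟩ := Nat.exists_eq_succ_of_ne_zero hpos.ne'
    rw [Nat.succ_sub_one, pow_succ]
    ring

end Pool.Agent.Y119.HY
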