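import Pool.Agent.Y119.HY.Fam

/-!
# Relations between the entries of the holomorphic part are invariant under the symplectic group
-/

set_option autoImplicit false

open PowerSeries Pool.Agent.Y113

namespace Pool.Agent.Y119.HZ

open Pool.Agent.Y119.HY (QD Am Jm cm Ep E Ep_eval E_neg Hf Hc Yf Vr Rel Gal E_add E_zero E_mul_neg E_isom)

variable {n : ℕ} {Q : Polynomial ℚ}

/-- the entries converge for `t > 1` -/
lemma Cv_Hp (hQ : QD n Q) {t : ℝ} (ht : 1 < t) (i j : Fin n) : Cv t (Hp n Q i j) := by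
  have h1 := ((Pool.Agent.Y119.HY.sol_c hQ).growth Pool.Agent.Y119.HY.Ac_nil i j).summable
    (r := 1 / t) (by positivity) (by rw [div_lt_one (by linarith)]; exact ht)
  refine h1.congr fun m => ?_
  congr 1
  unfold Hc
  rw [Pool.Agent.Y119.HY.cm_apply]
  have h2 : coeff m (Hp n Q i j) = Pool.Agent.Y119.HY.Hq n Q m i j := congrFun (congrFun (cf_Hp (Q := Q) m) i) j
  rw [h2]
  have h3 : ((Pool.Agent.Y119.HY.Hq n Q m i j : ℚ) : ℂ) = (((Pool.Agent.Y119.HY.Hq n Q m i j : ℚ) : ℝ) : ℂ) := by push_cast; rfl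
  rw [h3, Complex.norm_real, Real.norm_eq_abs]

/-- the values -/
lemma ev_Hp (t : ℝ) (i j : Fin n) : ((ev t (Hp n Q i j) : ℝ) : ℂ) = Hf (Hc n Q) (((1 / t : ℝ)) : ℂ) i j := by
  unfold Hf
  rw [Matrix.of_apply]
  unfold Pool.Agent.Y119.HY.ps ev
  rw [Complex.ofReal_tsum]
  refine tsum_congr fun m => ?_
  have h2 : coeff m (Hp n Q i j) = Pool.Agent.Y119.HY.Hq n Q m i j := congrFun (congrFun (cf_Hp (Q := Q) m) i) j
  rw [h2]
  have h3 : Hc n Q m i j = ((Pool.Agent.Y119.HY.Hq n Q m i j : ℚ) : ℂ) := rfl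
  show _ = Hc n Q m i j * _
  rw [h3]
  push_cast
  rfl

/-- evaluation of the coefficients -/
noncomputable def evq (z : ℂ) : Polynomial ℚ →+* ℂ := (Polynomial.aeval z : Polynomial ℚ →ₐ[ℚ] ℂ).toRingHom

lemma ev_aeval (hQ : QD n Q) {t : ℝ} (ht : 1 < t) (R : MvPolynomial (Fin (n * n)) (Polynomial ℚ)) :
    Cv t (MvPolynomial.aeval (hf n Q) R) ∧ ((ev t (MvPolynomial.aeval (hf n Q) R) : ℝ) : ℂ) =
      MvPolynomial.eval₂ (evq (((1 / t : ℝ)) : ℂ)) (fun j => ((ev t (hf n Q j) : ℝ) : ℂ)) R := by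
  have ht0 : 0 < t := by linarith
  induction R using MvPolynomial.induction_on with
  | C p =>
    have h1 : MvPolynomial.aeval (hf n Q) (MvPolynomial.C p) = (p : ℚ⟦X⟧) := by
      rw [MvPolynomial.aeval_C, PowerSeries.algebraMap_apply']
      simp
    rw [h1, MvPolynomial.eval₂_C]
    refine ⟨Cv.coe p, ?_⟩
    rw [ev_coe]
    unfold evq
    have h2 : (((1 / t : ℝ)) : ℂ) = algebraMap ℝ ℂ (1 / t) := rfl
    rw [h2]
    show _ = Polynomial.aeval (algebraMap ℝ ℂ (1 / t)) p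
    rw [Polynomial.aeval_algebraMap_apply]
    rfl
  | add p q hp hq =>
    rw [map_add, MvPolynomial.eval₂_add, ← hp.2, ← hq.2, Cv.ev_add ht0 hp.1 hq.1]
    refine ⟨Cv.add ht0 hp.1 hq.1, ?_⟩
    push_cast
    rfl
  | mul_X p j hp =>
    have h1 : Cv t (hf n Q j) := Cv_Hp hQ ht _ _
    rw [map_mul, MvPolynomial.aeval_X, MvPolynomial.eval₂_mul, MvPolynomial.eval₂_X, ← hp.2, Cv.ev_mul ht0 hp.1 h1]
    refine ⟨Cv.mul ht0 hp.1 h1, ?_⟩
    push_cast
    rfl

/-- the relation as a polynomial in `z`, `log z` and the entries of `Y` -/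
noncomputable def PR (N : Matrix (Fin n) (Fin n) ℂ) (R : MvPolynomial (Fin (n * n)) (Polynomial ℚ)) : MvPolynomial (Vr n) ℂ :=
  MvPolynomial.eval₂ (Polynomial.aeval (R := ℚ) (MvPolynomial.X none : MvPolynomial (Vr n) ℂ)).toRingHom
    (fun j => ∑ c, MvPolynomial.X (some (some ((ix n j).1, c))) *
      Polynomial.aeval (-MvPolynomial.X (some none)) (Ep N c (ix n j).2)) R

lemma ev_PR (N : Matrix (Fin n) (Fin n) ℂ) (R : MvPolynomial (Fin (n * n)) (Polynomial ℚ)) (z L : ℂ)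
    (M : Matrix (Fin n) (Fin n) ℂ) : Pool.Agent.Y119.HY.ev (PR N R) z L M =
      MvPolynomial.eval₂ (evq z) (fun j => (M * E N (-L)) (ix n j).1 (ix n j).2) R := by
  unfold PR Pool.Agent.Y119.HY.ev
  induction R using MvPolynomial.induction_on with
  | C p =>
    rw [MvPolynomial.eval₂_C, MvPolynomial.eval₂_C]
    have h1 : ((MvPolynomial.eval (Pool.Agent.Y119.HY.pt z L M)).comp
        (Polynomial.aeval (R := ℚ) (MvPolynomial.X none : MvPolynomial (Vr n) ℂ)).toRingHom) = evq z := by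
      refine Polynomial.ringHom_ext (fun a => ?_) ?_
      · simp [evq]
      · rw [RingHom.comp_apply]
        unfold evq
        show (MvPolynomial.eval (Pool.Agent.Y119.HY.pt z L M)) (Polynomial.aeval _ Polynomial.X) = Polynomial.aeval z Polynomial.X
        rw [Polynomial.aeval_X, Polynomial.aeval_X, MvPolynomial.eval_X]
        rfl
    rw [← h1]
    rfl
  | add p q hp hq => rw [MvPolynomial.eval₂_add, MvPolynomial.eval₂_add, map_add, hp, hq]
  | mul_X p j hp =>
    rw [MvPolynomial.eval₂_mul, MvPolynomial.eval₂_mul, map_mul, hp, MvPolynomial.eval₂_X, MvPolynomial.eval₂_X]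
    congr 1
    rw [map_sum, Matrix.mul_apply]
    refine Finset.sum_congr rfl fun c _ => ?_
    rw [map_mul, MvPolynomial.eval_X]
    congr 1
    have h1 : (MvPolynomial.eval (Pool.Agent.Y119.HY.pt z L M)) (Polynomial.aeval (-MvPolynomial.X (some none)) (Ep N c (ix n j).2)) =
        (Ep N c (ix n j).2).eval (-L) := by
      have h2 : (MvPolynomial.aeval (Pool.Agent.Y119.HY.pt z L M) : MvPolynomial (Vr n) ℂ →ₐ[ℂ] ℂ)
          (Polynomial.aeval (-MvPolynomial.X (some none)) (Ep N c (ix n j).2)) =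
          Polynomial.aeval ((MvPolynomial.aeval (Pool.Agent.Y119.HY.pt z L M) : MvPolynomial (Vr n) ℂ →ₐ[ℂ] ℂ)
            (-MvPolynomial.X (some none))) (Ep N c (ix n j).2) := (Polynomial.aeval_algHom_apply _ _ _).symm
      rw [map_neg, MvPolynomial.aeval_X, ← MvPolynomial.coe_aeval_eq_eval] at *
      exact h2
    rw [h1, ← Ep_eval]
    rfl

/-- **invariance of the relations between the entries of the holomorphic part** -/
theorem rel_inv (hQ : QD n Q) {R : MvPolynomial (Fin (n * n)) (Polynomial ℚ)} (hR : MvPolynomial.aeval (hf n Q) R = 0)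
    {x : ℝ} (hx : 0 < x) (hx1 : x < 1) {κ : Matrix (Fin n) (Fin n) ℂ}
    (hκ : κ.transpose * cm (Jm n Q) * κ = cm (Jm n Q)) :
    MvPolynomial.eval₂ (evq (x : ℂ)) (fun j => (Hf (Hc n Q) (x : ℂ) * κ) (ix n j).1 (ix n j).2) R = 0 := by
  set N := cm (Am n) with hNd
  have hN : N ^ n = 0 := Pool.Agent.Y119.HY.Ac_nil
  have hNJ : N.transpose * cm (Jm n Q) + cm (Jm n Q) * N = 0 := Pool.Agent.Y119.HY.Jc_rel
  -- the relation
  have hrel : PR N R ∈ Rel (Yf N (Hc n Q)) := by
    intro y hy hy1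
    rw [ev_PR]
    have e1 : Yf N (Hc n Q) (y : ℂ) * E N (-Complex.log y) = Hf (Hc n Q) (y : ℂ) := by
      unfold Yf
      rw [Matrix.mul_assoc, E_mul_neg hN, mul_one]
    rw [e1]
    have hy' : 1 < 1 / y := by rw [lt_div_iff₀ hy]; linarith
    have h1 := (ev_aeval hQ hy' R).2
    rw [hR] at h1
    have h2 : ev (1 / y) (0 : ℚ⟦X⟧) = 0 := by
      unfold ev
      simp
    rw [h2, Complex.ofReal_zero, one_div_one_div] at h1
    have h3 : (fun j => ((ev (1 / y) (hf n Q j) : ℝ) : ℂ)) = fun j => Hf (Hc n Q) (y : ℂ) (ix n j).1 (ix n j).2 := by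
      funext j
      unfold hf
      rw [ev_Hp, one_div_one_div]
    rw [h3] at h1
    exact h1.symm
  set L : ℂ := Complex.log x with hL
  set g : Matrix (Fin n) (Fin n) ℂ := E N (-L) * κ * E N L with hg
  have hgJ : g.transpose * cm (Jm n Q) * g = cm (Jm n Q) := by
    have i1 := E_isom hN hNJ (-L)
    have i2 := E_isom hN hNJ L
    calc g.transpose * cm (Jm n Q) * g = (E N L).transpose * (κ.transpose * ((E N (-L)).transpose * cm (Jm n Q) * E N (-L)) * κ) *
          E N L := by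
            rw [hg, Matrix.transpose_mul, Matrix.transpose_mul]
            simp only [Matrix.mul_assoc]
      _ = _ := by rw [i1, hκ, i2]
  have h1 := Pool.Agent.Y119.HY.hyp_invar hQ g hgJ _ hrel x hx hx1
  rw [ev_PR] at h1
  have e2 : Yf N (Hc n Q) (x : ℂ) * g * E N (-L) = Hf (Hc n Q) (x : ℂ) * κ := by
    unfold Yf
    have e3 : E N L * E N (-L) = 1 := E_mul_neg hN L
    calc Hf (Hc n Q) (x : ℂ) * E N (Complex.log x) * g * E N (-L) =
          Hf (Hc n Q) (x : ℂ) * (E N L * E N (-L)) * κ * (E N L * E N (-L)) := by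
            rw [hg]
            simp only [Matrix.mul_assoc]
            rfl
      _ = _ := by rw [e3, mul_one, mul_one]
  rw [← hL, e2] at h1
  exact h1

end Pool.Agent.Y119.HZ
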